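import Mathlib

/-!
# The Chevalley group of a simply laced root lattice, acting on its Lie algebra (definitions)

`A` is a simply laced Cartan matrix, for example `CartanMatrix.E₈`.  The root lattice is
`Fin n → ℤ` with the form `ip A`, the roots are the vectors of norm two, and the Lie algebra over
`K` has the Chevalley basis `e_v` (`v` a root) and `h_i` (`i : Fin n`) with
`[e_u, e_v] = eps u v * e_(u+v)` if `u + v` is a root, `[e_u, e_(-u)] = - u`,
`[h, e_v] = (h, v) * e_v`, where `eps u v = (-1) ^ (hf u v)`.
-/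

namespace H41Chev

variable {n : ℕ}

/-- the symmetric bilinear form on the root lattice, with Gram matrix `A` -/
def ip (A : Matrix (Fin n) (Fin n) ℤ) (u v : Fin n → ℤ) : ℤ := ∑ i, ∑ j, u i * A i j * v j

/-- the bilinear form whose matrix is the upper triangular half of `A` (`1` on the diagonal) -/
def hf (A : Matrix (Fin n) (Fin n) ℤ) (u v : Fin n → ℤ) : ℤ :=
  ∑ i, ∑ j, u i * (if i < j then A i j else if i = j then 1 else 0) * v j

/-- the sign `(-1) ^ k` -/
def sg (k : ℤ) : ℤ := if k % 2 = 0 then 1 else -1

/-- the sign cocycle -/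
def eps (A : Matrix (Fin n) (Fin n) ℤ) (u v : Fin n → ℤ) : ℤ := sg (hf A u v)

/-- the roots: the lattice vectors of norm two -/
def Root (A : Matrix (Fin n) (Fin n) ℤ) : Type := {v : Fin n → ℤ // ip A v v = 2}

/-- the Lie algebra over `K` as a module: coordinates with respect to the `e_v` and the `h_i` -/
abbrev LieMod (A : Matrix (Fin n) (Fin n) ℤ) (K : Type*) : Type _ := (Root A → K) × (Fin n → K)

/-- the coordinate at a lattice vector, zero if the vector is not a root -/
def ev (A : Matrix (Fin n) (Fin n) ℤ) {K : Type*} [Field K] (f : Root A → K)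
    (v : Fin n → ℤ) : K :=
  if h : ip A v v = 2 then f ⟨v, h⟩ else 0

/-- the pairing of a lattice vector with a vector of the torus part -/
def pair (A : Matrix (Fin n) (Fin n) ℤ) {K : Type*} [Field K] (u : Fin n → ℤ) (h : Fin n → K) : K :=
  ∑ i, ∑ j, (u i : K) * (A i j : K) * h j

/-- the map `exp (t ad e_r)` of the Lie algebra: it maps
`e_v` to `e_v + t * eps r v * e_(r+v)` if `(r, v) = -1`, `e_(-r)` to `e_(-r) - t r + t ^ 2 e_r`,
`h` to `h - t (r, h) e_r`, and it fixes the other `e_v` -/
def rootFun (A : Matrix (Fin n) (Fin n) ℤ) {K : Type*} [Field K] (r : Root A) (t : K)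
    (x : LieMod A K) : LieMod A K :=
  (fun v => x.1 v +
      (if ip A r.1 v.1 = 1 then t * (eps A r.1 (v.1 - r.1) : K) * ev A x.1 (v.1 - r.1) else 0) +
      (if v.1 = r.1 then t ^ 2 * ev A x.1 (-r.1) - t * pair A r.1 x.2 else 0),
    fun i => x.2 i - t * ev A x.1 (-r.1) * (r.1 i : K))

theorem rootFun_add (A : Matrix (Fin n) (Fin n) ℤ) {K : Type*} [Field K] (r : Root A) (t : K)
    (x y : LieMod A K) : rootFun A r t (x + y) = rootFun A r t x + rootFun A r t y := by
  have h1 : ∀ v, ev A (x.1 + y.1) v = ev A x.1 v + ev A y.1 v := by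
    intro v; unfold ev; split_ifs
    · rfl
    · simp
  have h2 : pair A r.1 (x.2 + y.2) = pair A r.1 x.2 + pair A r.1 y.2 := by
    simp only [pair, Pi.add_apply, mul_add, Finset.sum_add_distrib]
  unfold rootFun
  refine Prod.ext (funext fun v => ?_) (funext fun i => ?_)
  · simp only [Prod.fst_add, Prod.snd_add, Pi.add_apply, h1, h2]
    split_ifs <;> ring
  · simp only [Prod.fst_add, Prod.snd_add, Pi.add_apply, h1]
    ring

theorem rootFun_smul (A : Matrix (Fin n) (Fin n) ℤ) {K : Type*} [Field K] (r : Root A) (t : K)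
    (c : K) (x : LieMod A K) : rootFun A r t (c • x) = c • rootFun A r t x := by
  have h1 : ∀ v, ev A (c • x.1) v = c * ev A x.1 v := by
    intro v; unfold ev; split_ifs
    · rfl
    · simp
  have h2 : pair A r.1 (c • x.2) = c * pair A r.1 x.2 := by
    simp only [pair, Pi.smul_apply, smul_eq_mul, Finset.mul_sum]
    exact Finset.sum_congr rfl fun i _ => Finset.sum_congr rfl fun j _ => by ring
  unfold rootFun
  refine Prod.ext (funext fun v => ?_) (funext fun i => ?_)
  · simp only [Prod.smul_fst, Prod.smul_snd, Pi.smul_apply, smul_eq_mul, h1, h2]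
    split_ifs <;> ring
  · simp only [Prod.smul_fst, Prod.smul_snd, Pi.smul_apply, smul_eq_mul, h1]
    ring

/-- the linear map `exp (t ad e_r)` of the Lie algebra -/
def rootMap (A : Matrix (Fin n) (Fin n) ℤ) {K : Type*} [Field K] (r : Root A)
    (t : K) : LieMod A K →ₗ[K] LieMod A K where
  toFun := rootFun A r t
  map_add' := rootFun_add A r t
  map_smul' := rootFun_smul A r t

/-- the linear automorphisms of the Lie algebra as a module -/
abbrev GLM (A : Matrix (Fin n) (Fin n) ℤ) (K : Type*) [Field K] : Type _ :=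
  LieMod A K ≃ₗ[K] LieMod A K

/-- the root elements `exp (t ad e_r)` -/
def rootSet (A : Matrix (Fin n) (Fin n) ℤ) (K : Type*) [Field K] : Set (GLM A K) :=
  {g | ∃ (r : Root A) (t : K), ∀ x : LieMod A K, g x = rootFun A r t x}

/-- the Chevalley group of type `A` over `K`: the group of automorphisms of the Lie algebra
generated by the root elements `exp (t ad e_r)` -/
def ChevalleyGroup (A : Matrix (Fin n) (Fin n) ℤ) (K : Type*) [Field K] : Subgroup (GLM A K) :=
  Subgroup.closure (rootSet A K)

end H41Chev
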