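import Mathlib
import Pool.Agent.H.MP_0335f8_al.helper41.Chev

/-!
# The lattice: bilinearity, signs, roots
-/

namespace H41Chev

variable {n : ℕ} {A : Matrix (Fin n) (Fin n) ℤ}

theorem ip_add_left (u u' v : Fin n → ℤ) : ip A (u + u') v = ip A u v + ip A u' v := by
  simp only [ip, Pi.add_apply, add_mul, Finset.sum_add_distrib]

theorem ip_add_right (u v v' : Fin n → ℤ) : ip A u (v + v') = ip A u v + ip A u v' := by
  simp only [ip, Pi.add_apply, mul_add, Finset.sum_add_distrib]

theorem ip_neg_left (u v : Fin n → ℤ) : ip A (-u) v = - ip A u v := by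
  simp only [ip, Pi.neg_apply, neg_mul, Finset.sum_neg_distrib]

theorem ip_neg_right (u v : Fin n → ℤ) : ip A u (-v) = - ip A u v := by
  simp only [ip, Pi.neg_apply, mul_neg, Finset.sum_neg_distrib]

theorem ip_sub_left (u u' v : Fin n → ℤ) : ip A (u - u') v = ip A u v - ip A u' v := by
  rw [sub_eq_add_neg, ip_add_left, ip_neg_left]; ring

theorem ip_sub_right (u v v' : Fin n → ℤ) : ip A u (v - v') = ip A u v - ip A u v' := by
  rw [sub_eq_add_neg, ip_add_right, ip_neg_right]; ring

theorem ip_smul_left (c : ℤ) (u v : Fin n → ℤ) : ip A (c • u) v = c * ip A u v := by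
  simp only [ip, Pi.smul_apply, smul_eq_mul, Finset.mul_sum]
  exact Finset.sum_congr rfl fun i _ => Finset.sum_congr rfl fun j _ => by ring

theorem ip_smul_right (c : ℤ) (u v : Fin n → ℤ) : ip A u (c • v) = c * ip A u v := by
  simp only [ip, Pi.smul_apply, smul_eq_mul, Finset.mul_sum]
  exact Finset.sum_congr rfl fun i _ => Finset.sum_congr rfl fun j _ => by ring

theorem hf_add_left (u u' v : Fin n → ℤ) : hf A (u + u') v = hf A u v + hf A u' v := by
  simp only [hf, Pi.add_apply, add_mul, Finset.sum_add_distrib]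

theorem hf_add_right (u v v' : Fin n → ℤ) : hf A u (v + v') = hf A u v + hf A u v' := by
  simp only [hf, Pi.add_apply, mul_add, Finset.sum_add_distrib]

theorem hf_neg_left (u v : Fin n → ℤ) : hf A (-u) v = - hf A u v := by
  simp only [hf, Pi.neg_apply, neg_mul, Finset.sum_neg_distrib]

theorem hf_neg_right (u v : Fin n → ℤ) : hf A u (-v) = - hf A u v := by
  simp only [hf, Pi.neg_apply, mul_neg, Finset.sum_neg_distrib]

theorem hf_sub_left (u u' v : Fin n → ℤ) : hf A (u - u') v = hf A u v - hf A u' v := by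
  rw [sub_eq_add_neg, hf_add_left, hf_neg_left]; ring

theorem hf_sub_right (u v v' : Fin n → ℤ) : hf A u (v - v') = hf A u v - hf A u v' := by
  rw [sub_eq_add_neg, hf_add_right, hf_neg_right]; ring

theorem hf_smul_left (c : ℤ) (u v : Fin n → ℤ) : hf A (c • u) v = c * hf A u v := by
  simp only [hf, Pi.smul_apply, smul_eq_mul, Finset.mul_sum]
  exact Finset.sum_congr rfl fun i _ => Finset.sum_congr rfl fun j _ => by ring

theorem hf_smul_right (c : ℤ) (u v : Fin n → ℤ) : hf A u (c • v) = c * hf A u v := by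
  simp only [hf, Pi.smul_apply, smul_eq_mul, Finset.mul_sum]
  exact Finset.sum_congr rfl fun i _ => Finset.sum_congr rfl fun j _ => by ring

@[simp] theorem ip_zero_left (v : Fin n → ℤ) : ip A 0 v = 0 := by simp [ip]
@[simp] theorem ip_zero_right (v : Fin n → ℤ) : ip A v 0 = 0 := by simp [ip]
@[simp] theorem hf_zero_left (v : Fin n → ℤ) : hf A 0 v = 0 := by simp [hf]
@[simp] theorem hf_zero_right (v : Fin n → ℤ) : hf A v 0 = 0 := by simp [hf]

/-! ### signs -/

theorem sg_add (a b : ℤ) : sg (a + b) = sg a * sg b := by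
  unfold sg
  split_ifs <;> first | omega | norm_num

@[simp] theorem sg_zero : sg 0 = 1 := rfl
@[simp] theorem sg_one : sg 1 = -1 := rfl

@[simp] theorem sg_neg (a : ℤ) : sg (-a) = sg a := by
  unfold sg
  split_ifs <;> first | omega | norm_num

theorem sg_sub (a b : ℤ) : sg (a - b) = sg a * sg b := by
  rw [sub_eq_add_neg, sg_add, sg_neg]

@[simp] theorem sg_mul_self (a : ℤ) : sg a * sg a = 1 := by
  unfold sg; split_ifs <;> norm_num

theorem sg_even {a : ℤ} (h : a % 2 = 0) : sg a = 1 := by unfold sg; rw [if_pos h]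

theorem sg_odd {a : ℤ} (h : a % 2 = 1) : sg a = -1 := by unfold sg; rw [if_neg (by omega)]

theorem eps_add_left (u u' v : Fin n → ℤ) : eps A (u + u') v = eps A u v * eps A u' v := by
  rw [eps, hf_add_left, sg_add]; rfl

theorem eps_add_right (u v v' : Fin n → ℤ) : eps A u (v + v') = eps A u v * eps A u v' := by
  rw [eps, hf_add_right, sg_add]; rfl

theorem eps_sub_left (u u' v : Fin n → ℤ) : eps A (u - u') v = eps A u v * eps A u' v := by
  rw [eps, hf_sub_left, sg_sub]; rfl

theorem eps_sub_right (u v v' : Fin n → ℤ) : eps A u (v - v') = eps A u v * eps A u v' := by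
  rw [eps, hf_sub_right, sg_sub]; rfl

theorem eps_neg_left (u v : Fin n → ℤ) : eps A (-u) v = eps A u v := by
  rw [eps, hf_neg_left, sg_neg]; rfl

theorem eps_neg_right (u v : Fin n → ℤ) : eps A u (-v) = eps A u v := by
  rw [eps, hf_neg_right, sg_neg]; rfl

theorem eps_sq (u v : Fin n → ℤ) : eps A u v * eps A u v = 1 := sg_mul_self _

/-! ### good matrices -/

/-- the matrix is symmetric with diagonal `2` and positive definite over the integers -/
structure Good (A : Matrix (Fin n) (Fin n) ℤ) : Prop where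
  symm : ∀ i j, A i j = A j i
  diag : ∀ i, A i i = 2
  pos : ∀ v : Fin n → ℤ, v ≠ 0 → 0 < ip A v v

theorem ip_eq (hA : Good A) (u v : Fin n → ℤ) : ip A u v = hf A u v + hf A v u := by
  have h1 : hf A v u = ∑ i, ∑ j, u i * (if j < i then A i j else if i = j then 1 else 0) * v j := by
    rw [hf, Finset.sum_comm]
    refine Finset.sum_congr rfl fun i _ => Finset.sum_congr rfl fun j _ => ?_
    rw [hA.symm j i]
    by_cases h : i = j
    · subst h; simp; ring
    · rw [if_neg (Ne.symm h), if_neg h]; ring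
  rw [h1, ip, hf, ← Finset.sum_add_distrib]
  refine Finset.sum_congr rfl fun i _ => ?_
  rw [← Finset.sum_add_distrib]
  refine Finset.sum_congr rfl fun j _ => ?_
  rcases lt_trichotomy i j with h | h | h
  · rw [if_pos h, if_neg (not_lt.2 h.le), if_neg h.ne]; ring
  · subst h; simp [hA.diag]; ring
  · rw [if_pos h, if_neg (not_lt.2 h.le), if_neg h.ne']; ring

theorem ip_comm (hA : Good A) (u v : Fin n → ℤ) : ip A u v = ip A v u := by
  rw [ip_eq hA, ip_eq hA, add_comm]

theorem eps_comm (hA : Good A) (u v : Fin n → ℤ) : eps A v u = sg (ip A u v) * eps A u v := by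
  rw [ip_eq hA, sg_add, eps, eps, mul_right_comm, sg_mul_self, one_mul]

theorem eps_self (hA : Good A) {v : Fin n → ℤ} (hv : ip A v v = 2) : eps A v v = -1 := by
  have := ip_eq hA v v
  rw [eps, show hf A v v = 1 by omega]; rfl

theorem cs (hA : Good A) {u v : Fin n → ℤ} (hu : ip A u u = 2) (hv : ip A v v = 2) :
    ip A u v ≤ 2 ∧ -2 ≤ ip A u v ∧ (ip A u v = 2 → u = v) ∧ (ip A u v = -2 → u = -v) := by
  have h1 : u = v ∨ 0 < ip A (u - v) (u - v) := by
    by_cases h : u = v
    · exact Or.inl h
    · exact Or.inr (hA.pos _ (sub_ne_zero.2 h))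
  have h2 : u = -v ∨ 0 < ip A (u + v) (u + v) := by
    by_cases h : u = -v
    · exact Or.inl h
    · exact Or.inr (hA.pos _ fun h' => h (eq_neg_of_add_eq_zero_left h'))
  have e1 : ip A (u - v) (u - v) = 4 - 2 * ip A u v := by
    rw [ip_sub_left, ip_sub_right, ip_sub_right, ip_comm hA v u, hu, hv]; ring
  have e2 : ip A (u + v) (u + v) = 4 + 2 * ip A u v := by
    rw [ip_add_left, ip_add_right, ip_add_right, ip_comm hA v u, hu, hv]; ring
  have h3 : u = v → ip A u v = 2 := fun h => by rw [h, hv]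
  have h4 : u = -v → ip A u v = -2 := fun h => by rw [h, ip_neg_left, hv]
  refine ⟨?_, ?_, ?_, ?_⟩
  · rcases h1 with h | h
    · rw [h3 h]
    · omega
  · rcases h2 with h | h
    · rw [h4 h]
    · omega
  · intro h
    rcases h1 with h' | h'
    · exact h'
    · omega
  · intro h
    rcases h2 with h' | h'
    · exact h'
    · omega

theorem root_neg {v : Fin n → ℤ} (hv : ip A v v = 2) : ip A (-v) (-v) = 2 := by
  rw [ip_neg_left, ip_neg_right, neg_neg, hv]

theorem root_add (hA : Good A) {u v : Fin n → ℤ} (hu : ip A u u = 2) (hv : ip A v v = 2)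
    (h : ip A u v = -1) : ip A (u + v) (u + v) = 2 := by
  rw [ip_add_left, ip_add_right, ip_add_right, ip_comm hA v u, hu, hv, h]; norm_num

theorem root_sub (hA : Good A) {u v : Fin n → ℤ} (hu : ip A u u = 2) (hv : ip A v v = 2)
    (h : ip A u v = 1) : ip A (v - u) (v - u) = 2 := by
  rw [ip_sub_left, ip_sub_right, ip_sub_right, ip_comm hA v u, hu, hv, h]; norm_num

end H41Chev
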