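import Mathlib
import Pool.Agent.H.MP_0335f8_al.helper41.Lat

/-!
# The relations between the root elements
-/

namespace H41Chev

variable {n : ℕ} {A : Matrix (Fin n) (Fin n) ℤ} {K : Type*} [Field K]

/-- the action of a root element on coordinate functions -/
def opF (A : Matrix (Fin n) (Fin n) ℤ) (r : Fin n → ℤ) (t : K) (F H : (Fin n → ℤ) → K)
    (v : Fin n → ℤ) : K :=
  F v - (if ip A r v = 1 then t * (eps A r v : K) * F (v - r) else 0) +
    (if ip A r v = 2 then t ^ 2 * F (-r) - t * H r else 0)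

/-- the action of a root element on the torus functional -/
def opH (A : Matrix (Fin n) (Fin n) ℤ) (r : Fin n → ℤ) (t : K) (F H : (Fin n → ℤ) → K)
    (u : Fin n → ℤ) : K := H u - t * F (-r) * (ip A u r : K)

theorem ev_root (f : Root A → K) (v : Root A) : ev A f v.1 = f v := by
  unfold ev; rw [dif_pos v.2]; rfl

theorem ev_rm (hA : Good A) (r : Root A) (t : K) (x : LieMod A K) {v : Fin n → ℤ}
    (hv : ip A v v = 2) :
    ev A (rootMap A r t x).1 v = opF A r.1 t (ev A x.1) (fun u => pair A u x.2) v := by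
  have h1 : ev A (rootMap A r t x).1 v = (rootMap A r t x).1 ⟨v, hv⟩ := by
    unfold ev; rw [dif_pos hv]
  rw [h1]
  show x.1 ⟨v, hv⟩ + _ + _ = _
  rw [← ev_root x.1 ⟨v, hv⟩]
  unfold opF
  have h2 : (v = r.1) ↔ ip A r.1 v = 2 :=
    ⟨fun h => by rw [h]; exact r.2, fun h => ((cs hA r.2 hv).2.2.1 h).symm⟩
  have h3 : eps A r.1 (v - r.1) = - eps A r.1 v := by
    rw [eps_sub_right, eps_self hA r.2]; ring
  simp only [h2, h3]
  split_ifs <;> push_cast <;> ring

theorem pair_rm (r : Root A) (t : K) (x : LieMod A K) (u : Fin n → ℤ) :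
    pair A u (rootMap A r t x).2 = opH A r.1 t (ev A x.1) (fun u => pair A u x.2) u := by
  show ∑ i, ∑ j, (u i : K) * (A i j : K) * (x.2 j - t * ev A x.1 (-r.1) * (r.1 j : K)) = _
  unfold opH pair ip
  push_cast
  simp only [mul_sub, Finset.sum_sub_distrib, Finset.mul_sum]
  congr 1
  exact Finset.sum_congr rfl fun i _ => Finset.sum_congr rfl fun j _ => by ring

theorem opF_congr (hA : Good A) {r : Fin n → ℤ} (hr : ip A r r = 2) (t : K)
    {F F' H H' : (Fin n → ℤ) → K}
    (hF : ∀ v, ip A v v = 2 → F v = F' v) (hH : ∀ v, H v = H' v) {v : Fin n → ℤ}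
    (hv : ip A v v = 2) : opF A r t F H v = opF A r t F' H' v := by
  unfold opF
  rw [hF v hv, hF (-r) (root_neg hr), hH r]
  by_cases h : ip A r v = 1
  · rw [if_pos h, if_pos h, hF (v - r) (root_sub hA hr hv h)]
  · rw [if_neg h, if_neg h]

theorem opH_congr {r : Fin n → ℤ} (hr : ip A r r = 2) (t : K)
    {F F' H H' : (Fin n → ℤ) → K}
    (hF : ∀ v, ip A v v = 2 → F v = F' v) (hH : ∀ v, H v = H' v) (v : Fin n → ℤ) :
    opH A r t F H v = opH A r t F' H' v := by
  unfold opH
  rw [hF (-r) (root_neg hr), hH v]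

theorem pair_add (u v : Fin n → ℤ) (h : Fin n → K) :
    pair A (u + v) h = pair A u h + pair A v h := by
  simp only [pair, Pi.add_apply, Int.cast_add, add_mul, Finset.sum_add_distrib]

theorem pair_neg (u : Fin n → ℤ) (h : Fin n → K) : pair A (-u) h = - pair A u h := by
  simp only [pair, Pi.neg_apply, Int.cast_neg, neg_mul, Finset.sum_neg_distrib]

theorem lm_ext {x y : LieMod A K} (h1 : ∀ v, ip A v v = 2 → ev A x.1 v = ev A y.1 v)
    (h2 : x.2 = y.2) : x = y := by
  refine Prod.ext (funext fun v => ?_) h2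
  have := h1 v.1 v.2
  rwa [ev_root, ev_root] at this

theorem sq_cast {k : ℤ} (h : k * k = 1) : (k : K) * (k : K) = 1 := by
  rw [← Int.cast_mul, h, Int.cast_one]

/-- additivity -/
theorem rm_add (hA : Good A) (r : Root A) (s t : K) (x : LieMod A K) :
    rootMap A r s (rootMap A r t x) = rootMap A r (s + t) x := by
  have hr := r.2
  refine lm_ext (fun v hv => ?_) (funext fun i => ?_)
  · rw [ev_rm hA r s _ hv, ev_rm hA r (s + t) x hv,
      opF_congr hA hr s (fun w hw => ev_rm hA r t x hw) (fun w => pair_rm r t x w) hv]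
    set F := ev A x.1
    set H := fun u => pair A u x.2
    have c := cs hA hr hv
    simp only [opF, opH, ip_sub_right, ip_neg_right, hr]
    by_cases h1 : ip A r.1 v = 1
    · rw [h1]; norm_num; ring
    · by_cases h2 : ip A r.1 v = 2
      · rw [h2]; norm_num; ring
      · simp only [h1, h2, if_false]; norm_num
  · show x.2 i - t * ev A x.1 (-r.1) * (r.1 i : K) -
        s * ev A (rootMap A r t x).1 (-r.1) * (r.1 i : K) =
      x.2 i - (s + t) * ev A x.1 (-r.1) * (r.1 i : K)
    rw [ev_rm hA r t x (root_neg hr)]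
    simp only [opF, ip_neg_right, hr]
    norm_num
    ring

theorem rm_zero (r : Root A) (x : LieMod A K) : rootMap A r 0 x = x := by
  refine Prod.ext (funext fun v => ?_) (funext fun i => ?_)
  · show x.1 v + _ + _ = x.1 v
    split_ifs <;> simp
  · show x.2 i - 0 * _ * _ = x.2 i
    simp

/-- commutation of orthogonal root elements, function level -/
theorem opF_comm0 (hA : Good A) {r s v : Fin n → ℤ} (hr : ip A r r = 2) (hs : ip A s s = 2)
    (hv : ip A v v = 2) (h : ip A r s = 0) (a b : K) (F H : (Fin n → ℤ) → K) :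
    opF A r a (opF A s b F H) (opH A s b F H) v = opF A s b (opF A r a F H) (opH A r a F H) v := by
  have hsr : ip A s r = 0 := by rw [ip_comm hA s r, h]
  have c1 := cs hA hr hv
  have c2 := cs hA hs hv
  have e1 : eps A s r = eps A r s := by rw [eps_comm hA r s, h]; simp
  have f1 : F (v - s - r) = F (v - r - s) := by congr 1; abel
  have f2 : F (-r - s) = F (-s - r) := by congr 1; abel
  simp only [opF, opH, ip_sub_right, ip_neg_right, hr, hs, hsr, eps_sub_right, eps_neg_right, e1,
    f1, f2, h]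
  by_cases i2 : ip A r v = 2
  · have := c1.2.2.1 i2
    subst this
    rw [hr, hsr]
    norm_num
  · by_cases j2 : ip A s v = 2
    · have := c2.2.2.1 j2
      subst this
      rw [hs, h]
      norm_num
    · by_cases i1 : ip A r v = 1 <;> by_cases j1 : ip A s v = 1 <;> simp [i1, j1, i2, j2] <;> ring

theorem opF_comm1 (hA : Good A) {r s v : Fin n → ℤ} (hr : ip A r r = 2) (hs : ip A s s = 2)
    (hv : ip A v v = 2) (h : ip A r s = 1) (a b : K) (F H : (Fin n → ℤ) → K) :
    opF A r a (opF A s b F H) (opH A s b F H) v = opF A s b (opF A r a F H) (opH A r a F H) v := by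
  have hsr : ip A s r = 1 := by rw [ip_comm hA s r, h]
  have c1 := cs hA hr hv
  have c2 := cs hA hs hv
  have e1 : eps A s r = - eps A r s := by rw [eps_comm hA r s, h]; simp
  have hE : (eps A r s : K) * (eps A r s : K) = 1 := sq_cast (eps_sq r s)
  have er := eps_self hA hr
  have es := eps_self hA hs
  have f1 : F (v - s - r) = F (v - r - s) := by congr 1; abel
  have f2 : F (-r - s) = F (-s - r) := by congr 1; abel
  simp only [opF, opH, ip_sub_right, ip_neg_right, hr, hs, hsr, eps_sub_right, eps_neg_right, e1,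
    f1, f2, h]
  by_cases i2 : ip A r v = 2
  · have := c1.2.2.1 i2
    subst this
    rw [hr, hsr]
    norm_num [er, e1]
    linear_combination (-(a * b * F (-s))) * hE
  · by_cases j2 : ip A s v = 2
    · have := c2.2.2.1 j2
      subst this
      rw [hs, h]
      norm_num [es]
      linear_combination (a * b * F (-r)) * hE
    · by_cases i1 : ip A r v = 1 <;> by_cases j1 : ip A s v = 1 <;>
        simp [i1, j1, i2, j2, show ¬ ip A s v - 1 = 1 by omega, show ¬ ip A s v - 1 = 2 by omega,
          show ¬ ip A r v - 1 = 1 by omega, show ¬ ip A r v - 1 = 2 by omega]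
      ring


theorem opF_v0 {r v : Fin n → ℤ} (t : K) (F H : (Fin n → ℤ) → K) (h1 : ip A r v ≠ 1)
    (h2 : ip A r v ≠ 2) : opF A r t F H v = F v := by
  unfold opF; rw [if_neg h1, if_neg h2]; ring

theorem opF_v1 {r v : Fin n → ℤ} (t : K) (F H : (Fin n → ℤ) → K) (h1 : ip A r v = 1) :
    opF A r t F H v = F v - t * (eps A r v : K) * F (v - r) := by
  unfold opF; rw [if_pos h1, if_neg (by omega)]; ring

theorem opF_v2 {r v : Fin n → ℤ} (t : K) (F H : (Fin n → ℤ) → K) (h1 : ip A r v = 2) :
    opF A r t F H v = F v + (t ^ 2 * F (-r) - t * H r) := by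
  unfold opF; rw [if_neg (by omega), if_pos h1]; ring

theorem opF_com (hA : Good A) {r s v : Fin n → ℤ} (hr : ip A r r = 2) (hs : ip A s s = 2)
    (hv : ip A v v = 2) (h : ip A r s = -1) (a b : K) (F H : (Fin n → ℤ) → K)
    (hH : ∀ u v, H (u + v) = H u + H v) :
    opF A r a (opF A s b F H) (opH A s b F H) v =
      opF A (r + s) (eps A r s * a * b) (opF A s b (opF A r a F H) (opH A r a F H))
        (opH A s b (opF A r a F H) (opH A r a F H)) v := by
  have hsr : ip A s r = -1 := by rw [ip_comm hA s r, h]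
  have c1 := cs hA hr hv
  have c2 := cs hA hs hv
  have hq := root_add hA hr hs h
  have c3 := cs hA hq hv
  have e1 : eps A s r = - eps A r s := by rw [eps_comm hA r s, h]; simp [sg]
  have hE : (eps A r s : K) * (eps A r s : K) = 1 := sq_cast (eps_sq r s)
  have er := eps_self hA hr
  have es := eps_self hA hs
  have hqv : ip A (r + s) v = ip A r v + ip A s v := ip_add_left _ _ _
  rw [ip_add_left] at c3
  obtain ⟨i, hi⟩ : ∃ i, ip A r v = i := ⟨_, rfl⟩
  obtain ⟨j, hj⟩ : ∃ j, ip A s v = j := ⟨_, rfl⟩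
  have hcase : (i = 2 ∧ j = -1) ∨ (i = -2 ∧ j = 1) ∨ (i = -1 ∧ j = 2) ∨ (i = 1 ∧ j = -2) ∨
      (i = 1 ∧ j = 1) ∨ (i = -1 ∧ j = -1) ∨ (i = 0 ∧ j = 0) ∨ (i = 1 ∧ j = 0) ∨
      (i = -1 ∧ j = 0) ∨ (i = 0 ∧ j = 1) ∨ (i = 0 ∧ j = -1) ∨ (i = 1 ∧ j = -1) ∨
      (i = -1 ∧ j = 1) := by
    rw [hi, hj] at c3
    rw [hi] at c1
    rw [hj] at c2
    by_cases i2 : i = 2
    · have := c1.2.2.1 i2
      rw [← this, hsr] at hj
      exact Or.inl ⟨i2, hj.symm⟩
    by_cases i2' : i = -2
    · have := c1.2.2.2 i2'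
      have : v = -r := by rw [this, neg_neg]
      rw [this, ip_neg_right, hsr] at hj
      exact Or.inr (Or.inl ⟨i2', by rw [← hj]; norm_num⟩)
    by_cases j2 : j = 2
    · have := c2.2.2.1 j2
      rw [← this, h] at hi
      exact Or.inr (Or.inr (Or.inl ⟨hi.symm, j2⟩))
    by_cases j2' : j = -2
    · have := c2.2.2.2 j2'
      have : v = -s := by rw [this, neg_neg]
      rw [this, ip_neg_right, h] at hi
      exact Or.inr (Or.inr (Or.inr (Or.inl ⟨by rw [← hi]; norm_num, j2'⟩)))
    have hi3 : i = -1 ∨ i = 0 ∨ i = 1 := by omega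
    have hj3 : j = -1 ∨ j = 0 ∨ j = 1 := by omega
    clear c1 c2 c3 hi hj i2 i2' j2 j2'
    rcases hi3 with h | h | h <;> rcases hj3 with h' | h' | h' <;> subst h h' <;> simp
  rw [← hi, ← hj] at hcase
  clear hi hj
  have f0 : ∀ x y : Fin n → ℤ, x = y → F x = F y := fun x y h => by rw [h]
  have g1 : F (-(r + s)) = F (-r - s) := f0 _ _ (by abel)
  have g2 : F (-s - r) = F (-r - s) := f0 _ _ (by abel)
  -- the values at the special points
  have G1r : opF A s b F H (-r) = F (-r) + b * (eps A r s : K) * F (-r - s) := by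
    rw [opF_v1 _ _ _ (by rw [ip_neg_right, hsr]; norm_num), eps_neg_right, e1]; push_cast; ring
  have K1r : opH A s b F H r = H r + b * F (-s) := by unfold opH; rw [h]; push_cast; ring
  have G2s : opF A r a F H (-s) = F (-s) - a * (eps A r s : K) * F (-r - s) := by
    rw [opF_v1 _ _ _ (by rw [ip_neg_right, h]; norm_num), eps_neg_right, g2]
  have K2s : opH A r a F H s = H s + a * F (-r) := by unfold opH; rw [hsr]; push_cast; ring
  have K2r : opH A r a F H r = H r - 2 * a * F (-r) := by unfold opH; rw [hr]; push_cast; ring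
  have G2q : opF A r a F H (-(r + s)) = F (-r - s) := by
    rw [opF_v0 _ _ _ (by rw [ip_neg_right, ip_add_right, hr, h]; norm_num)
      (by rw [ip_neg_right, ip_add_right, hr, h]; norm_num), g1]
  have G3q : opF A s b (opF A r a F H) (opH A r a F H) (-(r + s)) = F (-r - s) := by
    rw [opF_v0 _ _ _ (by rw [ip_neg_right, ip_add_right, hs, hsr]; norm_num)
      (by rw [ip_neg_right, ip_add_right, hs, hsr]; norm_num), G2q]
  have K3q : opH A s b (opF A r a F H) (opH A r a F H) (r + s) =
      H r + H s - a * F (-r) - b * (F (-s) - a * (eps A r s : K) * F (-r - s)) := by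
    have e3 : opH A r a F H (r + s) = H r + H s - a * F (-r) := by
      unfold opH; rw [ip_add_left, hr, hsr, hH]; push_cast; ring
    have e4 : ip A (r + s) s = 1 := by rw [ip_add_left, hs, h]; norm_num
    show opH A r a F H (r + s) - b * opF A r a F H (-s) * (ip A (r + s) s : K) = _
    rw [e3, e4, G2s]; push_cast; ring
  have p1 : ip A s (v - r) = ip A s v + 1 := by rw [ip_sub_right, hsr]; ring
  have p2 : ip A r (v - s) = ip A r v + 1 := by rw [ip_sub_right, h]; ring
  have p3 : ip A s (v - (r + s)) = ip A s v - 1 := by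
    rw [ip_sub_right, ip_add_right, hs, hsr]; ring
  have p4 : ip A r (v - (r + s)) = ip A r v - 1 := by
    rw [ip_sub_right, ip_add_right, hr, h]; ring
  have q0 : v - r - s = v - (r + s) := by abel
  have q0' : v - s - r = v - (r + s) := by abel
  rcases hcase with ⟨h1, h2⟩ | ⟨h1, h2⟩ | ⟨h1, h2⟩ | ⟨h1, h2⟩ | ⟨h1, h2⟩ | ⟨h1, h2⟩ | ⟨h1, h2⟩ |
    ⟨h1, h2⟩ | ⟨h1, h2⟩ | ⟨h1, h2⟩ | ⟨h1, h2⟩ | ⟨h1, h2⟩ | ⟨h1, h2⟩ <;> rw [h1, h2] at hqv
  · -- v = r
    have hvr := (c1.2.2.1 h1).symm
    have q1 : v - (r + s) = -s := by rw [hvr]; abel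
    rw [opF_v2 _ _ _ h1, opF_v0 (r := s) _ _ _ (by omega) (by omega), G1r, K1r,
      opF_v1 (r := r + s) _ _ _ (by omega), q1, opF_v0 (r := s) (v := v) _ _ _ (by omega) (by omega),
      opF_v0 (r := s) (v := -s) _ _ _ (by rw [ip_neg_right, hs]; norm_num)
      (by rw [ip_neg_right, hs]; norm_num), G2s, opF_v2 _ _ _ h1, eps_add_left, hvr, er, e1]
    push_cast
    linear_combination (a * b * F (-s) - a ^ 2 * b * eps A r s * F (-r - s)) * hE
  · -- v = -r
    rw [opF_v0 (r := r) (v := v) _ _ _ (by omega) (by omega), opF_v1 (r := s) _ _ _ h2,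
      opF_v0 (r := r + s) _ _ _ (by omega) (by omega), opF_v1 (r := s) _ _ _ h2,
      opF_v0 (r := r) (v := v) _ _ _ (by omega) (by omega),
      opF_v0 (r := r) (v := v - s) _ _ _ (by omega) (by omega)]
  · -- v = s
    have hvs := (c2.2.2.1 h2).symm
    have q1 : v - (r + s) = -r := by rw [hvs]; abel
    rw [opF_v0 (r := r) (v := v) _ _ _ (by omega) (by omega), opF_v2 (r := s) _ _ _ h2,
      opF_v1 (r := r + s) _ _ _ (by omega), opF_v2 (r := s) _ _ _ h2,
      opF_v0 (r := r) (v := v) _ _ _ (by omega) (by omega), q1, G2s, K2s,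
      opF_v1 (r := s) (v := -r) _ _ _ (by rw [ip_neg_right, hsr]; norm_num),
      opF_v0 (r := r) (v := -r) _ _ _ (by rw [ip_neg_right, hr]; norm_num)
      (by rw [ip_neg_right, hr]; norm_num),
      opF_v0 (r := r) (v := -r - s) _ _ _ (by rw [ip_sub_right, ip_neg_right, hr, h]; norm_num)
      (by rw [ip_sub_right, ip_neg_right, hr, h]; norm_num), eps_neg_right, eps_add_left, hvs, es, e1]
    push_cast
    linear_combination (-(a * b * F (-r) + a * b ^ 2 * eps A r s * F (-r - s))) * hE
  · -- v = -s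
    rw [opF_v1 (r := r) _ _ _ h1, opF_v0 (r := s) (v := v) _ _ _ (by omega) (by omega),
      opF_v0 (r := s) (v := v - r) _ _ _ (by omega) (by omega),
      opF_v0 (r := r + s) _ _ _ (by omega) (by omega),
      opF_v0 (r := s) (v := v) _ _ _ (by omega) (by omega), opF_v1 (r := r) _ _ _ h1]
  · -- v = r + s
    have hvq := (c3.2.2.1 (by omega)).symm
    have q1 : v - r = s := by rw [hvq]; abel
    have q2 : v - s = r := by rw [hvq]; abel
    rw [opF_v1 (r := r) _ _ _ h1, opF_v1 (r := s) (v := v) _ _ _ h2, q1, q2,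
      opF_v2 (r := s) (v := s) _ _ _ hs, opF_v2 (r := r + s) _ _ _ (by omega),
      opF_v1 (r := s) (v := v) _ _ _ h2, q2, opF_v1 (r := r) (v := v) _ _ _ h1, q1,
      opF_v2 (r := r) (v := r) _ _ _ hr, G3q, K3q, hvq, eps_add_right, eps_add_right, er, es, e1]
    push_cast
    ring
  · -- v = -(r + s)
    rw [opF_v0 (r := r) (v := v) _ _ _ (by omega) (by omega),
      opF_v0 (r := s) (v := v) _ _ _ (by omega) (by omega),
      opF_v0 (r := r + s) _ _ _ (by omega) (by omega),
      opF_v0 (r := s) (v := v) _ _ _ (by omega) (by omega),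
      opF_v0 (r := r) (v := v) _ _ _ (by omega) (by omega)]
  · rw [opF_v0 (r := r) (v := v) _ _ _ (by omega) (by omega),
      opF_v0 (r := s) (v := v) _ _ _ (by omega) (by omega),
      opF_v0 (r := r + s) _ _ _ (by omega) (by omega),
      opF_v0 (r := s) (v := v) _ _ _ (by omega) (by omega),
      opF_v0 (r := r) (v := v) _ _ _ (by omega) (by omega)]
  · -- (1, 0)
    rw [opF_v1 (r := r) _ _ _ h1, opF_v0 (r := s) (v := v) _ _ _ (by omega) (by omega),
      opF_v1 (r := s) (v := v - r) _ _ _ (by omega), opF_v1 (r := r + s) _ _ _ (by omega),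
      opF_v0 (r := s) (v := v) _ _ _ (by omega) (by omega), opF_v1 (r := r) _ _ _ h1,
      opF_v0 (r := s) (v := v - (r + s)) _ _ _ (by omega) (by omega),
      opF_v0 (r := r) (v := v - (r + s)) _ _ _ (by omega) (by omega), q0, eps_sub_right,
      eps_add_left, e1]
    push_cast
    ring
  · rw [opF_v0 (r := r) (v := v) _ _ _ (by omega) (by omega),
      opF_v0 (r := s) (v := v) _ _ _ (by omega) (by omega),
      opF_v0 (r := r + s) _ _ _ (by omega) (by omega),
      opF_v0 (r := s) (v := v) _ _ _ (by omega) (by omega),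
      opF_v0 (r := r) (v := v) _ _ _ (by omega) (by omega)]
  · -- (0, 1)
    rw [opF_v0 (r := r) (v := v) _ _ _ (by omega) (by omega), opF_v1 (r := s) _ _ _ h2,
      opF_v1 (r := r + s) _ _ _ (by omega), opF_v1 (r := s) _ _ _ h2,
      opF_v0 (r := r) (v := v) _ _ _ (by omega) (by omega),
      opF_v1 (r := r) (v := v - s) _ _ _ (by omega), q0',
      opF_v0 (r := s) (v := v - (r + s)) _ _ _ (by omega) (by omega),
      opF_v0 (r := r) (v := v - (r + s)) _ _ _ (by omega) (by omega), eps_sub_right,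
      eps_add_left]
    push_cast
    ring
  · rw [opF_v0 (r := r) (v := v) _ _ _ (by omega) (by omega),
      opF_v0 (r := s) (v := v) _ _ _ (by omega) (by omega),
      opF_v0 (r := r + s) _ _ _ (by omega) (by omega),
      opF_v0 (r := s) (v := v) _ _ _ (by omega) (by omega),
      opF_v0 (r := r) (v := v) _ _ _ (by omega) (by omega)]
  · -- (1, -1)
    rw [opF_v1 (r := r) _ _ _ h1, opF_v0 (r := s) (v := v) _ _ _ (by omega) (by omega),
      opF_v0 (r := s) (v := v - r) _ _ _ (by omega) (by omega),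
      opF_v0 (r := r + s) _ _ _ (by omega) (by omega),
      opF_v0 (r := s) (v := v) _ _ _ (by omega) (by omega), opF_v1 (r := r) _ _ _ h1]
  · -- (-1, 1)
    rw [opF_v0 (r := r) (v := v) _ _ _ (by omega) (by omega), opF_v1 (r := s) _ _ _ h2,
      opF_v0 (r := r + s) _ _ _ (by omega) (by omega), opF_v1 (r := s) _ _ _ h2,
      opF_v0 (r := r) (v := v) _ _ _ (by omega) (by omega),
      opF_v0 (r := r) (v := v - s) _ _ _ (by omega) (by omega)]


end H41Chev
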