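import Mathlib
import Pool.Agent.H.MP_0335f8_al.helper41.Rel

/-!
# The root elements and the Weyl elements in the general linear group of the Lie algebra
-/

namespace H41Chev

variable {n : ℕ} {A : Matrix (Fin n) (Fin n) ℤ} {K : Type*} [Field K]

theorem rm_snd (r : Root A) (t : K) (x : LieMod A K) (i : Fin n) :
    (rootMap A r t x).2 i = x.2 i - t * ev A x.1 (-r.1) * (r.1 i : K) := rfl

theorem rm_comm (hA : Good A) (r s : Root A) (h : ip A r.1 s.1 = 0 ∨ ip A r.1 s.1 = 1) (a b : K)
    (x : LieMod A K) : rootMap A r a (rootMap A s b x) = rootMap A s b (rootMap A r a x) := by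
  have hr := r.2
  have hs := s.2
  have hsr := ip_comm hA s.1 r.1
  refine lm_ext (fun v hv => ?_) (funext fun i => ?_)
  · rw [ev_rm hA r a _ hv, ev_rm hA s b _ hv,
      opF_congr hA hr a (fun w hw => ev_rm hA s b x hw) (fun w => pair_rm s b x w) hv,
      opF_congr hA hs b (fun w hw => ev_rm hA r a x hw) (fun w => pair_rm r a x w) hv]
    rcases h with h | h
    · exact opF_comm0 hA hr hs hv h a b _ _
    · exact opF_comm1 hA hr hs hv h a b _ _
  · rw [rm_snd, rm_snd, rm_snd, rm_snd, ev_rm hA s b x (root_neg hr), ev_rm hA r a x (root_neg hs),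
      opF_v0 _ _ _ (by rw [ip_neg_right, hsr]; omega) (by rw [ip_neg_right, hsr]; omega),
      opF_v0 _ _ _ (by rw [ip_neg_right]; omega) (by rw [ip_neg_right]; omega)]
    ring

theorem rm_com (hA : Good A) (r s q : Root A) (h : ip A r.1 s.1 = -1) (hq : q.1 = r.1 + s.1)
    (a b : K) (x : LieMod A K) : rootMap A r a (rootMap A s b x) =
      rootMap A q (eps A r.1 s.1 * a * b) (rootMap A s b (rootMap A r a x)) := by
  have hr := r.2
  have hs := s.2
  have hsr : ip A s.1 r.1 = -1 := by rw [ip_comm hA s.1 r.1, h]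
  have e1 : eps A s.1 r.1 = - eps A r.1 s.1 := by rw [eps_comm hA r.1 s.1, h]; simp [sg]
  have hE : (eps A r.1 s.1 : K) * (eps A r.1 s.1 : K) = 1 := sq_cast (eps_sq r.1 s.1)
  refine lm_ext (fun v hv => ?_) (funext fun i => ?_)
  · rw [ev_rm hA r a _ hv, ev_rm hA q _ _ hv,
      opF_congr hA hr a (fun w hw => ev_rm hA s b x hw) (fun w => pair_rm s b x w) hv,
      opF_congr hA q.2 _ (fun w hw => ev_rm hA s b _ hw) (fun w => pair_rm s b _ w) hv,
      opF_congr hA q.2 _
        (fun w hw => opF_congr hA hs b (fun w hw => ev_rm hA r a x hw)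
          (fun w => pair_rm r a x w) hw)
        (fun w => opH_congr hs b (fun w hw => ev_rm hA r a x hw) (fun w => pair_rm r a x w) w) hv,
      hq]
    exact opF_com hA hr hs hv h a b _ _ (fun u v => pair_add u v _)
  · have hq' := q.2
    rw [hq] at hq'
    rw [rm_snd, rm_snd, rm_snd, rm_snd, rm_snd, hq, ev_rm hA s b x (root_neg hr),
      ev_rm hA r a x (root_neg hs), ev_rm hA s b _ (root_neg hq'),
      opF_v0 (v := -(r.1 + s.1)) _ _ _ (by rw [ip_neg_right, ip_add_right, hs, hsr]; norm_num)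
        (by rw [ip_neg_right, ip_add_right, hs, hsr]; norm_num),
      ev_rm hA r a x (root_neg hq'),
      opF_v0 (v := -(r.1 + s.1)) _ _ _ (by rw [ip_neg_right, ip_add_right, hr, h]; norm_num)
        (by rw [ip_neg_right, ip_add_right, hr, h]; norm_num),
      opF_v1 (v := -r.1) _ _ _ (by rw [ip_neg_right, hsr]; norm_num),
      opF_v1 (v := -s.1) _ _ _ (by rw [ip_neg_right, h]; norm_num),
      eps_neg_right, eps_neg_right, e1,
      show -r.1 - s.1 = -(r.1 + s.1) by abel, show -s.1 - r.1 = -(r.1 + s.1) by abel, Pi.add_apply]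
    push_cast
    ring

/-- the root element as an element of the general linear group (`1` if `v` is not a root) -/
def X (hA : Good A) (v : Fin n → ℤ) (t : K) : GLM A K :=
  if h : ip A v v = 2 then
    { rootMap A ⟨v, h⟩ t with
      invFun := rootMap A ⟨v, h⟩ (-t)
      left_inv := fun x => by
        show rootMap A ⟨v, h⟩ (-t) (rootMap A ⟨v, h⟩ t x) = x
        rw [rm_add hA, neg_add_cancel, rm_zero]
      right_inv := fun x => by
        show rootMap A ⟨v, h⟩ t (rootMap A ⟨v, h⟩ (-t) x) = x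
        rw [rm_add hA, add_neg_cancel, rm_zero] }
  else 1

theorem X_ap (hA : Good A) {v : Fin n → ℤ} (h : ip A v v = 2) (t : K) (x : LieMod A K) :
    X hA v t x = rootMap A ⟨v, h⟩ t x := by
  unfold X; rw [dif_pos h]; rfl

theorem X_not (hA : Good A) {v : Fin n → ℤ} (h : ip A v v ≠ 2) (t : K) :
    (X hA v t : GLM A K) = 1 := by
  unfold X; rw [dif_neg h]

theorem gl_ext {g g' : GLM A K} (h : ∀ x, g x = g' x) : g = g' := LinearEquiv.ext h

theorem X_add (hA : Good A) (v : Fin n → ℤ) (s t : K) :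
    (X hA v s * X hA v t : GLM A K) = X hA v (s + t) := by
  by_cases h : ip A v v = 2
  · refine gl_ext fun x => ?_
    show X hA v s (X hA v t x) = _
    rw [X_ap hA h, X_ap hA h, X_ap hA h, rm_add hA]
  · rw [X_not hA h, X_not hA h, X_not hA h, one_mul]

theorem X_zero (hA : Good A) (v : Fin n → ℤ) : (X hA v 0 : GLM A K) = 1 := by
  by_cases h : ip A v v = 2
  · refine gl_ext fun x => ?_
    rw [X_ap hA h, rm_zero]; rfl
  · rw [X_not hA h]

theorem X_inv (hA : Good A) (v : Fin n → ℤ) (t : K) :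
    (X hA v t : GLM A K)⁻¹ = X hA v (-t) := by
  rw [inv_eq_iff_mul_eq_one, X_add, add_neg_cancel, X_zero]

theorem X_comm (hA : Good A) {u v : Fin n → ℤ} (h : 0 ≤ ip A u v) (a b : K) :
    (X hA u a * X hA v b : GLM A K) = X hA v b * X hA u a := by
  by_cases hu : ip A u u = 2
  · by_cases hv : ip A v v = 2
    · have c := cs hA hu hv
      by_cases h2 : ip A u v = 2
      · rw [← c.2.2.1 h2, X_add, X_add, add_comm]
      · refine gl_ext fun x => ?_
        show X hA u a (X hA v b x) = X hA v b (X hA u a x)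
        rw [X_ap hA hu, X_ap hA hv, X_ap hA hv, X_ap hA hu]
        exact rm_comm hA ⟨u, hu⟩ ⟨v, hv⟩ (by show ip A u v = 0 ∨ ip A u v = 1; omega) a b x
    · rw [X_not hA hv, one_mul, mul_one]
  · rw [X_not hA hu, one_mul, mul_one]

theorem X_com (hA : Good A) {u v : Fin n → ℤ} (hu : ip A u u = 2) (hv : ip A v v = 2)
    (h : ip A u v = -1) (a b : K) :
    (X hA u a * X hA v b : GLM A K) = X hA (u + v) (eps A u v * a * b) * X hA v b * X hA u a := by
  refine gl_ext fun x => ?_
  show X hA u a (X hA v b x) = X hA (u + v) (eps A u v * a * b) (X hA v b (X hA u a x))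
  rw [X_ap hA hu, X_ap hA hv, X_ap hA hu, X_ap hA hv, X_ap hA (root_add hA hu hv h)]
  exact rm_com hA ⟨u, hu⟩ ⟨v, hv⟩ ⟨u + v, root_add hA hu hv h⟩ h rfl a b x

theorem X_mem (hA : Good A) (v : Fin n → ℤ) (t : K) : X hA v t ∈ ChevalleyGroup A K := by
  by_cases h : ip A v v = 2
  · exact Subgroup.subset_closure ⟨⟨v, h⟩, t, fun x => X_ap hA h t x⟩
  · rw [X_not hA h]; exact Subgroup.one_mem _

theorem closure_eq (hA : Good A) :
    ChevalleyGroup A K = Subgroup.closure {g | ∃ (v : Fin n → ℤ) (t : K), g = X hA v t} := by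
  apply le_antisymm
  · refine (Subgroup.closure_le _).2 ?_
    rintro g ⟨r, t, hg⟩
    refine Subgroup.subset_closure ⟨r.1, t, ?_⟩
    refine gl_ext fun x => ?_
    rw [X_ap hA r.2]
    exact hg x
  · refine (Subgroup.closure_le _).2 ?_
    rintro g ⟨v, t, rfl⟩
    exact X_mem hA v t

end H41Chev
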