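import Mathlib
import Pool.Agent.H.MP_0335f8_al.helper41.Grp

/-!
# The Weyl elements
-/

namespace H41Chev

variable {n : ℕ} {A : Matrix (Fin n) (Fin n) ℤ} {K : Type*} [Field K]

/-- the reflection in `r` -/
def rf (A : Matrix (Fin n) (Fin n) ℤ) (r v : Fin n → ℤ) : Fin n → ℤ := v - ip A r v • r

/-- the sign of the Weyl element of `r` at `v` -/
def eta (A : Matrix (Fin n) (Fin n) ℤ) (r v : Fin n → ℤ) : ℤ := sg (ip A r v * hf A r v)

theorem rf_add (r u v : Fin n → ℤ) : rf A r (u + v) = rf A r u + rf A r v := by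
  unfold rf; rw [ip_add_right, add_smul]; abel

theorem rf_neg (r v : Fin n → ℤ) : rf A r (-v) = - rf A r v := by
  unfold rf; rw [ip_neg_right, neg_smul]; abel

theorem rf_sub (r u v : Fin n → ℤ) : rf A r (u - v) = rf A r u - rf A r v := by
  rw [sub_eq_add_neg, rf_add, rf_neg, sub_eq_add_neg]

theorem ip_rf (hA : Good A) {r : Fin n → ℤ} (hr : ip A r r = 2) (u v : Fin n → ℤ) :
    ip A (rf A r u) (rf A r v) = ip A u v := by
  unfold rf
  rw [ip_sub_left, ip_sub_right, ip_sub_right, ip_smul_left, ip_smul_left, ip_smul_right,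
    ip_smul_right, hr, ip_comm hA u r]
  ring

theorem rf_rf {r : Fin n → ℤ} (hr : ip A r r = 2) (v : Fin n → ℤ) : rf A r (rf A r v) = v := by
  unfold rf
  rw [ip_sub_right, ip_smul_right, hr, show ip A r v - ip A r v * 2 = - ip A r v by ring, neg_smul]
  abel

theorem root_rf (hA : Good A) {r v : Fin n → ℤ} (hr : ip A r r = 2) (hv : ip A v v = 2) :
    ip A (rf A r v) (rf A r v) = 2 := by rw [ip_rf hA hr, hv]

theorem eta_neg (r v : Fin n → ℤ) : eta A r (-v) = eta A r v := by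
  unfold eta; rw [ip_neg_right, hf_neg_right, neg_mul_neg]

theorem eta_sq (r v : Fin n → ℤ) : eta A r v * eta A r v = 1 := sg_mul_self _

theorem sg_parity {a b : ℤ} (h : (a - b) % 2 = 0) : sg a = sg b := by
  have := sg_sub a b
  rw [sg_even h] at this
  have h2 := sg_mul_self b
  have h3 : sg a * (sg b * sg b) = sg b := by rw [← mul_assoc, ← this, one_mul]
  rwa [h2, mul_one] at h3

theorem eta_add (hA : Good A) {r : Fin n → ℤ} (hr : ip A r r = 2) (u v : Fin n → ℤ) :
    eta A r (u + v) = eta A r u * eta A r v * eps A u v * eps A (rf A r u) (rf A r v) := by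
  unfold eta eps rf
  rw [← sg_add, ← sg_add, ← sg_add]
  apply sg_parity
  have h1 := ip_eq hA r r
  have h2 : hf A r r = 1 := by omega
  have h3 := ip_eq hA r u
  rw [ip_add_right, hf_add_right, hf_sub_left, hf_sub_right, hf_sub_right, hf_smul_left,
    hf_smul_left, hf_smul_right, hf_smul_right, h2]
  have h4 : hf A u r = ip A r u - hf A r u := by omega
  rw [h4]
  have h5 : (ip A r u + ip A r v) * (hf A r u + hf A r v) -
      (ip A r u * hf A r u + ip A r v * hf A r v + hf A u v +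
        (hf A u v - ip A r v * (ip A r u - hf A r u) -
          (ip A r u * hf A r v - ip A r u * (ip A r v * 1)))) = 2 * (ip A r u * hf A r v - hf A u v) := by
    ring
  rw [h5]
  omega

/-- the Weyl element of the root `r` -/
def nn (hA : Good A) (r : Fin n → ℤ) : GLM A K := X hA r 1 * X hA (-r) 1 * X hA r 1

theorem nn_mem (hA : Good A) (r : Fin n → ℤ) : (nn hA r : GLM A K) ∈ ChevalleyGroup A K :=
  Subgroup.mul_mem _ (Subgroup.mul_mem _ (X_mem hA _ _) (X_mem hA _ _)) (X_mem hA _ _)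

theorem opF_nn (hA : Good A) {r v : Fin n → ℤ} (hr : ip A r r = 2) (hv : ip A v v = 2)
    (F H : (Fin n → ℤ) → K) (hH : H (-r) = - H r) :
    opF A r 1 (opF A (-r) 1 (opF A r 1 F H) (opH A r 1 F H))
        (opH A (-r) 1 (opF A r 1 F H) (opH A r 1 F H)) v =
      (eta A r (rf A r v) : K) * F (rf A r v) := by
  have c := cs hA hr hv
  have hrn : ∀ w, ip A (-r) w = - ip A r w := fun w => ip_neg_left _ _
  have er := eps_self hA hr
  have hE : (eps A r v : K) * (eps A r v : K) = 1 := sq_cast (eps_sq r v)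
  have hrr : hf A r r = 1 := by have := ip_eq hA r r; omega
  have p1 : ip A r (v - r) = ip A r v - 2 := by rw [ip_sub_right, hr]
  have p2 : ip A r (v + r) = ip A r v + 2 := by rw [ip_add_right, hr]
  have hrm : ip A r (-r) = -2 := by rw [ip_neg_right, hr]
  have et : eta A r (rf A r v) = sg (ip A r v * (hf A r v - ip A r v)) := by
    unfold eta rf
    rw [ip_sub_right, ip_smul_right, hr, hf_sub_right, hf_smul_right, hrr]
    apply sg_parity
    ring_nf
    omega
  -- values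
  have G1m : opF A r 1 F H (-r) = F (-r) := opF_v0 _ _ _ (by omega) (by omega)
  have G1r : opF A r 1 F H r = F r + (F (-r) - H r) := by rw [opF_v2 _ _ _ hr]; ring
  have K1m : opH A r 1 F H (-r) = - H r + 2 * F (-r) := by
    unfold opH; rw [hrn, hr, hH]; push_cast; ring
  have G2m : opF A (-r) 1 (opF A r 1 F H) (opH A r 1 F H) (-r) = F r := by
    rw [opF_v2 _ _ _ (by rw [hrn, hrm]; norm_num), G1m, neg_neg, G1r, K1m]; ring
  have G2r : opF A (-r) 1 (opF A r 1 F H) (opH A r 1 F H) r = F r + (F (-r) - H r) := by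
    rw [opF_v0 _ _ _ (by rw [hrn, hr]; norm_num) (by rw [hrn, hr]; norm_num), G1r]
  have K2r : opH A (-r) 1 (opF A r 1 F H) (opH A r 1 F H) r = 2 * F r - H r := by
    unfold opH
    rw [neg_neg, G1r, hrm, hr]; push_cast; ring
  rcases (show ip A r v = 2 ∨ ip A r v = -2 ∨ ip A r v = 1 ∨ ip A r v = -1 ∨ ip A r v = 0 by
    omega) with h | h | h | h | h
  · have hvr := (c.2.2.1 h).symm
    rw [et, h, opF_v2 _ _ _ h, G2m, K2r, hvr, G2r, hrr]
    have : rf A r r = -r := by unfold rf; rw [hr, two_smul]; abel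
    rw [this, show sg (2 * (1 - 2)) = 1 by decide]
    push_cast
    ring
  · have hvr : v = -r := by rw [c.2.2.2 h, neg_neg]
    rw [et, h, opF_v0 _ _ _ (by omega) (by omega), hvr, G2m, hf_neg_right, hrr]
    have : rf A r (-r) = r := by rw [rf_neg]; unfold rf; rw [hr, two_smul]; abel
    rw [this, show sg (-2 * (-1 - -2)) = 1 by decide]
    push_cast
    ring
  · have hs : rf A r v = v - r := by unfold rf; rw [h, one_smul]
    rw [et, h, opF_v1 _ _ _ h,
      opF_v0 (r := -r) (v := v) _ _ _ (by rw [hrn]; omega) (by rw [hrn]; omega),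
      opF_v1 (r := r) _ _ _ h, opF_v1 (r := -r) (v := v - r) _ _ _ (by rw [hrn]; omega),
      opF_v0 (r := r) (v := v - r) _ _ _ (by omega) (by omega), sub_neg_eq_add, sub_add_cancel,
      opF_v1 (r := r) _ _ _ h, hs, eps_neg_left, eps_sub_right, er]
    have e2 : sg (1 * (hf A r v - 1)) = - eps A r v := by
      rw [one_mul, sg_sub]; unfold eps; simp
    rw [e2]
    push_cast
    linear_combination (-(F v) + eps A r v * F (v - r)) * hE
  · have hs : rf A r v = v + r := by unfold rf; rw [h]; rw [neg_smul, one_smul]; abel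
    rw [et, h, opF_v0 _ _ _ (by omega) (by omega),
      opF_v1 (r := -r) (v := v) _ _ _ (by rw [hrn]; omega),
      opF_v0 (r := r) (v := v) _ _ _ (by omega) (by omega), sub_neg_eq_add,
      opF_v1 (r := r) (v := v + r) _ _ _ (by omega), add_sub_cancel_right, hs, eps_neg_left,
      eps_add_right, er]
    have e2 : sg (-1 * (hf A r v - -1)) = - eps A r v := by
      rw [show (-1 : ℤ) * (hf A r v - -1) = -(hf A r v + 1) by ring, sg_neg, sg_add]
      unfold eps; simp
    rw [e2]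
    push_cast
    linear_combination (-(F v)) * hE
  · have hs : rf A r v = v := by unfold rf; rw [h, zero_smul, sub_zero]
    rw [et, h, opF_v0 _ _ _ (by omega) (by omega),
      opF_v0 (r := -r) (v := v) _ _ _ (by rw [hrn]; omega) (by rw [hrn]; omega),
      opF_v0 _ _ _ (by omega) (by omega), hs]
    simp

theorem nn_fst (hA : Good A) {r v : Fin n → ℤ} (hr : ip A r r = 2) (hv : ip A v v = 2)
    (x : LieMod A K) :
    ev A (nn hA r x).1 v = (eta A r (rf A r v) : K) * ev A x.1 (rf A r v) := by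
  have hr' := root_neg hr
  have h0 : nn hA r x = rootMap A ⟨r, hr⟩ 1 (rootMap A ⟨-r, hr'⟩ 1 (rootMap A ⟨r, hr⟩ 1 x)) := by
    show X hA r 1 (X hA (-r) 1 (X hA r 1 x)) = _
    rw [X_ap hA hr, X_ap hA hr', X_ap hA hr]
  rw [h0, ev_rm hA _ _ _ hv,
    opF_congr hA hr 1 (fun w hw => ev_rm hA ⟨-r, hr'⟩ 1 _ hw) (fun w => pair_rm ⟨-r, hr'⟩ 1 _ w) hv,
    opF_congr hA hr 1
      (fun w hw => opF_congr hA hr' 1 (fun w hw => ev_rm hA ⟨r, hr⟩ 1 x hw)
        (fun w => pair_rm ⟨r, hr⟩ 1 x w) hw)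
      (fun w => opH_congr hr' 1 (fun w hw => ev_rm hA ⟨r, hr⟩ 1 x hw)
        (fun w => pair_rm ⟨r, hr⟩ 1 x w) w) hv]
  exact opF_nn hA hr hv _ _ (pair_neg r _)

theorem nn_snd (hA : Good A) {r : Fin n → ℤ} (hr : ip A r r = 2) (x : LieMod A K) (i : Fin n) :
    (nn hA r x).2 i = x.2 i - pair A r x.2 * (r i : K) := by
  have hr' := root_neg hr
  have h0 : nn hA r x = rootMap A ⟨r, hr⟩ 1 (rootMap A ⟨-r, hr'⟩ 1 (rootMap A ⟨r, hr⟩ 1 x)) := by
    show X hA r 1 (X hA (-r) 1 (X hA r 1 x)) = _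
    rw [X_ap hA hr, X_ap hA hr', X_ap hA hr]
  have hrn : ∀ w, ip A (-r) w = - ip A r w := fun w => ip_neg_left _ _
  have hrm : ip A r (-r) = -2 := by rw [ip_neg_right, hr]
  rw [h0, rm_snd, rm_snd, rm_snd, ev_rm hA ⟨-r, hr'⟩ 1 _ hr']
  show x.2 i - 1 * ev A x.1 (-r) * (r i : K) - 1 * ev A (rootMap A ⟨r, hr⟩ 1 x).1 (- -r) *
    ((-r) i : K) - 1 * opF A (-r) 1 _ _ (-r) * (r i : K) = _
  rw [neg_neg, ev_rm hA ⟨r, hr⟩ 1 x hr, opF_v2 (r := r) _ _ _ hr,
    opF_v2 (r := -r) _ _ _ (by rw [hrn, hrm]; norm_num), neg_neg, ev_rm hA ⟨r, hr⟩ 1 x hr',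
    ev_rm hA ⟨r, hr⟩ 1 x hr, opF_v2 (r := r) (v := r) _ _ _ hr,
    opF_v0 (r := r) (v := -r) _ _ _ (by omega) (by omega), pair_rm ⟨r, hr⟩ 1 x]
  unfold opH
  simp only [hrn, hr, pair_neg, Pi.neg_apply]
  push_cast
  ring

end H41Chev
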