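import Mathlib
import Pool.Agent.H.MP_0335f8_al.helper41.Wey

/-!
# Monomial elements: Weyl elements and torus involutions
-/

namespace H41Chev

variable {n : ℕ} {A : Matrix (Fin n) (Fin n) ℤ} {K : Type*} [Field K]

theorem X_fst (hA : Good A) {r v : Fin n → ℤ} (hr : ip A r r = 2) (hv : ip A v v = 2) (t : K)
    (x : LieMod A K) :
    ev A (X hA r t x).1 v = opF A r t (ev A x.1) (fun u => pair A u x.2) v := by
  rw [X_ap hA hr, ev_rm hA ⟨r, hr⟩ t x hv]

theorem X_snd (hA : Good A) {r : Fin n → ℤ} (hr : ip A r r = 2) (t : K)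
    (x : LieMod A K) (i : Fin n) :
    (X hA r t x).2 i = x.2 i - t * ev A x.1 (-r) * (r i : K) := by
  rw [X_ap hA hr]; rfl

theorem pair_X (hA : Good A) {r : Fin n → ℤ} (hr : ip A r r = 2) (t : K)
    (x : LieMod A K) (u : Fin n → ℤ) :
    pair A u (X hA r t x).2 = pair A u x.2 - t * ev A x.1 (-r) * (ip A u r : K) := by
  rw [X_ap hA hr, pair_rm]; rfl

theorem pair_smul (c : ℤ) (u : Fin n → ℤ) (h : Fin n → K) :
    pair A (c • u) h = (c : K) * pair A u h := by
  unfold pair
  simp only [Pi.smul_apply, smul_eq_mul, Finset.mul_sum]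
  push_cast
  exact Finset.sum_congr rfl fun i _ => Finset.sum_congr rfl fun j _ => by ring

theorem pair_nn (hA : Good A) {r : Fin n → ℤ} (hr : ip A r r = 2)
    (x : LieMod A K) (u : Fin n → ℤ) :
    pair A u (nn hA r x).2 = pair A u x.2 - pair A r x.2 * (ip A u r : K) := by
  have h : ∀ i, (nn hA r x).2 i = x.2 i - pair A r x.2 * (r i : K) := nn_snd hA hr x
  generalize (nn hA r x).2 = y at h
  generalize pair A r x.2 = c at h
  unfold pair ip
  push_cast
  simp only [h, mul_sub, Finset.sum_sub_distrib, Finset.mul_sum]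
  congr 1
  exact Finset.sum_congr rfl fun i _ => Finset.sum_congr rfl fun j _ => by ring

/-- the Weyl elements permute the root elements -/
theorem nn_X (hA : Good A) {r : Fin n → ℤ} (hr : ip A r r = 2) (b : Fin n → ℤ) (t : K) :
    (nn hA r * X hA b t : GLM A K) = X hA (rf A r b) ((eta A r b : K) * t) * nn hA r := by
  by_cases hb : ip A b b = 2
  swap
  · rw [X_not hA hb, X_not hA (by rwa [ip_rf hA hr]), one_mul, mul_one]
  have hrb := root_rf hA hr hb
  refine gl_ext fun x => lm_ext (fun v hv => ?_) (funext fun i => ?_)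
  · show ev A (nn hA r (X hA b t x)).1 v = ev A (X hA (rf A r b) ((eta A r b : K) * t) (nn hA r x)).1 v
    have hd := root_rf hA hr hv
    rw [nn_fst hA hr hv, X_fst hA hb hd, X_fst hA hrb hv]
    have h1 : ip A (rf A r b) v = ip A b (rf A r v) := by
      conv_lhs => rw [← rf_rf hr v]
      exact ip_rf hA hr _ _
    have h2 : eta A r (rf A r v) = eta A r b * eta A r (rf A r v - b) * eps A b (rf A r v) *
        eps A (rf A r b) v * (eps A b b * eps A (rf A r b) (rf A r b)) := by
      have := eta_add hA hr b (rf A r v - b)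
      rw [add_sub_cancel, rf_sub, rf_rf hr, eps_sub_right, eps_sub_right] at this
      rw [this]; ring
    rw [eps_self hA hb, eps_self hA hrb] at h2
    have h3 : (eta A r b : K) * (eta A r b : K) = 1 := sq_cast (eta_sq r b)
    have h4 : (eps A b (rf A r v) : K) * (eps A b (rf A r v) : K) = 1 := sq_cast (eps_sq _ _)
    unfold opF
    rw [h1, nn_fst hA hr hv]
    by_cases c1 : ip A b (rf A r v) = 1
    · rw [if_pos c1, if_pos c1, if_neg (by omega), if_neg (by omega),
        nn_fst hA hr (root_sub hA hrb hv (by rw [h1, c1])), rf_sub, rf_rf hr, h2]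
      push_cast
      linear_combination (-(t * (eta A r b : K) * eta A r (rf A r v - b) * eps A (rf A r b) v *
        ev A x.1 (rf A r v - b))) * h4
    · rw [if_neg c1, if_neg c1]
      by_cases c2 : ip A b (rf A r v) = 2
      · have hbd := (cs hA hb hd).2.2.1 c2
        rw [if_pos c2, if_pos c2, ← hbd, nn_fst hA hr (root_neg hrb), rf_neg, rf_rf hr, eta_neg]
        beta_reduce
        rw [pair_nn hA hr]
        have h5 : pair A (rf A r b) x.2 = pair A b x.2 - (ip A r b : K) * pair A r x.2 := by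
          unfold rf
          rw [sub_eq_add_neg, pair_add, pair_neg, pair_smul]
          ring
        have h6 : ip A (rf A r b) r = - ip A r b := by
          unfold rf
          rw [ip_sub_left, ip_smul_left, hr, ip_comm hA b r]; ring
        rw [h5, h6]
        push_cast
        linear_combination (-(eta A r b : K) * t ^ 2 * ev A x.1 (-b)) * h3
      · rw [if_neg c2, if_neg c2]; ring
  · show (nn hA r (X hA b t x)).2 i = (X hA (rf A r b) ((eta A r b : K) * t) (nn hA r x)).2 i
    have h3 : (eta A r b : K) * (eta A r b : K) = 1 := sq_cast (eta_sq r b)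
    rw [nn_snd hA hr, X_snd hA hb, X_snd hA hrb, nn_snd hA hr, pair_X hA hb,
      nn_fst hA hr (root_neg hrb), rf_neg, rf_rf hr, eta_neg]
    have h6 : ((rf A r b) i : K) = (b i : K) - (ip A r b : K) * (r i : K) := by
      unfold rf; simp
    rw [h6]
    linear_combination (t * ev A x.1 (-b) * ((b i : K) - (ip A r b : K) * (r i : K))) * h3

/-- the torus element of order two attached to a lattice vector -/
def hh (A : Matrix (Fin n) (Fin n) ℤ) (K : Type*) [Field K] (u : Fin n → ℤ) : GLM A K where
  toFun x := (fun v => (sg (ip A u v.1) : K) * x.1 v, x.2)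
  invFun x := (fun v => (sg (ip A u v.1) : K) * x.1 v, x.2)
  map_add' x y := by
    refine Prod.ext (funext fun v => ?_) rfl
    show _ * (x.1 v + y.1 v) = _ * x.1 v + _ * y.1 v
    ring
  map_smul' c x := by
    refine Prod.ext (funext fun v => ?_) rfl
    show _ * (c * x.1 v) = c * (_ * x.1 v)
    ring
  left_inv x := by
    refine Prod.ext (funext fun v => ?_) rfl
    show (sg (ip A u v.1) : K) * ((sg (ip A u v.1) : K) * x.1 v) = x.1 v
    rw [← mul_assoc, sq_cast (sg_mul_self _), one_mul]
  right_inv x := by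
    refine Prod.ext (funext fun v => ?_) rfl
    show (sg (ip A u v.1) : K) * ((sg (ip A u v.1) : K) * x.1 v) = x.1 v
    rw [← mul_assoc, sq_cast (sg_mul_self _), one_mul]

theorem hh_fst (u : Fin n → ℤ) (x : LieMod A K) {v : Fin n → ℤ} (hv : ip A v v = 2) :
    ev A (hh A K u x).1 v = (sg (ip A u v) : K) * ev A x.1 v := by
  unfold ev; rw [dif_pos hv, dif_pos hv]; rfl

theorem hh_snd (u : Fin n → ℤ) (x : LieMod A K) : (hh A K u x).2 = x.2 := rfl

theorem hh_add (u v : Fin n → ℤ) : hh A K (u + v) = hh A K u * hh A K v := by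
  refine gl_ext fun x => lm_ext (fun w hw => ?_) rfl
  show ev A (hh A K (u + v) x).1 w = ev A (hh A K u (hh A K v x)).1 w
  rw [hh_fst _ _ hw, hh_fst _ _ hw, hh_fst _ _ hw, ip_add_left, sg_add]
  push_cast; ring

theorem hh_zero : hh A K 0 = 1 := by
  refine gl_ext fun x => lm_ext (fun w hw => ?_) rfl
  show ev A (hh A K 0 x).1 w = ev A x.1 w
  rw [hh_fst _ _ hw, ip_zero_left]; simp

theorem hh_sq (u : Fin n → ℤ) : hh A K u * hh A K u = 1 := by
  refine gl_ext fun x => lm_ext (fun w hw => ?_) rfl
  show ev A (hh A K u (hh A K u x)).1 w = ev A x.1 w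
  rw [hh_fst _ _ hw, hh_fst _ _ hw, ← mul_assoc, sq_cast (sg_mul_self _), one_mul]

theorem hh_inv (u : Fin n → ℤ) : (hh A K u)⁻¹ = hh A K u :=
  inv_eq_of_mul_eq_one_left (hh_sq u)

theorem hh_comm (u v : Fin n → ℤ) : hh A K u * hh A K v = hh A K v * hh A K u := by
  rw [← hh_add, ← hh_add, add_comm]

/-- vectors with the same parities give the same torus element -/
theorem hh_congr {u v : Fin n → ℤ} (h : ∀ j, ip A (u - v) (Pi.single j 1) % 2 = 0) :
    hh A K u = hh A K v := by
  refine gl_ext fun x => lm_ext (fun w hw => ?_) rfl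
  rw [hh_fst _ _ hw, hh_fst _ _ hw]
  have h1 : ip A (u - v) w % 2 = 0 := by
    have e : w = ∑ j, w j • (Pi.single j (1 : ℤ) : Fin n → ℤ) := by
      ext i
      simp [Finset.sum_apply, Pi.single_apply]
    have e2 : ip A (u - v) w = ∑ j, w j * ip A (u - v) (Pi.single j 1) := by
      conv_lhs => rw [e]
      have : ∀ s : Finset (Fin n), ip A (u - v) (∑ j ∈ s, w j • (Pi.single j (1 : ℤ) : Fin n → ℤ)) =
          ∑ j ∈ s, w j * ip A (u - v) (Pi.single j 1) := by
        intro s
        induction s using Finset.induction_on with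
        | empty => simp
        | insert a s ha ih => rw [Finset.sum_insert ha, Finset.sum_insert ha, ip_add_right, ih,
            ip_smul_right]
      exact this _
    rw [e2]
    refine Int.emod_eq_zero_of_dvd (Finset.dvd_sum fun j _ => ?_)
    exact Dvd.dvd.mul_left (Int.dvd_of_emod_eq_zero (h j)) _
  have h2 : sg (ip A u w) = sg (ip A v w) := by
    apply sg_parity; rw [← ip_sub_left]; exact h1
  rw [h2]

theorem hh_X (hA : Good A) (u b : Fin n → ℤ) (t : K) :
    hh A K u * X hA b t = X hA b ((sg (ip A u b) : K) * t) * hh A K u := by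
  by_cases hb : ip A b b = 2
  swap
  · rw [X_not hA hb, X_not hA hb, one_mul, mul_one]
  have hs : (sg (ip A u b) : K) * (sg (ip A u b) : K) = 1 := sq_cast (sg_mul_self _)
  refine gl_ext fun x => lm_ext (fun v hv => ?_) (funext fun i => ?_)
  · show ev A (hh A K u (X hA b t x)).1 v = ev A (X hA b ((sg (ip A u b) : K) * t) (hh A K u x)).1 v
    rw [hh_fst _ _ hv, X_fst hA hb hv, X_fst hA hb hv]
    unfold opF
    rw [hh_fst _ _ hv, hh_snd]
    by_cases c1 : ip A b v = 1
    · have e : (sg (ip A u v) : K) = (sg (ip A u b) : K) * sg (ip A u (v - b)) := by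
        rw [← Int.cast_mul, ← sg_add, ← ip_add_right, add_sub_cancel]
      rw [if_pos c1, if_pos c1, if_neg (by omega), if_neg (by omega),
        hh_fst _ _ (root_sub hA hb hv c1), e]
      ring
    · rw [if_neg c1, if_neg c1]
      by_cases c2 : ip A b v = 2
      · have hbd := (cs hA hb hv).2.2.1 c2
        rw [if_pos c2, if_pos c2, ← hbd, hh_fst _ _ (root_neg hb), ip_neg_right, sg_neg]
        linear_combination (-(sg (ip A u b) : K) * t ^ 2 * ev A x.1 (-b)) * hs
      · rw [if_neg c2, if_neg c2]; ring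
  · show (X hA b t x).2 i = (X hA b ((sg (ip A u b) : K) * t) (hh A K u x)).2 i
    rw [X_snd hA hb, X_snd hA hb, hh_fst _ _ (root_neg hb), hh_snd, ip_neg_right, sg_neg]
    linear_combination (t * ev A x.1 (-b) * (b i : K)) * hs

/-- the square of a Weyl element -/
theorem nn_sq (hA : Good A) {r : Fin n → ℤ} (hr : ip A r r = 2) :
    (nn hA r * nn hA r : GLM A K) = hh A K r := by
  refine gl_ext fun x => lm_ext (fun v hv => ?_) (funext fun i => ?_)
  · show ev A (nn hA r (nn hA r x)).1 v = _
    rw [nn_fst hA hr hv, nn_fst hA hr (root_rf hA hr hv), rf_rf hr, hh_fst _ _ hv, ← mul_assoc,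
      ← Int.cast_mul]
    congr 2
    unfold eta rf
    rw [← sg_add]
    apply sg_parity
    have hrr : hf A r r = 1 := by have := ip_eq hA r r; omega
    rw [ip_sub_right, ip_smul_right, hr, hf_sub_right, hf_smul_right, hrr]
    have : (ip A r v - ip A r v * 2) * (hf A r v - ip A r v * 1) + ip A r v * hf A r v - ip A r v =
        ip A r v * (ip A r v - 1) := by ring
    rw [this]
    rcases Int.even_or_odd (ip A r v) with ⟨k, hk⟩ | ⟨k, hk⟩
    · rw [hk, show (k + k) * (k + k - 1) = 2 * (k * (k + k - 1)) by ring]; omega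
    · rw [hk, show (2 * k + 1) * (2 * k + 1 - 1) = 2 * (k * (2 * k + 1)) by ring]; omega
  · show (nn hA r (nn hA r x)).2 i = x.2 i
    rw [nn_snd hA hr, nn_snd hA hr, pair_nn hA hr, hr]
    push_cast; ring

theorem nn_hh (hA : Good A) {r : Fin n → ℤ} (hr : ip A r r = 2) (u : Fin n → ℤ) :
    (nn hA r * hh A K u : GLM A K) = hh A K (rf A r u) * nn hA r := by
  refine gl_ext fun x => lm_ext (fun v hv => ?_) (funext fun i => ?_)
  · show ev A (nn hA r (hh A K u x)).1 v = ev A (hh A K (rf A r u) (nn hA r x)).1 v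
    rw [nn_fst hA hr hv, hh_fst _ _ (root_rf hA hr hv), hh_fst _ _ hv, nn_fst hA hr hv]
    have : ip A (rf A r u) v = ip A u (rf A r v) := by
      conv_lhs => rw [← rf_rf hr v]
      exact ip_rf hA hr _ _
    rw [this]; ring
  · show (nn hA r (hh A K u x)).2 i = (nn hA r x).2 i
    rw [nn_snd hA hr, nn_snd hA hr, hh_snd]

theorem hh_mem (hA : Good A) (u : Fin n → ℤ) : hh A K u ∈ ChevalleyGroup A K := by
  have hroot : ∀ j, ip A (Pi.single j 1 : Fin n → ℤ) (Pi.single j 1) = 2 := by
    intro j
    rw [ip, Finset.sum_eq_single j, Finset.sum_eq_single j]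
    · simp [hA.diag]
    · intro i _ hi; simp [Pi.single_apply, hi]
    · simp
    · intro i _ hi; simp [Pi.single_apply, hi]
    · simp
  have h1 : ∀ j, hh A K (Pi.single j 1) ∈ ChevalleyGroup A K := fun j => by
    rw [← nn_sq hA (hroot j)]; exact Subgroup.mul_mem _ (nn_mem hA _) (nn_mem hA _)
  have h2 : ∀ (c : ℕ) (j), hh A K (c • Pi.single j 1) ∈ ChevalleyGroup A K := by
    intro c j
    induction c with
    | zero => rw [zero_smul, hh_zero]; exact Subgroup.one_mem _
    | succ c ih => rw [succ_nsmul, hh_add]; exact Subgroup.mul_mem _ ih (h1 j)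
  have h2' : ∀ v, hh A K (-v) = hh A K v := fun v => by
    refine gl_ext fun x => lm_ext (fun w hw => ?_) rfl
    rw [hh_fst _ _ hw, hh_fst _ _ hw, ip_neg_left, sg_neg]
  have h3 : ∀ (c : ℤ) (j), hh A K (c • Pi.single j 1) ∈ ChevalleyGroup A K := by
    intro c j
    rcases Int.eq_nat_or_neg c with ⟨k, rfl | rfl⟩
    · rw [natCast_zsmul]; exact h2 k j
    · rw [neg_smul, h2', natCast_zsmul]; exact h2 k j
  have e : u = ∑ j, u j • (Pi.single j (1 : ℤ) : Fin n → ℤ) := by
    ext i
    simp [Finset.sum_apply, Pi.single_apply]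
  rw [e]
  have : ∀ s : Finset (Fin n), hh A K (∑ j ∈ s, u j • (Pi.single j (1 : ℤ) : Fin n → ℤ)) ∈
      ChevalleyGroup A K := by
    intro s
    induction s using Finset.induction_on with
    | empty => rw [Finset.sum_empty, hh_zero]; exact Subgroup.one_mem _
    | insert a s ha ih => rw [Finset.sum_insert ha, hh_add]; exact Subgroup.mul_mem _ (h3 _ _) ih
  exact this _

end H41Chev
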