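import Mathlib
import Pool.Agent.H.MP_0335f8_al.helper41.Mono

/-!
# Words in the Weyl elements and the torus involutions
-/

namespace H41Chev

variable {n : ℕ} {A : Matrix (Fin n) (Fin n) ℤ} {K : Type*} [Field K]

/-- a letter: `(true, r)` is the Weyl element of `r`, `(false, u)` the torus involution of `u` -/
abbrev Wd (n : ℕ) : Type := List (Bool × (Fin n → ℤ))

/-- the action of a word on the lattice -/
def wv (A : Matrix (Fin n) (Fin n) ℤ) : Wd n → (Fin n → ℤ) → (Fin n → ℤ)
  | [], v => v
  | (true, r) :: w, v => rf A r (wv A w v)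
  | (false, _) :: w, v => wv A w v

/-- the sign of a word at a lattice vector -/
def ws (A : Matrix (Fin n) (Fin n) ℤ) : Wd n → (Fin n → ℤ) → ℤ
  | [], _ => 1
  | (true, r) :: w, v => eta A r (wv A w v) * ws A w v
  | (false, u) :: w, v => sg (ip A u (wv A w v)) * ws A w v

/-- the operator of a word -/
def NN (hA : Good A) : Wd n → GLM A K
  | [] => 1
  | (true, r) :: w => nn hA r * NN hA w
  | (false, u) :: w => hh A K u * NN hA w

/-- the reflections of the word are in roots -/
def wok (A : Matrix (Fin n) (Fin n) ℤ) (w : Wd n) : Prop := ∀ l ∈ w, l.1 = true → ip A l.2 l.2 = 2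

instance (w : Wd n) : Decidable (wok A w) := by unfold wok; infer_instance

theorem wok_cons {l : Bool × (Fin n → ℤ)} {w : Wd n} (h : wok A (l :: w)) : wok A w :=
  fun m hm => h m (List.mem_cons_of_mem _ hm)

theorem wok_append {w w' : Wd n} (h : wok A w) (h' : wok A w') : wok A (w ++ w') := by
  intro l hl
  rcases List.mem_append.1 hl with hl | hl
  · exact h l hl
  · exact h' l hl

theorem NN_append (hA : Good A) (w w' : Wd n) :
    (NN hA (w ++ w') : GLM A K) = NN hA w * NN hA w' := by
  induction w with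
  | nil => simp [NN]
  | cons l w ih =>
    obtain ⟨b, r⟩ := l
    cases b
    · show hh A K r * NN hA (w ++ w') = hh A K r * NN hA w * NN hA w'
      rw [ih, mul_assoc]
    · show nn hA r * NN hA (w ++ w') = nn hA r * NN hA w * NN hA w'
      rw [ih, mul_assoc]

theorem NN_mem (hA : Good A) (w : Wd n) : (NN hA w : GLM A K) ∈ ChevalleyGroup A K := by
  induction w with
  | nil => exact Subgroup.one_mem _
  | cons l w ih =>
    obtain ⟨b, r⟩ := l
    cases b
    · exact Subgroup.mul_mem _ (hh_mem hA r) ih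
    · exact Subgroup.mul_mem _ (nn_mem hA r) ih

theorem wv_add (w : Wd n) (u v : Fin n → ℤ) : wv A w (u + v) = wv A w u + wv A w v := by
  induction w with
  | nil => rfl
  | cons l w ih =>
    obtain ⟨b, r⟩ := l
    cases b
    · exact ih
    · show rf A r (wv A w (u + v)) = rf A r (wv A w u) + rf A r (wv A w v)
      rw [ih, rf_add]

theorem wv_neg (w : Wd n) (u : Fin n → ℤ) : wv A w (-u) = - wv A w u := by
  induction w with
  | nil => rfl
  | cons l w ih =>
    obtain ⟨b, r⟩ := l
    cases b
    · exact ih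
    · show rf A r (wv A w (-u)) = - rf A r (wv A w u)
      rw [ih, rf_neg]

theorem ws_neg (w : Wd n) (u : Fin n → ℤ) : ws A w (-u) = ws A w u := by
  induction w with
  | nil => rfl
  | cons l w ih =>
    obtain ⟨b, r⟩ := l
    cases b
    · show sg (ip A r (wv A w (-u))) * ws A w (-u) = sg (ip A r (wv A w u)) * ws A w u
      rw [ih, wv_neg, ip_neg_right, sg_neg]
    · show eta A r (wv A w (-u)) * ws A w (-u) = eta A r (wv A w u) * ws A w u
      rw [ih, wv_neg, eta_neg]

theorem ws_sq (w : Wd n) (u : Fin n → ℤ) : ws A w u * ws A w u = 1 := by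
  induction w with
  | nil => rfl
  | cons l w ih =>
    obtain ⟨b, r⟩ := l
    cases b
    · show sg (ip A r (wv A w u)) * ws A w u * (sg (ip A r (wv A w u)) * ws A w u) = 1
      have := sg_mul_self (ip A r (wv A w u))
      rw [mul_mul_mul_comm, ih, this, one_mul]
    · show eta A r (wv A w u) * ws A w u * (eta A r (wv A w u) * ws A w u) = 1
      have := eta_sq (A := A) r (wv A w u)
      rw [mul_mul_mul_comm, ih, this, one_mul]

theorem wv_zero (w : Wd n) : wv A w 0 = 0 := by
  have := wv_add (A := A) w 0 0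
  rw [add_zero] at this
  exact left_eq_add.1 this

theorem ws_zero (w : Wd n) : ws A w 0 = 1 := by
  induction w with
  | nil => rfl
  | cons l w ih =>
    obtain ⟨b, r⟩ := l
    cases b
    · show sg (ip A r (wv A w 0)) * ws A w 0 = 1
      rw [ih, wv_zero, ip_zero_right]; rfl
    · show eta A r (wv A w 0) * ws A w 0 = 1
      rw [ih, wv_zero]; unfold eta; rw [ip_zero_right, zero_mul]; rfl

theorem ws_add (hA : Good A) {w : Wd n} (hw : wok A w) (u v : Fin n → ℤ) :
    ws A w (u + v) = ws A w u * ws A w v * eps A u v * eps A (wv A w u) (wv A w v) := by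
  induction w with
  | nil =>
    show (1 : ℤ) = 1 * 1 * eps A u v * eps A u v
    rw [one_mul, one_mul, eps_sq]
  | cons l w ih =>
    have ih := ih (wok_cons hw)
    obtain ⟨b, r⟩ := l
    cases b
    · show sg (ip A r (wv A w (u + v))) * ws A w (u + v) = sg (ip A r (wv A w u)) * ws A w u *
        (sg (ip A r (wv A w v)) * ws A w v) * eps A u v * eps A (wv A w u) (wv A w v)
      rw [ih, wv_add, ip_add_right, sg_add]; ring
    · show eta A r (wv A w (u + v)) * ws A w (u + v) = eta A r (wv A w u) * ws A w u *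
        (eta A r (wv A w v) * ws A w v) * eps A u v *
        eps A (rf A r (wv A w u)) (rf A r (wv A w v))
      have hr : ip A r r = 2 := hw (true, r) (by simp) rfl
      rw [ih, wv_add, eta_add hA hr]
      have := eps_sq (A := A) (wv A w u) (wv A w v)
      linear_combination (eta A r (wv A w u) * eta A r (wv A w v) *
        eps A (rf A r (wv A w u)) (rf A r (wv A w v)) * ws A w u * ws A w v * eps A u v) * this

theorem ip_wv (hA : Good A) {w : Wd n} (hw : wok A w) (u v : Fin n → ℤ) :
    ip A (wv A w u) (wv A w v) = ip A u v := by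
  induction w with
  | nil => rfl
  | cons l w ih =>
    have ih := ih (wok_cons hw)
    obtain ⟨b, r⟩ := l
    cases b
    · exact ih
    · have hr : ip A r r = 2 := hw (true, r) (by simp) rfl
      exact (ip_rf hA hr _ _).trans ih

theorem NN_X (hA : Good A) {w : Wd n} (hw : wok A w) (b : Fin n → ℤ) (t : K) :
    (NN hA w * X hA b t : GLM A K) = X hA (wv A w b) ((ws A w b : K) * t) * NN hA w := by
  induction w with
  | nil =>
    show (1 : GLM A K) * X hA b t = X hA b (((1 : ℤ) : K) * t) * 1
    rw [Int.cast_one, one_mul, one_mul, mul_one]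
  | cons l w ih =>
    have ih := ih (wok_cons hw)
    obtain ⟨c, r⟩ := l
    cases c
    · show hh A K r * NN hA w * X hA b t = X hA (wv A w b)
        (((sg (ip A r (wv A w b)) * ws A w b : ℤ) : K) * t) * (hh A K r * NN hA w)
      rw [mul_assoc, ih, ← mul_assoc, hh_X, mul_assoc, Int.cast_mul, mul_assoc]
    · have hr : ip A r r = 2 := hw (true, r) (by simp) rfl
      show nn hA r * NN hA w * X hA b t = X hA (rf A r (wv A w b))
        (((eta A r (wv A w b) * ws A w b : ℤ) : K) * t) * (nn hA r * NN hA w)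
      rw [mul_assoc, ih, ← mul_assoc, nn_X hA hr, mul_assoc, Int.cast_mul, mul_assoc]

theorem NN_fst (hA : Good A) {w : Wd n} (hw : wok A w) {v : Fin n → ℤ} (hv : ip A v v = 2)
    (x : LieMod A K) : ev A (NN hA w x).1 (wv A w v) = (ws A w v : K) * ev A x.1 v := by
  induction w with
  | nil =>
    show ev A x.1 v = ((1 : ℤ) : K) * ev A x.1 v
    rw [Int.cast_one, one_mul]
  | cons l w ih =>
    have hw' := wok_cons hw
    have ih := ih hw'
    have h2 : ip A (wv A w v) (wv A w v) = 2 := by rw [ip_wv hA hw', hv]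
    obtain ⟨c, r⟩ := l
    cases c
    · show ev A (hh A K r (NN hA w x)).1 (wv A w v) =
        ((sg (ip A r (wv A w v)) * ws A w v : ℤ) : K) * ev A x.1 v
      rw [hh_fst _ _ h2, ih]; push_cast; ring
    · have hr : ip A r r = 2 := hw (true, r) (by simp) rfl
      show ev A (nn hA r (NN hA w x)).1 (rf A r (wv A w v)) =
        ((eta A r (wv A w v) * ws A w v : ℤ) : K) * ev A x.1 v
      rw [nn_fst hA hr (root_rf hA hr h2), rf_rf hr, ih]; push_cast; ring

theorem NN_snd (hA : Good A) {w : Wd n} (hw : wok A w) (x : LieMod A K) (i : Fin n) :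
    (NN hA w x).2 i = ∑ j, ((wv A w (Pi.single j 1) i : ℤ) : K) * x.2 j := by
  induction w generalizing i with
  | nil =>
    show x.2 i = ∑ j, (((Pi.single j (1 : ℤ) : Fin n → ℤ) i : ℤ) : K) * x.2 j
    rw [Finset.sum_eq_single i]
    · simp
    · intro j _ hj; rw [Pi.single_apply, if_neg (Ne.symm hj)]; simp
    · simp
  | cons l w ih =>
    have hw' := wok_cons hw
    have ih := fun i => ih hw' i
    obtain ⟨c, r⟩ := l
    cases c
    · show (hh A K r (NN hA w x)).2 i = _
      rw [hh_snd, ih]; rfl
    · have hr : ip A r r = 2 := hw (true, r) (by simp) rfl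
      show (nn hA r (NN hA w x)).2 i = ∑ j, ((rf A r (wv A w (Pi.single j 1)) i : ℤ) : K) * x.2 j
      have h1 : pair A r (NN hA w x).2 = ∑ j, ((ip A r (wv A w (Pi.single j 1)) : ℤ) : K) * x.2 j := by
        unfold pair ip
        have eL : ∀ a b, (r a : K) * (A a b : K) * (NN hA w x).2 b =
            ∑ c, (r a : K) * (A a b : K) * (wv A w (Pi.single c 1) b : K) * x.2 c := by
          intro a b
          rw [ih, Finset.mul_sum]
          exact Finset.sum_congr rfl fun c _ => by ring
        have eR : ∀ c, ((∑ a, ∑ b, r a * A a b * wv A w (Pi.single c 1) b : ℤ) : K) * x.2 c =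
            ∑ a, ∑ b, (r a : K) * (A a b : K) * (wv A w (Pi.single c 1) b : K) * x.2 c := by
          intro c
          push_cast
          simp only [Finset.sum_mul]
        simp only [eL, eR]
        refine Eq.trans (Finset.sum_congr rfl fun a _ => Finset.sum_comm) ?_
        exact Finset.sum_comm
      rw [nn_snd hA hr, ih, h1, Finset.sum_mul, ← Finset.sum_sub_distrib]
      refine Finset.sum_congr rfl fun j _ => ?_
      unfold rf
      simp only [Pi.sub_apply, Pi.smul_apply, smul_eq_mul]
      push_cast; ring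

/-- induction over the lattice -/
theorem lat_ind {P : (Fin n → ℤ) → Prop} (h0 : P 0) (ha : ∀ u v, P u → P v → P (u + v))
    (hn : ∀ v, P v → P (-v)) (hs : ∀ j, P (Pi.single j 1)) (v : Fin n → ℤ) : P v := by
  have h1 : ∀ (c : ℕ) (j), P (c • (Pi.single j (1 : ℤ) : Fin n → ℤ)) := by
    intro c j
    induction c with
    | zero => rw [zero_smul]; exact h0
    | succ c ih => rw [succ_nsmul]; exact ha _ _ ih (hs j)
  have h2 : ∀ (c : ℤ) (j), P (c • (Pi.single j (1 : ℤ) : Fin n → ℤ)) := by
    intro c j
    rcases Int.eq_nat_or_neg c with ⟨k, rfl | rfl⟩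
    · rw [natCast_zsmul]; exact h1 k j
    · rw [neg_smul, natCast_zsmul]; exact hn _ (h1 k j)
  have e : v = ∑ j, v j • (Pi.single j (1 : ℤ) : Fin n → ℤ) := by
    ext i
    simp [Finset.sum_apply, Pi.single_apply]
  rw [e]
  have : ∀ s : Finset (Fin n), P (∑ j ∈ s, v j • (Pi.single j (1 : ℤ) : Fin n → ℤ)) := by
    intro s
    induction s using Finset.induction_on with
    | empty => rw [Finset.sum_empty]; exact h0
    | insert a s hs ih => rw [Finset.sum_insert hs]; exact ha _ _ (h2 _ _) ih
  exact this _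

/-- every lattice vector is in the image of a word -/
theorem wv_surj {w : Wd n} (hw : wok A w) (v : Fin n → ℤ) : ∃ u, wv A w u = v := by
  induction w generalizing v with
  | nil => exact ⟨v, rfl⟩
  | cons l w ih =>
    obtain ⟨c, r⟩ := l
    cases c
    · exact ih (wok_cons hw) v
    · have hr : ip A r r = 2 := hw (true, r) (by simp) rfl
      obtain ⟨u, hu⟩ := ih (wok_cons hw) (rf A r v)
      exact ⟨u, by show rf A r (wv A w u) = v; rw [hu, rf_rf hr]⟩

/-- two words with the same action on the simple roots have the same operator -/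
theorem NN_eq (hA : Good A) {w w' : Wd n} (hw : wok A w) (hw' : wok A w')
    (h1 : ∀ j, wv A w (Pi.single j 1) = wv A w' (Pi.single j 1))
    (h2 : ∀ j, (ws A w (Pi.single j 1) : K) = (ws A w' (Pi.single j 1) : K)) :
    (NN hA w : GLM A K) = NN hA w' := by
  have key : ∀ v, wv A w v = wv A w' v ∧ (ws A w v : K) = (ws A w' v : K) := by
    refine lat_ind ?_ ?_ ?_ ?_
    · rw [wv_zero, wv_zero, ws_zero, ws_zero]; exact ⟨rfl, rfl⟩
    · rintro u v ⟨a1, a2⟩ ⟨b1, b2⟩
      refine ⟨by rw [wv_add, wv_add, a1, b1], ?_⟩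
      rw [ws_add hA hw, ws_add hA hw', a1, b1]
      push_cast
      rw [a2, b2]
    · rintro v ⟨a1, a2⟩
      exact ⟨by rw [wv_neg, wv_neg, a1], by rw [ws_neg, ws_neg, a2]⟩
    · exact fun j => ⟨h1 j, h2 j⟩
  refine gl_ext fun x => lm_ext (fun v hv => ?_) (funext fun i => ?_)
  · obtain ⟨u, rfl⟩ := wv_surj hw v
    have hu : ip A u u = 2 := by rwa [ip_wv hA hw] at hv
    rw [NN_fst hA hw hu, (key u).1, NN_fst hA hw' hu, (key u).2]
  · rw [NN_snd hA hw, NN_snd hA hw']
    exact Finset.sum_congr rfl fun j _ => by rw [h1]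

theorem NN_eq_int (hA : Good A) {w w' : Wd n} (hw : wok A w) (hw' : wok A w')
    (h1 : ∀ j, wv A w (Pi.single j 1) = wv A w' (Pi.single j 1))
    (h2 : ∀ j, ws A w (Pi.single j 1) = ws A w' (Pi.single j 1)) :
    (NN hA w : GLM A K) = NN hA w' := NN_eq hA hw hw' h1 fun j => by rw [h2]

theorem cast_one {k : ℤ} (h : k * k = 1) (h2 : (2 : K) = 0) : (k : K) = 1 := by
  rcases Int.isUnit_iff.1 (IsUnit.of_mul_eq_one k h) with rfl | rfl
  · simp
  · push_cast; linear_combination (-1 : K) * h2

theorem NN_eq_two (hA : Good A) (hK : (2 : K) = 0) {w w' : Wd n} (hw : wok A w) (hw' : wok A w')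
    (h1 : ∀ j, wv A w (Pi.single j 1) = wv A w' (Pi.single j 1)) :
    (NN hA w : GLM A K) = NN hA w' := NN_eq hA hw hw' h1 fun j => by
  rw [cast_one (ws_sq w _) hK, cast_one (ws_sq w' _) hK]

end H41Chev
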