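import Mathlib
import Pool.Agent.H.MP_0335f8_al.helper41.Word

/-!
# Subgroups containing many root elements
-/

namespace H41Chev

variable {n : ℕ} {A : Matrix (Fin n) (Fin n) ℤ} {K : Type*} [Field K]

/-- the root element with parameter `u ^ k` lies in `L` -/
def Lv (hA : Good A) (L : Subgroup (GLM A K)) (u : K) (v : Fin n → ℤ) (k : ℕ) : Prop :=
  X hA v (u ^ k) ∈ L

/-- the whole root subgroup lies in `L` -/
def Fl (hA : Good A) (L : Subgroup (GLM A K)) (v : Fin n → ℤ) : Prop :=
  ∀ t : K, X hA v t ∈ L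

/-- the powers of `u ^ c` generate the additive group of the field -/
def Sp (u : K) (c : ℕ) : Prop := AddSubgroup.closure (Set.range fun i : ℕ => u ^ (c * i)) = ⊤

theorem pm_of_sq {k : ℤ} (h : k * k = 1) : k = 1 ∨ k = -1 :=
  Int.isUnit_iff.1 (IsUnit.of_mul_eq_one k h)

theorem X_sign (hA : Good A) {L : Subgroup (GLM A K)} {v : Fin n → ℤ} {k : ℤ} (hk : k * k = 1)
    {t : K} (h : X hA v ((k : K) * t) ∈ L) : X hA v t ∈ L := by
  rcases pm_of_sq hk with rfl | rfl
  · simpa using h
  · have := L.inv_mem h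
    rw [X_inv] at this
    simpa using this

theorem X_sign' (hA : Good A) {L : Subgroup (GLM A K)} {v : Fin n → ℤ} {k : ℤ} (hk : k * k = 1)
    {t : K} (h : X hA v t ∈ L) : X hA v ((k : K) * t) ∈ L := by
  refine X_sign hA hk ?_
  rw [← mul_assoc, sq_cast hk, one_mul]; exact h

theorem conj_X (hA : Good A) {L : Subgroup (GLM A K)} {w : Wd n} (hw : wok A w)
    (hL : NN hA w ∈ L) {v : Fin n → ℤ} {t : K} (h : X hA v t ∈ L) : X hA (wv A w v) t ∈ L := by
  refine X_sign hA (ws_sq (A := A) w v) ?_
  have := L.mul_mem (L.mul_mem hL h) (L.inv_mem hL)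
  rwa [NN_X hA hw, mul_assoc, mul_inv_cancel, mul_one] at this

theorem com_X (hA : Good A) {L : Subgroup (GLM A K)} {v w : Fin n → ℤ} (hv : ip A v v = 2)
    (hw : ip A w w = 2) (hvw : ip A v w = -1) {s t : K} (h1 : X hA v s ∈ L) (h2 : X hA w t ∈ L) :
    X hA (v + w) (s * t) ∈ L := by
  refine X_sign hA (eps_sq (A := A) v w) ?_
  have e := X_com hA hv hw hvw s t
  have := L.mul_mem (L.mul_mem (L.mul_mem h1 h2) (L.inv_mem h1)) (L.inv_mem h2)
  rw [e] at this
  have e2 : X hA (v + w) ((eps A v w : K) * s * t) * X hA w t * X hA v s * (X hA v s)⁻¹ *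
      (X hA w t)⁻¹ = X hA (v + w) ((eps A v w : K) * s * t) := by group
  rw [e2, mul_assoc] at this
  exact this

theorem Lv_conj (hA : Good A) {L : Subgroup (GLM A K)} {u : K} {w : Wd n} (hw : wok A w)
    (hL : NN hA w ∈ L) {v v' : Fin n → ℤ} {k : ℕ} (h : Lv hA L u v k) (e : wv A w v = v') :
    Lv hA L u v' k := e ▸ conj_X hA hw hL h

theorem Fl_conj (hA : Good A) {L : Subgroup (GLM A K)} {w : Wd n} (hw : wok A w)
    (hL : NN hA w ∈ L) {v v' : Fin n → ℤ} (h : Fl hA L v) (e : wv A w v = v') :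
    Fl hA L v' := fun t => e ▸ conj_X hA hw hL (h t)

/-- the sum data: two roots with inner product `-1` and their sum -/
def Sm (A : Matrix (Fin n) (Fin n) ℤ) (v w s : Fin n → ℤ) : Prop :=
  ip A v v = 2 ∧ ip A w w = 2 ∧ ip A v w = -1 ∧ v + w = s

instance (v w s : Fin n → ℤ) : Decidable (Sm A v w s) := by unfold Sm; infer_instance

theorem Lv_sum (hA : Good A) {L : Subgroup (GLM A K)} {u : K} {v w s : Fin n → ℤ} {k m : ℕ}
    (h1 : Lv hA L u v k) (h2 : Lv hA L u w m) (e : Sm A v w s) : Lv hA L u s (k + m) := by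
  obtain ⟨hv, hw, hvw, rfl⟩ := e
  have := com_X hA hv hw hvw h1 h2
  rwa [← pow_add] at this

theorem Fl_sum (hA : Good A) {L : Subgroup (GLM A K)} {u : K} (hu : u ≠ 0) {v w s : Fin n → ℤ}
    {m : ℕ} (h1 : Fl hA L v) (h2 : Lv hA L u w m) (e : Sm A v w s) : Fl hA L s := by
  obtain ⟨hv, hw, hvw, rfl⟩ := e
  intro t
  have := com_X hA hv hw hvw (h1 (t / u ^ m)) h2
  rwa [div_mul_cancel₀ _ (pow_ne_zero _ hu)] at this

theorem Fl_lv (hA : Good A) {L : Subgroup (GLM A K)} {u : K} {v : Fin n → ℤ} (h : Fl hA L v)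
    (k : ℕ) : Lv hA L u v k := h _

/-- the parameters of the root elements in `L` form an additive group -/
def par (hA : Good A) (L : Subgroup (GLM A K)) (v : Fin n → ℤ) : AddSubgroup K where
  carrier := {t | X hA v t ∈ L}
  add_mem' {a b} ha hb := by
    show X hA v (a + b) ∈ L
    rw [← X_add]; exact L.mul_mem ha hb
  zero_mem' := by show X hA v 0 ∈ L; rw [X_zero]; exact L.one_mem
  neg_mem' {a} ha := by
    show X hA v (-a) ∈ L
    rw [← X_inv]; exact L.inv_mem ha

theorem Lv_step (hA : Good A) {L : Subgroup (GLM A K)} {v d : Fin n → ℤ}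
    (hv : ip A v v = 2) (hd : ip A d d = 2) (hvd : ip A v d = -1) {s a b : K}
    (h1 : X hA d a ∈ L) (h2 : X hA (-d) b ∈ L) (h3 : X hA v s ∈ L) :
    X hA v (s * (a * b)) ∈ L := by
  have h4 := com_X hA hv hd hvd h3 h1
  have h5 := com_X hA (root_add hA hv hd hvd) (root_neg hd)
    (by rw [ip_neg_right, ip_add_left, hvd, hd]; norm_num) h4 h2
  rw [add_neg_cancel_right] at h5
  rw [← mul_assoc]; exact h5

/-- the loop rule -/
theorem Fl_loop (hA : Good A) {L : Subgroup (GLM A K)} {u : K} (hu : u ≠ 0)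
    {v d d' : Fin n → ℤ} {j k m : ℕ} (hs : Sp u (k + m))
    (h3 : Lv hA L u v j) (h1 : Lv hA L u d k) (h2 : Lv hA L u d' m)
    (e : ip A v v = 2 ∧ ip A d d = 2 ∧ ip A v d = -1 ∧ -d = d') : Fl hA L v := by
  obtain ⟨hv, hd, hvd, rfl⟩ := e
  have key : ∀ i : ℕ, X hA v (u ^ j * u ^ ((k + m) * i)) ∈ L := by
    intro i
    induction i with
    | zero => rw [Nat.mul_zero, pow_zero, mul_one]; exact h3
    | succ i ih =>
      have := Lv_step hA hv hd hvd h1 h2 ih
      have e : u ^ j * u ^ ((k + m) * i) * (u ^ k * u ^ m) = u ^ j * u ^ ((k + m) * (i + 1)) := by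
        ring
      rwa [e] at this
  have h4 : AddSubgroup.closure (Set.range fun i : ℕ => u ^ ((k + m) * i)) ≤
      (par hA L v).comap (AddMonoidHom.mulLeft (u ^ j)) := by
    rw [AddSubgroup.closure_le]
    rintro _ ⟨i, rfl⟩
    exact key i
  rw [hs] at h4
  intro t
  have := h4 (AddSubgroup.mem_top (t / u ^ j))
  have h5 : X hA v (u ^ j * (t / u ^ j)) ∈ L := this
  rwa [mul_div_cancel₀ _ (pow_ne_zero _ hu)] at h5

/-- every root is a simple root up to sign, or it can be shortened by a simple root -/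
theorem root_cases {v : Fin n → ℤ} (hv : ip A v v = 2) :
    ∃ i, (0 < v i ∧ 0 < ip A v (Pi.single i 1)) ∨ (v i < 0 ∧ ip A v (Pi.single i 1) < 0) := by
  by_contra h
  push Not at h
  have e : ip A v v = ∑ i, v i * ip A v (Pi.single i 1) := by
    have e : v = ∑ j, v j • (Pi.single j (1 : ℤ) : Fin n → ℤ) := by
      ext i
      simp [Finset.sum_apply, Pi.single_apply]
    have : ∀ s : Finset (Fin n), ip A v (∑ j ∈ s, v j • (Pi.single j (1 : ℤ) : Fin n → ℤ)) =
        ∑ j ∈ s, v j * ip A v (Pi.single j 1) := by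
      intro s
      induction s using Finset.induction_on with
      | empty => simp
      | insert a s ha ih => rw [Finset.sum_insert ha, Finset.sum_insert ha, ip_add_right, ih,
          ip_smul_right]
    conv_lhs => rw [e]
    rw [← e]
    conv_lhs => rw [show ip A v v = ip A v (∑ j, v j • (Pi.single j (1 : ℤ) : Fin n → ℤ)) by
      rw [← e]]
    exact this _
  have h2 : ∑ i, v i * ip A v (Pi.single i 1) ≤ 0 := by
    refine Finset.sum_nonpos fun i _ => ?_
    obtain ⟨h3, h4⟩ := h i
    rcases lt_trichotomy (v i) 0 with h5 | h5 | h5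
    · exact mul_nonpos_of_nonpos_of_nonneg h5.le (h4 h5)
    · rw [h5, zero_mul]
    · exact mul_nonpos_of_nonneg_of_nonpos h5.le (h3 h5)
  omega

theorem single_root (hA : Good A) (j : Fin n) :
    ip A (Pi.single j 1 : Fin n → ℤ) (Pi.single j 1) = 2 := by
  rw [ip, Finset.sum_eq_single j, Finset.sum_eq_single j]
  · simp [hA.diag]
  · intro i _ hi; simp [hi]
  · simp
  · intro i _ hi; simp [hi]
  · simp

theorem abs_sub_single {v : Fin n → ℤ} {i : Fin n} (h : 0 < v i) :
    ∑ j, |(v - (Pi.single i 1 : Fin n → ℤ)) j| < ∑ j, |v j| := by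
  refine Finset.sum_lt_sum (fun j _ => ?_) ⟨i, Finset.mem_univ _, ?_⟩
  · by_cases hj : j = i
    · subst hj
      rw [Pi.sub_apply, Pi.single_eq_same, abs_of_nonneg (by omega), abs_of_pos h]; omega
    · rw [Pi.sub_apply, Pi.single_eq_of_ne hj, sub_zero]
  · rw [Pi.sub_apply, Pi.single_eq_same, abs_of_nonneg (by omega), abs_of_pos h]; omega

theorem abs_add_single {v : Fin n → ℤ} {i : Fin n} (h : v i < 0) :
    ∑ j, |(v + (Pi.single i 1 : Fin n → ℤ)) j| < ∑ j, |v j| := by
  refine Finset.sum_lt_sum (fun j _ => ?_) ⟨i, Finset.mem_univ _, ?_⟩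
  · by_cases hj : j = i
    · subst hj
      rw [Pi.add_apply, Pi.single_eq_same, abs_of_nonpos (by omega), abs_of_neg h]; omega
    · rw [Pi.add_apply, Pi.single_eq_of_ne hj, add_zero]
  · rw [Pi.add_apply, Pi.single_eq_same, abs_of_nonpos (by omega), abs_of_neg h]; omega

/-- a subgroup with all simple root subgroups and their negatives is everything -/
theorem gen_simple (hA : Good A) {L : Subgroup (GLM A K)}
    (h1 : ∀ j, Fl hA L (Pi.single j 1)) (h2 : ∀ j, Fl hA L (-Pi.single j 1)) :
    ChevalleyGroup A K ≤ L := by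
  have key : ∀ (N : ℕ) (v : Fin n → ℤ), ip A v v = 2 → ∑ j, |v j| < (N : ℤ) → Fl hA L v := by
    intro N
    induction N with
    | zero =>
      intro v _ h
      have : 0 ≤ ∑ j, |v j| := Finset.sum_nonneg fun j _ => abs_nonneg _
      simp at h; omega
    | succ N ih =>
      intro v hv hN
      push_cast at hN
      obtain ⟨i, ⟨hi, hip⟩ | ⟨hi, hip⟩⟩ := root_cases hv
      · have c := cs hA hv (single_root hA i)
        by_cases h2 : ip A v (Pi.single i 1) = 2
        · rw [c.2.2.1 h2]; exact h1 i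
        · have h3 : ip A v (Pi.single i 1) = 1 := by omega
          have h4 : ip A (v - Pi.single i 1) (v - Pi.single i 1) = 2 := by
            rw [ip_sub_left, ip_sub_right, ip_sub_right, ip_comm hA (Pi.single i 1) v, hv, h3,
              single_root hA]
            norm_num
          have h5 := ih _ h4 (by have := abs_sub_single hi; omega)
          intro t
          have := com_X hA h4 (single_root hA i)
            (by rw [ip_sub_left, h3, single_root hA]; norm_num) (h5 t) (h1 i 1)
          rwa [sub_add_cancel, mul_one] at this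
      · have c := cs hA hv (root_neg (single_root hA i))
        rw [ip_neg_right] at c
        by_cases h2' : ip A v (Pi.single i 1) = -2
        · rw [c.2.2.1 (by omega)]; exact h2 i
        · have h3 : ip A v (Pi.single i 1) = -1 := by omega
          have h4 := root_add hA hv (single_root hA i) h3
          have h5 := ih _ h4 (by have := abs_add_single hi; omega)
          intro t
          have := com_X hA h4 (root_neg (single_root hA i))
            (by rw [ip_neg_right, ip_add_left, h3, single_root hA]; norm_num) (h5 t) (h2 i 1)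
          rwa [add_neg_cancel_right, mul_one] at this
  have hall : ∀ v : Fin n → ℤ, Fl hA L v := by
    intro v
    by_cases hv : ip A v v = 2
    · refine key ((∑ j, |v j|).toNat + 1) v hv ?_
      have : 0 ≤ ∑ j, |v j| := Finset.sum_nonneg fun j _ => abs_nonneg _
      push_cast
      omega
    · intro t; rw [X_not hA hv]; exact L.one_mem
  rw [closure_eq hA]
  refine (Subgroup.closure_le _).2 ?_
  rintro g ⟨v, t, rfl⟩
  exact hall v t

end H41Chev
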