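import Mathlib
import Pool.Agent.H.MP_0335f8_al.helper41.Gen

/-!
# Products of root elements in characteristic two
-/

namespace H41Chev

variable {n : ℕ} {A : Matrix (Fin n) (Fin n) ℤ} {K : Type*} [Field K]

/-- a list of roots with exponents -/
abbrev XC (n : ℕ) : Type := List ((Fin n → ℤ) × ℕ)

/-- the product of the root elements of a list, with parameters powers of `u` -/
def XT (hA : Good A) (u : K) : XC n → GLM A K
  | [] => 1
  | e :: l => X hA e.1 (u ^ e.2) * XT hA u l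

/-- the root elements of the list commute -/
def Pc (A : Matrix (Fin n) (Fin n) ℤ) (l : XC n) : Prop := ∀ e ∈ l, ∀ f ∈ l, 0 ≤ ip A e.1 f.1

instance (l : XC n) : Decidable (Pc A l) := by unfold Pc; infer_instance

theorem Pc_cons {e : (Fin n → ℤ) × ℕ} {l : XC n} (h : Pc A (e :: l)) : Pc A l :=
  fun a ha b hb => h a (List.mem_cons_of_mem _ ha) b (List.mem_cons_of_mem _ hb)

theorem Pc_perm {l l' : XC n} (p : l.Perm l') (h : Pc A l) : Pc A l' :=
  fun a ha b hb => h a (p.mem_iff.2 ha) b (p.mem_iff.2 hb)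

theorem X_two (hA : Good A) (hK : (2 : K) = 0) (v : Fin n → ℤ) (t : K) :
    (X hA v t * X hA v t : GLM A K) = 1 := by
  rw [X_add, show t + t = 0 by linear_combination t * hK, X_zero]

theorem XT_append (hA : Good A) (u : K) (l l' : XC n) :
    (XT hA u (l ++ l') : GLM A K) = XT hA u l * XT hA u l' := by
  induction l with
  | nil => simp [XT]
  | cons e l ih =>
    show X hA e.1 (u ^ e.2) * XT hA u (l ++ l') = X hA e.1 (u ^ e.2) * XT hA u l * XT hA u l'
    rw [ih, mul_assoc]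

theorem X_XT (hA : Good A) (u : K) {v : Fin n → ℤ} (t : K) {l : XC n}
    (h : ∀ f ∈ l, 0 ≤ ip A v f.1) :
    (X hA v t * XT hA u l : GLM A K) = XT hA u l * X hA v t := by
  induction l with
  | nil => simp [XT]
  | cons e l ih =>
    show X hA v t * (X hA e.1 (u ^ e.2) * XT hA u l) = X hA e.1 (u ^ e.2) * XT hA u l * X hA v t
    rw [← mul_assoc, X_comm hA (h e (by simp)), mul_assoc, ih fun f hf => h f (by simp [hf]),
      mul_assoc]

theorem XT_perm (hA : Good A) (u : K) {l l' : XC n} (p : l.Perm l') (h : Pc A l) :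
    (XT hA u l : GLM A K) = XT hA u l' := by
  induction p with
  | nil => rfl
  | cons e p ih =>
    show X hA e.1 (u ^ e.2) * XT hA u _ = X hA e.1 (u ^ e.2) * XT hA u _
    rw [ih (Pc_cons h)]
  | swap e f l =>
    show X hA f.1 (u ^ f.2) * (X hA e.1 (u ^ e.2) * XT hA u l) =
      X hA e.1 (u ^ e.2) * (X hA f.1 (u ^ f.2) * XT hA u l)
    rw [← mul_assoc, ← mul_assoc, X_comm hA (h f (by simp) e (by simp))]
  | trans p1 p2 ih1 ih2 => rw [ih1 h, ih2 (Pc_perm p1 h)]

theorem XT_dd (hA : Good A) (hK : (2 : K) = 0) (u : K) {d : XC n} (h : Pc A d) :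
    (XT hA u (d ++ d) : GLM A K) = 1 := by
  induction d with
  | nil => rfl
  | cons e d ih =>
    have h1 : ∀ f ∈ d, 0 ≤ ip A e.1 f.1 := fun f hf => h e (by simp) f (by simp [hf])
    have ih := ih (Pc_cons h)
    rw [XT_append] at ih ⊢
    show X hA e.1 (u ^ e.2) * XT hA u d * (X hA e.1 (u ^ e.2) * XT hA u d) = 1
    have h5 := X_XT hA u (u ^ e.2) h1
    have h6 := X_two hA hK e.1 (u ^ e.2)
    calc X hA e.1 (u ^ e.2) * XT hA u d * (X hA e.1 (u ^ e.2) * XT hA u d)
        = XT hA u d * X hA e.1 (u ^ e.2) * (X hA e.1 (u ^ e.2) * XT hA u d) := by rw [← h5]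
      _ = XT hA u d * (X hA e.1 (u ^ e.2) * X hA e.1 (u ^ e.2)) * XT hA u d := by group
      _ = 1 := by rw [h6, mul_one, ih]

/-- the commuting product in normal form -/
theorem XT_nf (hA : Good A) (hK : (2 : K) = 0) (u : K) {l l' : XC n} (d : XC n)
    (p : l.Perm (d ++ d ++ l')) (h : Pc A l) : (XT hA u l : GLM A K) = XT hA u l' := by
  have h2 := Pc_perm p h
  have h3 : Pc A d := fun a ha b hb => h2 a (by simp [ha]) b (by simp [hb])
  rw [XT_perm hA u p h, XT_append, XT_dd hA hK u h3, one_mul]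

/-- the image of a list under a word -/
def wl (A : Matrix (Fin n) (Fin n) ℤ) (w : Wd n) (l : XC n) : XC n :=
  l.map fun e => (wv A w e.1, e.2)

theorem NN_XT (hA : Good A) (hK : (2 : K) = 0) (u : K) {w : Wd n} (hw : wok A w) (l : XC n) :
    (NN hA w * XT hA u l : GLM A K) = XT hA u (wl A w l) * NN hA w := by
  induction l with
  | nil => show NN hA w * 1 = 1 * NN hA w; rw [mul_one, one_mul]
  | cons e l ih =>
    show NN hA w * (X hA e.1 (u ^ e.2) * XT hA u l) =
      X hA (wv A w e.1) (u ^ e.2) * XT hA u (wl A w l) * NN hA w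
    rw [← mul_assoc, NN_X hA hw, cast_one (ws_sq w _) hK, one_mul, mul_assoc, ih, mul_assoc]

/-- the commutators of a root with a list -/
def z1 (A : Matrix (Fin n) (Fin n) ℤ) (e : (Fin n → ℤ) × ℕ) : XC n → XC n
  | [] => []
  | f :: l => if ip A e.1 f.1 = -1 then (e.1 + f.1, e.2 + f.2) :: z1 A e l else z1 A e l

/-- the commutators of two lists -/
def zz (A : Matrix (Fin n) (Fin n) ℤ) : XC n → XC n → XC n
  | [], _ => []
  | e :: l, m => zz A l m ++ z1 A e m

/-- the side condition of the commutator formula -/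
def Zc (A : Matrix (Fin n) (Fin n) ℤ) (l m : XC n) : Prop :=
  (∀ e ∈ l, ip A e.1 e.1 = 2) ∧ (∀ f ∈ m, ip A f.1 f.1 = 2) ∧
  (∀ e ∈ l, ∀ f ∈ m, -1 ≤ ip A e.1 f.1) ∧
  (∀ e ∈ l, ∀ f ∈ m, ∀ g ∈ m, ip A e.1 f.1 = -1 → 0 ≤ ip A (e.1 + f.1) g.1) ∧
  (∀ e ∈ l, ∀ g ∈ zz A l m, 0 ≤ ip A e.1 g.1)

instance (l m : XC n) : Decidable (Zc A l m) := by unfold Zc; infer_instance

theorem z1_mem {e : (Fin n → ℤ) × ℕ} {l : XC n} {g : (Fin n → ℤ) × ℕ} (h : g ∈ z1 A e l) :
    ∃ f ∈ l, ip A e.1 f.1 = -1 ∧ g.1 = e.1 + f.1 := by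
  induction l with
  | nil => simp [z1] at h
  | cons f l ih =>
    unfold z1 at h
    split_ifs at h with c
    · rcases List.mem_cons.1 h with h | h
      · exact ⟨f, by simp, c, by rw [h]⟩
      · obtain ⟨f', hf', h'⟩ := ih h
        exact ⟨f', by simp [hf'], h'⟩
    · obtain ⟨f', hf', h'⟩ := ih h
      exact ⟨f', by simp [hf'], h'⟩

theorem com1 (hA : Good A) (hK : (2 : K) = 0) (u : K) (e : (Fin n → ℤ) × ℕ)
    (he : ip A e.1 e.1 = 2) {m : XC n} (h1 : ∀ f ∈ m, ip A f.1 f.1 = 2)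
    (h2 : ∀ f ∈ m, -1 ≤ ip A e.1 f.1)
    (h3 : ∀ f ∈ m, ∀ g ∈ m, ip A e.1 f.1 = -1 → 0 ≤ ip A (e.1 + f.1) g.1) :
    (X hA e.1 (u ^ e.2) * XT hA u m : GLM A K) =
      XT hA u (z1 A e m) * XT hA u m * X hA e.1 (u ^ e.2) := by
  induction m with
  | nil => simp [XT, z1]
  | cons f m ih =>
    have ih := ih (fun g hg => h1 g (by simp [hg])) (fun g hg => h2 g (by simp [hg]))
      (fun g hg g' hg' => h3 g (by simp [hg]) g' (by simp [hg']))
    have h4 : ∀ g ∈ z1 A e m, 0 ≤ ip A f.1 g.1 := by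
      intro g hg
      obtain ⟨f', hf', c, hg'⟩ := z1_mem hg
      rw [hg', ip_comm hA]
      exact h3 f' (by simp [hf']) f (by simp) c
    by_cases c : ip A e.1 f.1 = -1
    · have e1 : z1 A e (f :: m) = (e.1 + f.1, e.2 + f.2) :: z1 A e m := by
        conv_lhs => unfold z1
        rw [if_pos c]
      rw [e1]
      show X hA e.1 (u ^ e.2) * (X hA f.1 (u ^ f.2) * XT hA u m) =
        X hA (e.1 + f.1) (u ^ (e.2 + f.2)) * XT hA u (z1 A e m) * (X hA f.1 (u ^ f.2) * XT hA u m) *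
          X hA e.1 (u ^ e.2)
      rw [← mul_assoc, X_com hA he (h1 f (by simp)) c, cast_one (eps_sq _ _) hK, one_mul, ← pow_add,
        mul_assoc, ih]
      have h5 := X_XT hA u (u ^ f.2) h4
      calc X hA (e.1 + f.1) (u ^ (e.2 + f.2)) * X hA f.1 (u ^ f.2) *
            (XT hA u (z1 A e m) * XT hA u m * X hA e.1 (u ^ e.2))
          = X hA (e.1 + f.1) (u ^ (e.2 + f.2)) * (X hA f.1 (u ^ f.2) * XT hA u (z1 A e m)) *
            XT hA u m * X hA e.1 (u ^ e.2) := by group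
        _ = _ := by rw [h5]; group
    · have e1 : z1 A e (f :: m) = z1 A e m := by
        conv_lhs => unfold z1
        rw [if_neg c]
      have c2 : 0 ≤ ip A e.1 f.1 := by have := h2 f (by simp); omega
      rw [e1]
      show X hA e.1 (u ^ e.2) * (X hA f.1 (u ^ f.2) * XT hA u m) =
        XT hA u (z1 A e m) * (X hA f.1 (u ^ f.2) * XT hA u m) * X hA e.1 (u ^ e.2)
      rw [← mul_assoc, X_comm hA c2, mul_assoc, ih]
      have h5 := X_XT hA u (u ^ f.2) h4
      calc X hA f.1 (u ^ f.2) * (XT hA u (z1 A e m) * XT hA u m * X hA e.1 (u ^ e.2))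
          = (X hA f.1 (u ^ f.2) * XT hA u (z1 A e m)) * XT hA u m * X hA e.1 (u ^ e.2) := by group
        _ = _ := by rw [h5]; group

theorem com2 (hA : Good A) (hK : (2 : K) = 0) (u : K) {l m : XC n} (h : Zc A l m) :
    (XT hA u l * XT hA u m : GLM A K) = XT hA u (zz A l m) * XT hA u m * XT hA u l := by
  induction l with
  | nil => simp [XT, zz]
  | cons e l ih =>
    obtain ⟨g1, g2, g3, g4, g5⟩ := h
    have hz : zz A (e :: l) m = zz A l m ++ z1 A e m := rfl
    have ih := ih ⟨fun a ha => g1 a (by simp [ha]), g2, fun a ha => g3 a (by simp [ha]),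
      fun a ha => g4 a (by simp [ha]), fun a ha b hb => g5 a (by simp [ha]) b (by simp [hz, hb])⟩
    have h1 := com1 hA hK u e (g1 e (by simp)) g2 (g3 e (by simp)) (g4 e (by simp))
    have h2 := X_XT hA u (u ^ e.2) (v := e.1) (l := zz A l m)
      (fun f hf => g5 e (by simp) f (by simp [hz, hf]))
    rw [hz, XT_append]
    show X hA e.1 (u ^ e.2) * XT hA u l * XT hA u m = XT hA u (zz A l m) * XT hA u (z1 A e m) *
      XT hA u m * (X hA e.1 (u ^ e.2) * XT hA u l)
    rw [mul_assoc, ih]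
    calc X hA e.1 (u ^ e.2) * (XT hA u (zz A l m) * XT hA u m * XT hA u l)
        = (X hA e.1 (u ^ e.2) * XT hA u (zz A l m)) * XT hA u m * XT hA u l := by group
      _ = XT hA u (zz A l m) * (X hA e.1 (u ^ e.2) * XT hA u m) * XT hA u l := by rw [h2]; group
      _ = _ := by rw [h1]; group

/-- the list product lies in `L` -/
def Tm (hA : Good A) (L : Subgroup (GLM A K)) (u : K) (l : XC n) : Prop := XT hA u l ∈ L

theorem Tm_conj (hA : Good A) (hK : (2 : K) = 0) {L : Subgroup (GLM A K)} {u : K} {w : Wd n}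
    (hw : wok A w) (hL : NN hA w ∈ L) {l l' : XC n} (h : Tm hA L u l)
    (e : (wl A w l).Perm l' ∧ Pc A l') : Tm hA L u l' := by
  have h1 : Pc A (wl A w l) := Pc_perm e.1.symm e.2
  have h2 := L.mul_mem (L.mul_mem hL h) (L.inv_mem hL)
  rw [NN_XT hA hK u hw, mul_assoc, mul_inv_cancel, mul_one] at h2
  unfold Tm
  rw [← XT_perm hA u e.1 h1]
  exact h2

theorem Tm_com (hA : Good A) (hK : (2 : K) = 0) {L : Subgroup (GLM A K)} {u : K}
    {l m l' : XC n} (h1 : Tm hA L u l) (h2 : Tm hA L u m) (d : XC n)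
    (e : Zc A l m ∧ (zz A l m).Perm (d ++ d ++ l') ∧ Pc A (zz A l m)) : Tm hA L u l' := by
  have h3 := L.mul_mem (L.mul_mem (L.mul_mem h1 h2) (L.inv_mem h1)) (L.inv_mem h2)
  rw [com2 hA hK u e.1] at h3
  have h4 : XT hA u (zz A l m) * XT hA u m * XT hA u l * (XT hA u l)⁻¹ * (XT hA u m)⁻¹ =
    XT hA u (zz A l m) := by group
  rw [h4, XT_nf hA hK u d e.2.1 e.2.2] at h3
  exact h3

theorem Tm_prod (hA : Good A) (hK : (2 : K) = 0) {L : Subgroup (GLM A K)} {u : K}
    {l m l' : XC n} (h1 : Tm hA L u l) (h2 : Tm hA L u m) (d : XC n)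
    (e : (l ++ m).Perm (d ++ d ++ l') ∧ Pc A (l ++ m)) : Tm hA L u l' := by
  have h3 := L.mul_mem h1 h2
  rw [← XT_append, XT_nf hA hK u d e.1 e.2] at h3
  exact h3

theorem Lv_of_Tm (hA : Good A) {L : Subgroup (GLM A K)} {u : K} {v : Fin n → ℤ} {k : ℕ}
    (h : Tm hA L u [(v, k)]) : Lv hA L u v k := by
  have : XT hA u [(v, k)] = X hA v (u ^ k) := by
    show X hA v (u ^ k) * 1 = _
    rw [mul_one]
  unfold Tm at h
  rw [this] at h
  exact h

end H41Chev
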