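import Mathlib
import Pool.Agent.H.MP_0335f8_al.helper41.Two

/-!
# Torus elements and conjugacy in characteristic two
-/

namespace H41Chev

variable {n : ℕ} {A : Matrix (Fin n) (Fin n) ℤ} {K : Type*} [Field K]

/-- the torus element with character `v ↦ t ^ (w, v)` -/
def HH (A : Matrix (Fin n) (Fin n) ℤ) {K : Type*} [Field K] (w : Fin n → ℤ) (t : Kˣ) :
    GLM A K where
  toFun x := (fun v => ((t ^ ip A w v.1 : Kˣ) : K) * x.1 v, x.2)
  invFun x := (fun v => ((t ^ (-ip A w v.1) : Kˣ) : K) * x.1 v, x.2)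
  map_add' x y := by
    refine Prod.ext (funext fun v => ?_) rfl
    show _ * (x.1 v + y.1 v) = _ * x.1 v + _ * y.1 v
    ring
  map_smul' c x := by
    refine Prod.ext (funext fun v => ?_) rfl
    show _ * (c * x.1 v) = c * (_ * x.1 v)
    ring
  left_inv x := by
    refine Prod.ext (funext fun v => ?_) rfl
    show ((t ^ (-ip A w v.1) : Kˣ) : K) * (((t ^ ip A w v.1 : Kˣ) : K) * x.1 v) = x.1 v
    rw [← mul_assoc, ← Units.val_mul, ← zpow_add, neg_add_cancel, zpow_zero, Units.val_one,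
      one_mul]
  right_inv x := by
    refine Prod.ext (funext fun v => ?_) rfl
    show ((t ^ (ip A w v.1) : Kˣ) : K) * (((t ^ (-ip A w v.1) : Kˣ) : K) * x.1 v) = x.1 v
    rw [← mul_assoc, ← Units.val_mul, ← zpow_add, add_neg_cancel, zpow_zero, Units.val_one,
      one_mul]

theorem HH_fst (w : Fin n → ℤ) (t : Kˣ) (x : LieMod A K) {v : Fin n → ℤ} (hv : ip A v v = 2) :
    ev A (HH A w t x).1 v = ((t ^ ip A w v : Kˣ) : K) * ev A x.1 v := by
  unfold ev; rw [dif_pos hv, dif_pos hv]; rfl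

theorem HH_snd (w : Fin n → ℤ) (t : Kˣ) (x : LieMod A K) : (HH A w t x).2 = x.2 := rfl

theorem HH_add (w w' : Fin n → ℤ) (t : Kˣ) : HH A (w + w') t = HH A w t * HH A w' t := by
  refine gl_ext fun x => lm_ext (fun v hv => ?_) rfl
  show ev A (HH A (w + w') t x).1 v = ev A (HH A w t (HH A w' t x)).1 v
  rw [HH_fst _ _ _ hv, HH_fst _ _ _ hv, HH_fst _ _ _ hv, ip_add_left, zpow_add, Units.val_mul,
    mul_assoc]

theorem HH_zero (t : Kˣ) : HH A 0 t = 1 := by
  refine gl_ext fun x => lm_ext (fun v hv => ?_) rfl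
  show ev A (HH A 0 t x).1 v = ev A x.1 v
  rw [HH_fst _ _ _ hv, ip_zero_left, zpow_zero, Units.val_one, one_mul]

theorem HH_inv (w : Fin n → ℤ) (t : Kˣ) : (HH A w t)⁻¹ = HH A (-w) t := by
  rw [inv_eq_iff_mul_eq_one, ← HH_add, add_neg_cancel, HH_zero]

theorem HH_X (hA : Good A) (w b : Fin n → ℤ) (t : Kˣ) (s : K) :
    HH A w t * X hA b s = X hA b (((t ^ ip A w b : Kˣ) : K) * s) * HH A w t := by
  by_cases hb : ip A b b = 2
  swap
  · rw [X_not hA hb, X_not hA hb, one_mul, mul_one]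
  have hs : ((t ^ ip A w b : Kˣ) : K) * ((t ^ (-ip A w b) : Kˣ) : K) = 1 := by
    rw [← Units.val_mul, ← zpow_add, add_neg_cancel, zpow_zero, Units.val_one]
  refine gl_ext fun x => lm_ext (fun v hv => ?_) (funext fun i => ?_)
  · show ev A (HH A w t (X hA b s x)).1 v =
      ev A (X hA b (((t ^ ip A w b : Kˣ) : K) * s) (HH A w t x)).1 v
    rw [HH_fst _ _ _ hv, X_fst hA hb hv, X_fst hA hb hv]
    unfold opF
    rw [HH_fst _ _ _ hv, HH_snd]
    by_cases c1 : ip A b v = 1
    · have e : ((t ^ ip A w v : Kˣ) : K) =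
          ((t ^ ip A w b : Kˣ) : K) * ((t ^ ip A w (v - b) : Kˣ) : K) := by
        rw [← Units.val_mul, ← zpow_add, ← ip_add_right, add_sub_cancel]
      rw [if_pos c1, if_pos c1, if_neg (by omega), if_neg (by omega),
        HH_fst _ _ _ (root_sub hA hb hv c1), e]
      ring
    · rw [if_neg c1, if_neg c1]
      by_cases c2 : ip A b v = 2
      · have hbd := (cs hA hb hv).2.2.1 c2
        rw [if_pos c2, if_pos c2, ← hbd, HH_fst _ _ _ (root_neg hb), ip_neg_right]
        linear_combination (-((t ^ ip A w b : Kˣ) : K) * s ^ 2 * ev A x.1 (-b)) * hs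
      · rw [if_neg c2, if_neg c2]; ring
  · show (X hA b s x).2 i = (X hA b (((t ^ ip A w b : Kˣ) : K) * s) (HH A w t x)).2 i
    rw [X_snd hA hb, X_snd hA hb, HH_fst _ _ _ (root_neg hb), HH_snd, ip_neg_right]
    linear_combination (s * ev A x.1 (-b) * (b i : K)) * hs

theorem nn_HH (hA : Good A) {r : Fin n → ℤ} (hr : ip A r r = 2) (w : Fin n → ℤ) (t : Kˣ) :
    (nn hA r * HH A w t : GLM A K) = HH A (rf A r w) t * nn hA r := by
  refine gl_ext fun x => lm_ext (fun v hv => ?_) (funext fun i => ?_)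
  · show ev A (nn hA r (HH A w t x)).1 v = ev A (HH A (rf A r w) t (nn hA r x)).1 v
    rw [nn_fst hA hr hv, HH_fst _ _ _ (root_rf hA hr hv), HH_fst _ _ _ hv, nn_fst hA hr hv]
    have : ip A (rf A r w) v = ip A w (rf A r v) := by
      conv_lhs => rw [← rf_rf hr v]
      exact ip_rf hA hr _ _
    rw [this]; ring
  · show (nn hA r (HH A w t x)).2 i = (nn hA r x).2 i
    rw [nn_snd hA hr, nn_snd hA hr, HH_snd]

theorem HH_root_mem (hA : Good A) {r w : Fin n → ℤ} (hr : ip A r r = 2) (hw : ip A r w = 1)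
    (t : Kˣ) : HH A r t ∈ ChevalleyGroup A K := by
  have h1 : HH A w t * nn hA r * (HH A w t)⁻¹ = HH A r t * nn hA r := by
    rw [HH_inv, mul_assoc, nn_HH hA hr, ← mul_assoc, ← HH_add]
    congr 2
    unfold rf
    rw [ip_neg_right, hw, neg_smul, one_smul]
    abel
  have h2 : HH A w t * nn hA r * (HH A w t)⁻¹ =
      X hA r (((t ^ ip A w r : Kˣ) : K) * 1) * X hA (-r) (((t ^ ip A w (-r) : Kˣ) : K) * 1) *
        X hA r (((t ^ ip A w r : Kˣ) : K) * 1) := by
    have e1 := HH_X hA w r t (1 : K)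
    have e2 := HH_X hA w (-r) t (1 : K)
    unfold nn
    calc HH A w t * (X hA r 1 * X hA (-r) 1 * X hA r 1) * (HH A w t)⁻¹
        = (HH A w t * X hA r 1) * X hA (-r) 1 * X hA r 1 * (HH A w t)⁻¹ := by group
      _ = X hA r (((t ^ ip A w r : Kˣ) : K) * 1) * (HH A w t * X hA (-r) 1) * X hA r 1 *
          (HH A w t)⁻¹ := by rw [e1]; group
      _ = X hA r (((t ^ ip A w r : Kˣ) : K) * 1) * X hA (-r) (((t ^ ip A w (-r) : Kˣ) : K) * 1) *
          (HH A w t * X hA r 1) * (HH A w t)⁻¹ := by rw [e2]; group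
      _ = _ := by rw [e1]; group
  have h3 : HH A r t * nn hA r ∈ ChevalleyGroup A K := by
    rw [← h1, h2]
    exact Subgroup.mul_mem _ (Subgroup.mul_mem _ (X_mem hA _ _) (X_mem hA _ _)) (X_mem hA _ _)
  have h4 := Subgroup.mul_mem _ h3 (Subgroup.inv_mem _ (nn_mem hA r))
  rwa [mul_assoc, mul_inv_cancel, mul_one] at h4

/-! ### conjugacy -/

/-- conjugacy under the Chevalley group -/
def Cj (a b : GLM A K) : Prop := ∃ g ∈ ChevalleyGroup A K, g * a * g⁻¹ = b

theorem Cj.refl (a : GLM A K) : Cj a a := ⟨1, Subgroup.one_mem _, by group⟩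

theorem Cj.symm {a b : GLM A K} (h : Cj a b) : Cj b a := by
  obtain ⟨g, hg, rfl⟩ := h
  exact ⟨g⁻¹, Subgroup.inv_mem _ hg, by group⟩

theorem Cj.trans {a b c : GLM A K} (h : Cj a b) (h' : Cj b c) : Cj a c := by
  obtain ⟨g, hg, rfl⟩ := h
  obtain ⟨k, hk, rfl⟩ := h'
  exact ⟨k * g, Subgroup.mul_mem _ hk hg, by group⟩

/-- conjugacy of lists by words -/
theorem Cj_word (hA : Good A) (hK : (2 : K) = 0) (u : K) {w : Wd n} (hw : wok A w)
    {l l' : XC n} (e : (wl A w l).Perm l' ∧ Pc A l') :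
    Cj (XT hA u l : GLM A K) (XT hA u l') := by
  refine ⟨NN hA w, NN_mem hA w, ?_⟩
  rw [NN_XT hA hK u hw, mul_assoc, mul_inv_cancel, mul_one,
    XT_perm hA u e.1 (Pc_perm e.1.symm e.2)]

/-- the roots of the list are mutually orthogonal, each with a neighbour among the simple roots -/
def Orth (A : Matrix (Fin n) (Fin n) ℤ) (l : List (Fin n → ℤ)) : Prop :=
  (∀ r ∈ l, ip A r r = 2) ∧ l.Pairwise (fun r s => ip A r s = 0)

instance (l : List (Fin n → ℤ)) : Decidable (Orth A l) := by unfold Orth; infer_instance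

theorem Orth_cons {r : Fin n → ℤ} {l : List (Fin n → ℤ)} (h : Orth A (r :: l)) :
    ip A r r = 2 ∧ (∀ s ∈ l, ip A r s = 0) ∧ Orth A l := by
  obtain ⟨h1, h2⟩ := h
  rw [List.pairwise_cons] at h2
  exact ⟨h1 r (by simp), h2.1, fun s hs => h1 s (by simp [hs]), h2.2⟩

/-- products of Weyl elements of orthogonal roots are conjugate to products of root elements -/
theorem nn_to_X (hA : Good A) (hK : (2 : K) = 0) (u : K) {l : List (Fin n → ℤ)}
    (h : Orth A l) : ∃ g ∈ ChevalleyGroup A K,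
      g * NN hA (l.map (Prod.mk true)) * g⁻¹ = (XT hA u (l.map fun r => (r, 0)) : GLM A K) ∧
      ∀ v, (∀ r ∈ l, ip A r v = 0) → ∀ t : K, g * X hA v t = X hA v t * g := by
  induction l with
  | nil => exact ⟨1, Subgroup.one_mem _, by simp [NN, XT], fun v _ t => by rw [one_mul, mul_one]⟩
  | cons r l ih =>
    obtain ⟨hr, h1, h2⟩ := Orth_cons h
    obtain ⟨g, hg, e, hc⟩ := ih h2
    have c1 : ∀ t : K, g * X hA r t = X hA r t * g := hc r fun s hs => by rw [ip_comm hA, h1 s hs]
    have c2 : ∀ t : K, g * X hA (-r) t = X hA (-r) t * g :=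
      hc (-r) fun s hs => by rw [ip_neg_right, ip_comm hA, h1 s hs, neg_zero]
    have c3 : g * nn hA r = nn hA r * g := by
      unfold nn
      calc g * (X hA r 1 * X hA (-r) 1 * X hA r 1)
          = (g * X hA r 1) * X hA (-r) 1 * X hA r 1 := by group
        _ = X hA r 1 * (g * X hA (-r) 1) * X hA r 1 := by rw [c1]; group
        _ = X hA r 1 * X hA (-r) 1 * (g * X hA r 1) := by rw [c2]; group
        _ = _ := by rw [c1]; group
    have c4 : (nn hA r : GLM A K) = X hA (-r) 1 * X hA r 1 * X hA (-r) 1 := by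
      have h5 : (NN hA [(true, r)] : GLM A K) = NN hA [(true, -r)] := by
        refine NN_eq_two hA hK ?_ ?_ fun j => ?_
        · intro m hm _; rw [List.mem_singleton.1 hm]; exact hr
        · intro m hm _; rw [List.mem_singleton.1 hm]; exact root_neg hr
        · show rf A r _ = rf A (-r) _
          unfold rf; rw [ip_neg_left, smul_neg, neg_smul, neg_neg]
      have h6 : (NN hA [(true, r)] : GLM A K) = nn hA r := by
        show nn hA r * 1 = _; rw [mul_one]
      have h7 : (NN hA [(true, -r)] : GLM A K) = nn hA (-r) := by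
        show nn hA (-r) * 1 = _; rw [mul_one]
      rw [← h6, h5, h7]
      unfold nn; rw [neg_neg]
    have c5 : X hA (-r) 1 * (XT hA u (l.map fun r => (r, 0)) : GLM A K) =
        XT hA u (l.map fun r => (r, 0)) * X hA (-r) 1 := by
      refine X_XT hA u _ fun f hf => ?_
      obtain ⟨s, hs, rfl⟩ := List.mem_map.1 hf
      rw [ip_neg_left, h1 s hs]; norm_num
    have c6 := X_two hA hK (-r) (1 : K)
    refine ⟨X hA (-r) 1 * g, Subgroup.mul_mem _ (X_mem hA _ _) hg, ?_, ?_⟩
    · show X hA (-r) 1 * g * (nn hA r * NN hA (l.map (Prod.mk true))) * (X hA (-r) 1 * g)⁻¹ =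
        X hA r (u ^ 0) * XT hA u (l.map fun r => (r, 0))
      calc X hA (-r) 1 * g * (nn hA r * NN hA (l.map (Prod.mk true))) * (X hA (-r) 1 * g)⁻¹
          = X hA (-r) 1 * (g * nn hA r) * NN hA (l.map (Prod.mk true)) * g⁻¹ *
            (X hA (-r) 1)⁻¹ := by group
        _ = X hA (-r) 1 * nn hA r * (g * NN hA (l.map (Prod.mk true)) * g⁻¹) *
            (X hA (-r) 1)⁻¹ := by rw [c3]; group
        _ = X hA (-r) 1 * nn hA r * (XT hA u (l.map fun r => (r, 0)) * X hA (-r) 1) := by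
            rw [e, X_inv, show (-1 : K) = 1 by linear_combination (-1 : K) * hK]; group
        _ = X hA (-r) 1 * nn hA r * (X hA (-r) 1 * XT hA u (l.map fun r => (r, 0))) := by rw [c5]
        _ = (X hA (-r) 1 * X hA (-r) 1) * X hA r 1 * (X hA (-r) 1 * X hA (-r) 1) *
            XT hA u (l.map fun r => (r, 0)) := by rw [c4]; group
        _ = _ := by rw [c6, one_mul, mul_one, pow_zero]
    · intro v hv t
      have h3 : ip A (-r) v = 0 := by rw [ip_neg_left, hv r (by simp), neg_zero]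
      have h4 := hc v (fun s hs => hv s (by simp [hs])) t
      have h5 := X_comm hA (u := -r) (v := v) (by rw [h3]) (1 : K) t
      rw [mul_assoc, h4, ← mul_assoc, h5, mul_assoc]

/-- the parameters can be changed to one -/
theorem scale (hA : Good A) {u : K} (hsq : ∀ k : ℕ, ∃ t : Kˣ, (t : K) ^ 2 = u ^ k)
    (hroot : ∀ r, ip A r r = 2 → ∃ w, ip A r w = 1) {l : XC n}
    (h : Orth A (l.map Prod.fst)) : ∃ g ∈ ChevalleyGroup A K,
      g * XT hA u (l.map fun e => (e.1, 0)) * g⁻¹ = (XT hA u l : GLM A K) ∧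
      ∀ v, (∀ e ∈ l, ip A e.1 v = 0) → ∀ t : K, g * X hA v t = X hA v t * g := by
  induction l with
  | nil => exact ⟨1, Subgroup.one_mem _, by simp [XT], fun v _ t => by rw [one_mul, mul_one]⟩
  | cons e l ih =>
    obtain ⟨r, k⟩ := e
    obtain ⟨hr, h1, h2⟩ := Orth_cons h
    obtain ⟨g, hg, e, hc⟩ := ih h2
    obtain ⟨t, ht⟩ := hsq k
    obtain ⟨w, hw⟩ := hroot r hr
    have hm := HH_root_mem (K := K) hA hr hw t
    have h1' : ∀ f ∈ l, ip A r f.1 = 0 := fun f hf => h1 f.1 (List.mem_map_of_mem hf)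
    have c1 : ∀ s : K, g * X hA r s = X hA r s * g := hc r fun f hf => by rw [ip_comm hA, h1' f hf]
    have c2 : ∀ v, ip A r v = 0 → ∀ s : K, HH A r t * X hA v s = X hA v s * HH A r t := by
      intro v hv s
      rw [HH_X hA, hv, zpow_zero, Units.val_one, one_mul]
    have c3 : ∀ m : XC n, (∀ f ∈ m, ip A r f.1 = 0) →
        HH A r t * XT hA u m = XT hA u m * HH A r t := by
      intro m
      induction m with
      | nil => intro _; simp [XT]
      | cons f m ih =>
        intro hm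
        show HH A r t * (X hA f.1 (u ^ f.2) * XT hA u m) = X hA f.1 (u ^ f.2) * XT hA u m * HH A r t
        rw [← mul_assoc, c2 f.1 (hm f (by simp)), mul_assoc, ih fun f hf => hm f (by simp [hf]),
          mul_assoc]
    have c4 : HH A r t * X hA r 1 = X hA r (u ^ k) * HH A r t := by
      rw [HH_X hA, hr, mul_one, show (t ^ (2 : ℤ) : Kˣ) = t ^ 2 from rfl, Units.val_pow_eq_pow_val,
        ht]
    refine ⟨HH A r t * g, Subgroup.mul_mem _ hm hg, ?_, ?_⟩
    · show HH A r t * g * (X hA r (u ^ 0) * XT hA u (l.map fun e => (e.1, 0))) * (HH A r t * g)⁻¹ =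
        X hA r (u ^ k) * XT hA u l
      rw [pow_zero]
      calc HH A r t * g * (X hA r 1 * XT hA u (l.map fun e => (e.1, 0))) * (HH A r t * g)⁻¹
          = HH A r t * (g * X hA r 1) * XT hA u (l.map fun e => (e.1, 0)) * g⁻¹ *
            (HH A r t)⁻¹ := by group
        _ = (HH A r t * X hA r 1) * (g * XT hA u (l.map fun e => (e.1, 0)) * g⁻¹) *
            (HH A r t)⁻¹ := by rw [c1]; group
        _ = X hA r (u ^ k) * (HH A r t * XT hA u l) * (HH A r t)⁻¹ := by rw [c4, e]; group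
        _ = _ := by rw [c3 l h1']; group
    · intro v hv s
      have h4 := hc v (fun f hf => hv f (by simp [hf])) s
      have h5 := c2 v (hv (r, k) (by simp)) s
      rw [mul_assoc, h4, ← mul_assoc, h5, mul_assoc]

/-- the product of a Weyl word and two swapped root products -/
theorem swap_conj (hA : Good A) (hK : (2 : K) = 0) (u : K) {a : Wd n} (ha : wok A a)
    {q : XC n} {z : GLM A K} (h1 : Pc A q) (h2 : (XT hA u (wl A a q) : GLM A K) * z =
      z * XT hA u (wl A a q)) :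
    Cj (NN hA a * XT hA u q * XT hA u (wl A a q) * z : GLM A K) (NN hA a * z) := by
  have h3 : (XT hA u (wl A a q) * XT hA u (wl A a q) : GLM A K) = 1 := by
    have h4 : Pc A (wl A a q) := by
      intro e he f hf
      obtain ⟨e', he', rfl⟩ := List.mem_map.1 he
      obtain ⟨f', hf', rfl⟩ := List.mem_map.1 hf
      show 0 ≤ ip A (wv A a e'.1) (wv A a f'.1)
      rw [ip_wv hA ha]; exact h1 e' he' f' hf'
    rw [← XT_append]; exact XT_dd hA hK u h4
  have h5 : (XT hA u (wl A a q) : GLM A K)⁻¹ = XT hA u (wl A a q) := inv_eq_of_mul_eq_one_left h3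
  refine Cj.symm ⟨XT hA u (wl A a q), ?_, ?_⟩
  · have : ∀ l : XC n, (XT hA u l : GLM A K) ∈ ChevalleyGroup A K := by
      intro l
      induction l with
      | nil => exact Subgroup.one_mem _
      | cons e l ih => exact Subgroup.mul_mem _ (X_mem hA _ _) ih
    exact this _
  · rw [NN_XT hA hK u ha q, h5, mul_assoc, mul_assoc, ← h2]
    group

end H41Chev
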