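import Mathlib
import Pool.Agent.H.MP_0335f8_al.Defs
import Pool.Agent.H.MP_0335f8_cl.Low
import Pool.Agent.H.MP_0335f8_al.helper41.Tor

/-!
# Assembly: from three elements to the theorem; facts on finite fields
-/

namespace H41Chev

variable {n : ℕ} {A : Matrix (Fin n) (Fin n) ℤ} {K : Type*} [Field K]

/-- the coordinate vector of a root -/
noncomputable def bas (A : Matrix (Fin n) (Fin n) ℤ) (K : Type*) [Field K] (v : Fin n → ℤ) :
    LieMod A K := (fun w => if w.1 = v then 1 else 0, 0)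

theorem bas_fst (v : Fin n → ℤ) {w : Fin n → ℤ} (hw : ip A w w = 2) :
    ev A (bas A K v).1 w = if w = v then 1 else 0 := by
  unfold ev; rw [dif_pos hw]; rfl

theorem X_bas (hA : Good A) {v : Fin n → ℤ} (hv : ip A v v = 2) (t : K) :
    ev A (X hA v t (bas A K (-v))).1 v = t ^ 2 := by
  have h1 : ¬ v = -v := by
    intro h
    have := congrArg (ip A v) h
    rw [ip_neg_right, hv] at this; omega
  have h2 : pair A v (bas A K (-v)).2 = 0 := by
    unfold pair bas; simp
  rw [X_fst hA hv hv, opF_v2 _ _ _ hv, bas_fst _ hv, bas_fst _ (root_neg hv), if_neg h1, if_pos rfl,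
    h2]
  ring

theorem X_bas' (hA : Good A) {v : Fin n → ℤ} (hv : ip A v v = 2) (t : K) :
    ev A (X hA (-v) t (bas A K (-v))).1 v = 0 := by
  have h1 : ¬ v = -v := by
    intro h
    have := congrArg (ip A v) h
    rw [ip_neg_right, hv] at this; omega
  rw [X_fst hA (root_neg hv) hv, opF_v0 _ _ _ (by rw [ip_neg_left, hv]; norm_num)
    (by rw [ip_neg_left, hv]; norm_num), bas_fst _ hv, if_neg h1]

theorem X_ne_one (hA : Good A) {v : Fin n → ℤ} (hv : ip A v v = 2) :
    (X hA v 1 : GLM A K) ≠ 1 := by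
  intro h
  have h1 := X_bas (K := K) hA hv 1
  have h2 : ev A (bas A K (-v)).1 v = 0 := by
    rw [bas_fst _ hv, if_neg]
    intro h
    have := congrArg (ip A v) h
    rw [ip_neg_right, hv] at this; omega
  rw [h] at h1
  have h3 : ev A ((1 : GLM A K) (bas A K (-v))).1 v = ev A (bas A K (-v)).1 v := rfl
  rw [h3, h2] at h1
  simp at h1

theorem X_not_comm (hA : Good A) {v : Fin n → ℤ} (hv : ip A v v = 2) :
    (X hA v 1 * X hA (-v) 1 : GLM A K) ≠ X hA (-v) 1 * X hA v 1 := by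
  intro h
  have h1 : (nn hA v * X hA v 1 : GLM A K) = X hA v 1 * nn hA v := by
    unfold nn
    calc (X hA v 1 * X hA (-v) 1 * X hA v 1 * X hA v 1 : GLM A K)
        = X hA v 1 * (X hA (-v) 1 * X hA v 1) * X hA v 1 := by group
      _ = _ := by rw [← h]; group
  rw [nn_X hA hv] at h1
  have h2 := mul_right_cancel h1
  have h3 : rf A v v = -v := by unfold rf; rw [hv]; ext i; simp; ring
  rw [h3] at h2
  have h4 := X_bas (K := K) hA hv 1
  rw [← h2, X_bas' hA hv] at h4
  simp at h4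

/-- the lower bound -/
theorem lower (hA : Good A) {a b : Fin n → ℤ} (ha : ip A a a = 2) (hb : ip A b b = 2)
    (hab : ip A a b = -1) {k : ℕ} (h : H47Inv.Admissible ↥(ChevalleyGroup A K) k) : 5 ≤ k := by
  refine H47Cl.lower5_gen ?_ h
  have key : ∀ {a b : Fin n → ℤ}, ip A a a = 2 → ip A b b = 2 → ip A a b = -1 →
      (⟨X hA (a + b) 1, X_mem hA _ _⟩ : ↥(ChevalleyGroup A K)) ∈
        commutator ↥(ChevalleyGroup A K) := by
    intro a b ha hb hab
    set p : ↥(ChevalleyGroup A K) := ⟨X hA a ((eps A a b : ℤ) : K), X_mem hA _ _⟩ with hp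
    set q : ↥(ChevalleyGroup A K) := ⟨X hA b 1, X_mem hA _ _⟩ with hq
    have h1 : (⟨X hA (a + b) 1, X_mem hA _ _⟩ : ↥(ChevalleyGroup A K)) = p * q * p⁻¹ * q⁻¹ := by
      apply Subtype.ext
      show X hA (a + b) 1 = X hA a ((eps A a b : ℤ) : K) * X hA b 1 *
        (X hA a ((eps A a b : ℤ) : K))⁻¹ * (X hA b 1)⁻¹
      rw [X_com hA ha hb hab, sq_cast (eps_sq _ _), mul_one]
      group
    have h2 := Subgroup.commutator_mem_commutator (H₁ := (⊤ : Subgroup ↥(ChevalleyGroup A K)))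
      (H₂ := ⊤) (Subgroup.mem_top p) (Subgroup.mem_top q)
    rw [commutatorElement_def] at h2
    rw [h1]
    exact h2
  refine ⟨⟨X hA (a + b) 1, X_mem hA _ _⟩, key ha hb hab,
    ⟨X hA (-a + -b) 1, X_mem hA _ _⟩, key (root_neg ha) (root_neg hb)
      (by rw [ip_neg_left, ip_neg_right, neg_neg, hab]), ?_⟩
  intro h
  have h2 := congrArg Subtype.val h
  refine X_not_comm (K := K) hA (root_add hA ha hb hab) ?_
  rw [neg_add]
  exact h2

/-- the upper bound from three elements -/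
theorem asm (hA : Good A) {r : Fin n → ℤ} (hr : ip A r r = 2) {a b c : GLM A K}
    (ha : a ∈ ChevalleyGroup A K) (a2 : a * a = 1) (ab : a * b = b * a)
    (cb : Cj a b) (cab : Cj a (a * b)) (cc : Cj a c)
    (gen : ∀ L : Subgroup (GLM A K), a ∈ L → b ∈ L → c ∈ L → ChevalleyGroup A K ≤ L) :
    H47Inv.Admissible ↥(ChevalleyGroup A K) 5 := by
  have h1 : a ≠ 1 := by
    intro h
    have hb : b = 1 := by obtain ⟨g, -, hg⟩ := cb; rw [← hg, h]; group
    have hc : c = 1 := by obtain ⟨g, -, hg⟩ := cc; rw [← hg, h]; group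
    have := gen ⊥ (by rw [h]; exact Subgroup.one_mem _) (by rw [hb]; exact Subgroup.one_mem _)
      (by rw [hc]; exact Subgroup.one_mem _) (X_mem hA r (1 : K))
    exact X_ne_one hA hr (Subgroup.mem_bot.1 this)
  have cm : ∀ {x : GLM A K}, Cj a x → x ∈ ChevalleyGroup A K := by
    rintro x ⟨g, hg, rfl⟩
    exact Subgroup.mul_mem _ (Subgroup.mul_mem _ hg ha) (Subgroup.inv_mem _ hg)
  have co : ∀ {x : GLM A K}, Cj a x → x * x = 1 ∧ x ≠ 1 := by
    rintro x ⟨g, hg, rfl⟩
    constructor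
    · calc g * a * g⁻¹ * (g * a * g⁻¹) = g * (a * a) * g⁻¹ := by group
        _ = 1 := by rw [a2]; group
    · intro h
      apply h1
      calc a = g⁻¹ * (g * a * g⁻¹) * g := by group
        _ = 1 := by rw [h]; group
  set G := ChevalleyGroup A K with hG
  set ta : ↥G := ⟨a, ha⟩ with hta
  set tb : ↥G := ⟨b, cm cb⟩ with htb
  set tc : ↥G := ⟨c, cm cc⟩ with htc
  have cj : ∀ x : ↥G, Cj a x.1 → IsConj ta x := by
    rintro ⟨x, hx⟩ ⟨g, hg, h⟩
    rw [isConj_iff]
    exact ⟨⟨g, hg⟩, Subtype.ext h⟩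
  have ord : ∀ x : ↥G, Cj a x.1 → orderOf x = 2 := by
    intro x hx
    obtain ⟨h2, h3⟩ := co hx
    refine orderOf_eq_prime ?_ ?_
    · rw [pow_two]; exact Subtype.ext h2
    · intro h; exact h3 (congrArg Subtype.val h)
  have all : ∀ i : Fin 5, Cj a ((![ta, tb, ta * tb, tc, tc] : Fin 5 → ↥G) i).1 := by
    intro i
    fin_cases i
    · exact Cj.refl a
    · exact cb
    · exact cab
    · exact cc
    · exact cc
  refine ⟨![ta, tb, ta * tb, tc, tc], fun i => ord _ (all i), fun i j =>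
    (cj _ (all i)).symm.trans (cj _ (all j)), ?_, ?_⟩
  · rw [eq_top_iff]
    intro g _
    set H := Subgroup.closure (Set.range (![ta, tb, ta * tb, tc, tc] : Fin 5 → ↥G)) with hH
    have m : ∀ i : Fin 5, ((![ta, tb, ta * tb, tc, tc] : Fin 5 → ↥G) i).1 ∈ H.map G.subtype :=
      fun i => ⟨_, Subgroup.subset_closure ⟨i, rfl⟩, rfl⟩
    have := gen (H.map G.subtype) (m 0) (m 1) (m 3) g.2
    obtain ⟨g', hg', e⟩ := this
    have : g' = g := Subtype.ext e
    rw [← this]; exact hg'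
  · have e : (List.ofFn (![ta, tb, ta * tb, tc, tc] : Fin 5 → ↥G)).prod =
        ta * (tb * (ta * tb * (tc * (tc * 1)))) := by
      simp [List.ofFn_succ]
    rw [e]
    apply Subtype.ext
    show a * (b * (a * b * (c * (c * 1)))) = 1
    have c2 := (co cc).1
    have b2 := (co cb).1
    calc a * (b * (a * b * (c * (c * 1)))) = a * b * (a * b) * (c * c) := by group
      _ = a * b * (b * a) := by rw [c2, ← ab, mul_one]
      _ = a * (b * b) * a := by group
      _ = 1 := by rw [b2, mul_one, a2]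

/-! ### finite fields -/

theorem exists_gen (K : Type*) [Field K] [Finite K] :
    ∃ u : K, u ≠ 0 ∧ ∀ x : K, x ≠ 0 → ∃ k : ℕ, x = u ^ k := by
  obtain ⟨g, hg⟩ := IsCyclic.exists_monoid_generator (α := Kˣ)
  refine ⟨g, g.ne_zero, fun x hx => ?_⟩
  obtain ⟨k, hk⟩ := hg (Units.mk0 x hx)
  refine ⟨k, ?_⟩
  have := congrArg Units.val hk
  simpa using this.symm

theorem sp_odd {K : Type*} [Field K] [Finite K] (h2 : (2 : K) ≠ 0) {u : K}
    (hu : ∀ x : K, x ≠ 0 → ∃ k : ℕ, x = u ^ k) : Sp u 2 := by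
  unfold Sp
  rw [eq_top_iff]
  intro x _
  have hs : ∀ y : K, y ^ 2 ∈ AddSubgroup.closure (Set.range fun i : ℕ => u ^ (2 * i)) := by
    intro y
    by_cases hy : y = 0
    · rw [hy]; simp
    · obtain ⟨k, rfl⟩ := hu y hy
      refine AddSubgroup.subset_closure ⟨k, ?_⟩
      show u ^ (2 * k) = (u ^ k) ^ 2
      ring
  haveI := Fintype.ofFinite K
  have hc : Fintype.card K % 2 = 1 := by
    refine (FiniteField.odd_card_of_char_ne_two ?_)
    intro h
    apply h2
    have := CharP.cast_eq_zero K (ringChar K)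
    rw [h] at this
    exact_mod_cast this
  obtain ⟨a, b, hab⟩ := FiniteField.exists_root_sum_quadratic (f := Polynomial.X ^ 2 - Polynomial.C x)
    (g := (Polynomial.X ^ 2 : Polynomial K)) (Polynomial.degree_X_pow_sub_C (by norm_num) _)
    (Polynomial.degree_X_pow 2) hc
  simp only [Polynomial.eval_sub, Polynomial.eval_pow, Polynomial.eval_X, Polynomial.eval_C] at hab
  have e : x = a ^ 2 + b ^ 2 := by linear_combination (-1 : K) * hab
  rw [e]
  exact AddSubgroup.add_mem _ (hs a) (hs b)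

theorem sq_two {K : Type*} [Field K] [Finite K] (h2 : (2 : K) = 0) (x : K) : ∃ y, y ^ 2 = x := by
  have hr : ringChar K = 2 := by
    have h3 : ringChar K ∣ 2 := (ringChar.spec K 2).1 (by exact_mod_cast h2)
    have h4 : ringChar K ≠ 1 := by
      intro h
      exact CharP.ringChar_ne_one h
    exact (Nat.dvd_prime Nat.prime_two).1 h3 |>.resolve_left h4
  obtain ⟨y, hy⟩ := FiniteField.isSquare_of_char_two hr x
  exact ⟨y, by rw [hy]; ring⟩

theorem sp_two {K : Type*} [Field K] [Finite K] (h2 : (2 : K) = 0) {u : K}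
    (hu : ∀ x : K, x ≠ 0 → ∃ k : ℕ, x = u ^ k) (j : ℕ) : Sp u (2 ^ j) := by
  have hp : ∀ j : ℕ, ∀ x : K, ∃ y, y ^ (2 ^ j) = x := by
    intro j
    induction j with
    | zero => intro x; exact ⟨x, by simp⟩
    | succ j ih =>
      intro x
      obtain ⟨y, hy⟩ := ih x
      obtain ⟨z, hz⟩ := sq_two h2 y
      exact ⟨z, by rw [pow_succ', pow_mul, hz, hy]⟩
  unfold Sp
  rw [eq_top_iff]
  intro x _
  obtain ⟨y, rfl⟩ := hp j x
  by_cases hy : y = 0
  · rw [hy, zero_pow (by positivity)]; exact AddSubgroup.zero_mem _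
  · obtain ⟨k, rfl⟩ := hu y hy
    refine AddSubgroup.subset_closure ⟨k, ?_⟩
    show u ^ (2 ^ j * k) = (u ^ k) ^ 2 ^ j
    ring

theorem sq_unit {K : Type*} [Field K] [Finite K] (h2 : (2 : K) = 0) {u : K} (hu : u ≠ 0) (k : ℕ) :
    ∃ t : Kˣ, (t : K) ^ 2 = u ^ k := by
  obtain ⟨y, hy⟩ := sq_two h2 (u ^ k)
  have : y ≠ 0 := by
    rintro rfl
    exact pow_ne_zero k hu (by rw [← hy]; simp)
  exact ⟨Units.mk0 y this, hy⟩

end H41Chev
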