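import Mathlib
import Pool.Agent.H.MP_0335f8_al.helper41.Tor

/-!
# Four orthogonal roots with half sum in the lattice, characteristic two
-/

set_option linter.unusedSimpArgs false
set_option linter.unusedVariables false

namespace H41Chev

variable {n : ℕ} {A : Matrix (Fin n) (Fin n) ℤ} {K : Type*} [Field K]

theorem d4_group {G : Type*} [Group G] {a a' b b' c c' d z B C D : G}
    (ha : a * a = 1) (hb : b * b = 1) (hc' : c' * c' = 1) (hd : d * d = 1) (hz : z * z = 1)
    (A1 : a * c = c * a) (A2 : a * b' = b' * a) (A3 : a * a' = z * a' * a)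
    (B1 : B * c = a * c * B) (B2 : B * b' = b' * B) (B3 : B * z = z * B)
    (B4 : B * a' = c' * a' * B)
    (C1 : C * a = d * a * C) (C2 : C * c = b * c * C) (C3 : C * b' = c' * b' * C)
    (C4 : C * z = z * C) (C5 : C * c' = c' * C) (C6 : C * a' = a' * C)
    (D1 : D * d = d * D) (D2 : D * a = a * D) (D3 : D * b = b * D) (D4 : D * c = c * D)
    (D5 : D * c' = d * c' * D) (D6 : D * b' = a * b' * D) (D7 : D * z = z * D)
    (D8 : D * a' = b * a' * D)
    (hda : d * a = a * d) (hda' : d * a' = a' * d) (hdb : d * b = b * d) (hdc : d * c = c * d)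
    (hdc' : d * c' = c' * d) (hzc' : z * c' = c' * z) (bb : b * b' = b' * b * z)
    (ac : a * c' = c' * a) (ab : a * b = b * a) (bc : b * c = c * b) (cb : c' * b' = b' * c') :
    (D * C * B * a) * (c * b' * a') * (D * C * B * a)⁻¹ = c * b' * a' * d := by
  have e1 : a * (c * b' * a') = c * b' * z * a' * a := by
    calc a * (c * b' * a') = (a * c) * b' * a' := by group
      _ = c * (a * b') * a' := by rw [A1]; group
      _ = c * b' * (a * a') := by rw [A2]; group
      _ = _ := by rw [A3]; group
  have e2 : B * (c * b' * z * a') = a * c * b' * z * c' * a' * B := by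
    calc B * (c * b' * z * a') = (B * c) * b' * z * a' := by group
      _ = a * c * (B * b') * z * a' := by rw [B1]; group
      _ = a * c * b' * (B * z) * a' := by rw [B2]; group
      _ = a * c * b' * z * (B * a') := by rw [B3]; group
      _ = _ := by rw [B4]; group
  have e3 : C * (a * c * b' * z * c' * a') = d * a * b * c * c' * b' * z * c' * a' * C := by
    calc C * (a * c * b' * z * c' * a') = (C * a) * c * b' * z * c' * a' := by group
      _ = d * a * (C * c) * b' * z * c' * a' := by rw [C1]; group
      _ = d * a * b * c * (C * b') * z * c' * a' := by rw [C2]; group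
      _ = d * a * b * c * c' * b' * (C * z) * c' * a' := by rw [C3]; group
      _ = d * a * b * c * c' * b' * z * (C * c') * a' := by rw [C4]; group
      _ = d * a * b * c * c' * b' * z * c' * (C * a') := by rw [C5]; group
      _ = _ := by rw [C6]; group
  have e4 : D * (d * a * b * c * c' * b' * z * c' * a') =
      d * a * b * c * d * c' * a * b' * z * d * c' * b * a' * D := by
    calc D * (d * a * b * c * c' * b' * z * c' * a')
        = (D * d) * a * b * c * c' * b' * z * c' * a' := by group
      _ = d * (D * a) * b * c * c' * b' * z * c' * a' := by rw [D1]; group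
      _ = d * a * (D * b) * c * c' * b' * z * c' * a' := by rw [D2]; group
      _ = d * a * b * (D * c) * c' * b' * z * c' * a' := by rw [D3]; group
      _ = d * a * b * c * (D * c') * b' * z * c' * a' := by rw [D4]; group
      _ = d * a * b * c * d * c' * (D * b') * z * c' * a' := by rw [D5]; group
      _ = d * a * b * c * d * c' * a * b' * (D * z) * c' * a' := by rw [D6]; group
      _ = d * a * b * c * d * c' * a * b' * z * (D * c') * a' := by rw [D7]; group
      _ = d * a * b * c * d * c' * a * b' * z * d * c' * (D * a') := by rw [D5]; group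
      _ = _ := by rw [D8]; group
  have f1 : (D * C * B * a) * (c * b' * a') = d * a * b * c * d * c' * a * b' * z * d * c' * b * a' *
      (D * C * B * a) := by
    calc (D * C * B * a) * (c * b' * a') = D * C * B * (a * (c * b' * a')) := by group
      _ = D * C * (B * (c * b' * z * a')) * a := by rw [e1]; group
      _ = D * (C * (a * c * b' * z * c' * a')) * B * a := by rw [e2]; group
      _ = (D * (d * a * b * c * c' * b' * z * c' * a')) * C * B * a := by rw [e3]; group
      _ = _ := by rw [e4]; group
  have g1 : d * a * b * c * d * c' * a * b' * z * d * c' * b * a' = c * b' * a' * d := by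
    calc d * a * b * c * d * c' * a * b' * z * d * c' * b * a'
        = (d * a) * b * c * d * c' * a * b' * z * d * c' * b * a' := by group
      _ = a * (d * b) * c * d * c' * a * b' * z * d * c' * b * a' := by rw [hda]; group
      _ = a * b * (d * c) * d * c' * a * b' * z * d * c' * b * a' := by rw [hdb]; group
      _ = a * b * c * (d * d) * c' * a * b' * z * d * c' * b * a' := by rw [hdc]; group
      _ = a * b * c * c' * a * b' * z * (d * c') * b * a' := by rw [hd]; group
      _ = a * b * c * c' * a * b' * z * c' * (d * b) * a' := by rw [hdc']; group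
      _ = a * b * c * c' * a * b' * z * c' * b * (d * a') := by rw [hdb]; group
      _ = a * b * c * (c' * a) * b' * z * c' * b * a' * d := by rw [hda']; group
      _ = a * b * (c * a) * c' * b' * z * c' * b * a' * d := by rw [← ac]; group
      _ = a * (b * a) * c * c' * b' * z * c' * b * a' * d := by rw [← A1]; group
      _ = (a * a) * b * c * c' * b' * z * c' * b * a' * d := by rw [← ab]; group
      _ = b * c * (c' * b') * z * c' * b * a' * d := by rw [ha]; group
      _ = b * c * b' * (c' * z) * c' * b * a' * d := by rw [cb]; group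
      _ = b * c * b' * z * (c' * c') * b * a' * d := by rw [← hzc']; group
      _ = (b * c) * b' * z * b * a' * d := by rw [hc']; group
      _ = c * (b * b') * z * b * a' * d := by rw [bc]; group
      _ = c * b' * b * (z * z) * b * a' * d := by rw [bb]; group
      _ = c * b' * (b * b) * a' * d := by rw [hz]; group
      _ = _ := by rw [hb]; group
  rw [f1, g1]
  group

/-- four orthogonal roots with half sum `h` -/
def Fr (A : Matrix (Fin n) (Fin n) ℤ) (r1 r2 r3 r4 h : Fin n → ℤ) : Prop :=
  Orth A [r1, r2, r3, r4] ∧ r1 + r2 + r3 + r4 = h + h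

instance (r1 r2 r3 r4 h : Fin n → ℤ) : Decidable (Fr A r1 r2 r3 r4 h) := by
  unfold Fr; infer_instance

theorem X_com1 (hA : Good A) (hK : (2 : K) = 0) {u v w : Fin n → ℤ} (hu : ip A u u = 2)
    (hv : ip A v v = 2) (h : ip A u v = -1) (e : u + v = w) :
    (X hA u 1 * X hA v 1 : GLM A K) = X hA w 1 * X hA v 1 * X hA u 1 := by
  rw [X_com hA hu hv h, cast_one (eps_sq _ _) hK, one_mul, one_mul, e]

theorem X_com2 (hA : Good A) (hK : (2 : K) = 0) {u v w : Fin n → ℤ} (hu : ip A u u = 2)
    (hv : ip A v v = 2) (h : ip A u v = -1) (e : u + v = w) :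
    (X hA u 1 * X hA v 1 : GLM A K) = X hA v 1 * X hA u 1 * X hA w 1 := by
  have hw : ip A w w = 2 := by rw [← e]; exact root_add hA hu hv h
  have h1 : 0 ≤ ip A w v := by rw [← e, ip_add_left, hv, h]; norm_num
  have h2 : 0 ≤ ip A w u := by rw [← e, ip_add_left, hu, ip_comm hA v u, h]; norm_num
  rw [X_com1 hA hK hu hv h e, X_comm hA h1, mul_assoc, X_comm hA h2, ← mul_assoc]

theorem d4_conj (hA : Good A) (hK : (2 : K) = 0) {r1 r2 r3 r4 h : Fin n → ℤ}
    (H : Fr A r1 r2 r3 r4 h) (u : K) :
    Cj (XT hA u [(r1, 0), (r2, 0), (r3, 0)] : GLM A K)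
      (XT hA u [(r1, 0), (r2, 0), (r3, 0), (r4, 0)]) := by
  obtain ⟨⟨hr, ho⟩, hs⟩ := H
  have n1 : ip A r1 r1 = 2 := hr r1 (by simp)
  have n2 : ip A r2 r2 = 2 := hr r2 (by simp)
  have n3 : ip A r3 r3 = 2 := hr r3 (by simp)
  have n4 : ip A r4 r4 = 2 := hr r4 (by simp)
  simp only [List.pairwise_cons, List.mem_cons, List.not_mem_nil, or_false, forall_eq_or_imp,
    forall_eq] at ho
  obtain ⟨⟨o12, o13, o14⟩, ⟨o23, o24⟩, o34, -⟩ := ho
  have o21 : ip A r2 r1 = 0 := by rw [ip_comm hA, o12]
  have o31 : ip A r3 r1 = 0 := by rw [ip_comm hA, o13]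
  have o41 : ip A r4 r1 = 0 := by rw [ip_comm hA, o14]
  have o32 : ip A r3 r2 = 0 := by rw [ip_comm hA, o23]
  have o42 : ip A r4 r2 = 0 := by rw [ip_comm hA, o24]
  have o43 : ip A r4 r3 = 0 := by rw [ip_comm hA, o34]
  have hh1 : ∀ w, 2 * ip A w h = ip A w r1 + ip A w r2 + ip A w r3 + ip A w r4 := by
    intro w
    have := congrArg (ip A w) hs
    rw [ip_add_right, ip_add_right, ip_add_right, ip_add_right] at this
    omega
  have i1 : ip A r1 h = 1 := by have := hh1 r1; omega
  have i2 : ip A r2 h = 1 := by have := hh1 r2; omega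
  have i3 : ip A r3 h = 1 := by have := hh1 r3; omega
  have i4 : ip A r4 h = 1 := by have := hh1 r4; omega
  have j1 : ip A h r1 = 1 := by rw [ip_comm hA, i1]
  have j2 : ip A h r2 = 1 := by rw [ip_comm hA, i2]
  have j3 : ip A h r3 = 1 := by rw [ip_comm hA, i3]
  have j4 : ip A h r4 = 1 := by rw [ip_comm hA, i4]
  have ihh : ip A h h = 2 := by have := hh1 h; omega
  have s4 : r4 = h + h - r1 - r2 - r3 := by rw [← hs]; abel
  have D : (X hA (h - r3 - r2) 1 * X hA (h - r1 - r2) 1 * X hA (h - r3 - r1) 1 * X hA (h - r3) 1) *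
      (X hA r1 1 * X hA r2 1 * X hA r3 1) *
      (X hA (h - r3 - r2) 1 * X hA (h - r1 - r2) 1 * X hA (h - r3 - r1) 1 * X hA (h - r3) 1)⁻¹ =
      (X hA r1 1 * X hA r2 1 * X hA r3 1 * X hA r4 1 : GLM A K) := by
    apply d4_group (G := GLM A K) (a := X hA (h - r3) 1) (a' := X hA r3 1)
      (b := X hA (h - r2) 1) (b' := X hA r2 1) (c := X hA r1 1) (c' := X hA (h - r1) 1)
      (d := X hA r4 1) (z := X hA h 1) (B := X hA (h - r3 - r1) 1) (C := X hA (h - r1 - r2) 1)
      (D := X hA (h - r3 - r2) 1)
    all_goals first
      | exact X_two hA hK _ _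
      | exact X_comm hA (by
          simp only [ip_sub_left, ip_sub_right, n1, n2, n3, n4, o12, o13, o14, o23, o24, o34,
            o21, o31, o41, o32, o42, o43, i1, i2, i3, i4, j1, j2, j3, j4, ihh]
          norm_num) 1 1
      | exact X_com1 hA hK
          (by
            simp only [ip_sub_left, ip_sub_right, n1, n2, n3, n4, o12, o13, o14, o23, o24, o34,
              o21, o31, o41, o32, o42, o43, i1, i2, i3, i4, j1, j2, j3, j4, ihh]
            try norm_num)
          (by
            simp only [ip_sub_left, ip_sub_right, n1, n2, n3, n4, o12, o13, o14, o23, o24, o34,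
              o21, o31, o41, o32, o42, o43, i1, i2, i3, i4, j1, j2, j3, j4, ihh]
            try norm_num)
          (by
            simp only [ip_sub_left, ip_sub_right, n1, n2, n3, n4, o12, o13, o14, o23, o24, o34,
              o21, o31, o41, o32, o42, o43, i1, i2, i3, i4, j1, j2, j3, j4, ihh]
            try norm_num)
          (by rw [s4]; abel)
      | exact X_com1 hA hK
          (by
            simp only [ip_sub_left, ip_sub_right, n1, n2, n3, n4, o12, o13, o14, o23, o24, o34,
              o21, o31, o41, o32, o42, o43, i1, i2, i3, i4, j1, j2, j3, j4, ihh]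
            try norm_num)
          (by
            simp only [ip_sub_left, ip_sub_right, n1, n2, n3, n4, o12, o13, o14, o23, o24, o34,
              o21, o31, o41, o32, o42, o43, i1, i2, i3, i4, j1, j2, j3, j4, ihh]
            try norm_num)
          (by
            simp only [ip_sub_left, ip_sub_right, n1, n2, n3, n4, o12, o13, o14, o23, o24, o34,
              o21, o31, o41, o32, o42, o43, i1, i2, i3, i4, j1, j2, j3, j4, ihh]
            try norm_num)
          (by abel)
      | exact X_com2 hA hK
          (by
            simp only [ip_sub_left, ip_sub_right, n1, n2, n3, n4, o12, o13, o14, o23, o24, o34,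
              o21, o31, o41, o32, o42, o43, i1, i2, i3, i4, j1, j2, j3, j4, ihh]
            try norm_num)
          (by
            simp only [ip_sub_left, ip_sub_right, n1, n2, n3, n4, o12, o13, o14, o23, o24, o34,
              o21, o31, o41, o32, o42, o43, i1, i2, i3, i4, j1, j2, j3, j4, ihh]
            try norm_num)
          (by
            simp only [ip_sub_left, ip_sub_right, n1, n2, n3, n4, o12, o13, o14, o23, o24, o34,
              o21, o31, o41, o32, o42, o43, i1, i2, i3, i4, j1, j2, j3, j4, ihh]
            try norm_num)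
          (by abel)
  refine ⟨X hA (h - r3 - r2) 1 * X hA (h - r1 - r2) 1 * X hA (h - r3 - r1) 1 * X hA (h - r3) 1,
    ?_, ?_⟩
  · exact Subgroup.mul_mem _ (Subgroup.mul_mem _ (Subgroup.mul_mem _ (X_mem hA _ _) (X_mem hA _ _))
      (X_mem hA _ _)) (X_mem hA _ _)
  · simp only [XT, pow_zero, mul_one]
    simp only [mul_assoc] at D ⊢
    exact D

end H41Chev
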