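import Mathlib
import Pool.Agent.H.MP_0335f8_al.helper41.D4
import Pool.Agent.H.MP_0335f8_al.helper41.Asm

/-!
# The upper bound in characteristic two from a certificate
-/

namespace H41Chev

variable {n : ℕ} {A : Matrix (Fin n) (Fin n) ℤ} {K : Type*} [Field K]

theorem hroot_of (hA : Good A)
    (hn : ∀ i, ∃ j, ip A (Pi.single i 1) (Pi.single j 1) = -1) :
    ∀ r, ip A r r = 2 → ∃ w, ip A r w = 1 := by
  intro r hr
  obtain ⟨i, hi⟩ := root_cases hr
  have c := cs hA hr (single_root hA i)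
  have h0 : ip A r (Pi.single i 1) ≠ 0 := by rcases hi with h | h <;> omega
  obtain ⟨j, hj⟩ := hn i
  rcases (by omega : ip A r (Pi.single i 1) = 1 ∨ ip A r (Pi.single i 1) = -1 ∨
    ip A r (Pi.single i 1) = 2 ∨ ip A r (Pi.single i 1) = -2) with h | h | h | h
  · exact ⟨_, h⟩
  · exact ⟨-Pi.single i 1, by rw [ip_neg_right, h]; norm_num⟩
  · refine ⟨-Pi.single j 1, ?_⟩
    rw [c.2.2.1 h, ip_neg_right, hj]; norm_num
  · refine ⟨Pi.single j 1, ?_⟩
    rw [c.2.2.2 h, ip_neg_left, hj]; norm_num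

/-- the roots of a list with parameter one -/
def z0 (l : List (Fin n → ℤ)) : XC n := l.map fun r => (r, 0)

/-- the certificate data common to all designs in characteristic two -/
def Cert2 (A : Matrix (Fin n) (Fin n) ℤ) (la lc : List (Fin n → ℤ)) (lb q z : XC n)
    (wb wc : Wd n) : Prop :=
  Orth A la ∧ Orth A lc ∧ Orth A (lb.map Prod.fst) ∧
  (∀ j, wv A (la.map (Prod.mk true)) (wv A (la.map (Prod.mk true)) (Pi.single j 1)) =
    Pi.single j 1) ∧
  (wl A (la.map (Prod.mk true)) lb).Perm lb ∧ Pc A lb ∧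
  lb.Perm (q ++ wl A (la.map (Prod.mk true)) q ++ z) ∧
  wok A wb ∧ (wl A wb (z0 (lb.map Prod.fst))).Perm (z0 la) ∧
  wok A wc ∧ (wl A wc (z0 lc)).Perm (z0 la)

instance (la lc : List (Fin n → ℤ)) (lb q z : XC n) (wb wc : Wd n) :
    Decidable (Cert2 A la lc lb q z wb wc) := by unfold Cert2; infer_instance

theorem Fl_eq (hA : Good A) {L : Subgroup (GLM A K)} {v v' : Fin n → ℤ} (h : Fl hA L v)
    (e : v = v') : Fl hA L v' := e ▸ h

theorem Lv_sum' (hA : Good A) {L : Subgroup (GLM A K)} {u : K} {v w s : Fin n → ℤ} {k m t : ℕ}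
    (h1 : Lv hA L u v k) (h2 : Lv hA L u w m) (e : Sm A v w s ∧ k + m = t) : Lv hA L u s t :=
  e.2 ▸ Lv_sum hA h1 h2 e.1

theorem Fl_loop' (hA : Good A) {L : Subgroup (GLM A K)} {u : K} (hu : u ≠ 0)
    {v d d' : Fin n → ℤ} {j k m t : ℕ} (hs : Sp u t)
    (h3 : Lv hA L u v j) (h1 : Lv hA L u d k) (h2 : Lv hA L u d' m)
    (e : (ip A v v = 2 ∧ ip A d d = 2 ∧ ip A v d = -1 ∧ -d = d') ∧ k + m = t) : Fl hA L v :=
  Fl_loop hA hu (e.2 ▸ hs) h3 h1 h2 e.1

theorem Tm_conj_eq (hA : Good A) (hK : (2 : K) = 0) {L : Subgroup (GLM A K)} {u : K} {w : Wd n}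
    (hw : wok A w) (hL : NN hA w ∈ L) {l l' : XC n} (h : Tm hA L u l)
    (e : wl A w l = l') : Tm hA L u l' := by
  have h2 := L.mul_mem (L.mul_mem hL h) (L.inv_mem hL)
  rw [NN_XT hA hK u hw, mul_assoc, mul_inv_cancel, mul_one, e] at h2
  exact h2

theorem Tm_com_eq (hA : Good A) (hK : (2 : K) = 0) {L : Subgroup (GLM A K)} {u : K}
    {l m l' : XC n} (h1 : Tm hA L u l) (h2 : Tm hA L u m)
    (e : Zc A l m ∧ zz A l m = l') : Tm hA L u l' := by
  have h3 := L.mul_mem (L.mul_mem (L.mul_mem h1 h2) (L.inv_mem h1)) (L.inv_mem h2)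
  rw [com2 hA hK u e.1] at h3
  have h4 : XT hA u (zz A l m) * XT hA u m * XT hA u l * (XT hA u l)⁻¹ * (XT hA u m)⁻¹ =
    XT hA u (zz A l m) := by group
  rw [h4, e.2] at h3
  exact h3

theorem all8 {P : Fin 8 → Prop} (h0 : P 0) (h1 : P 1) (h2 : P 2) (h3 : P 3) (h4 : P 4)
    (h5 : P 5) (h6 : P 6) (h7 : P 7) : ∀ j, P j := by
  intro j; fin_cases j <;> assumption

theorem all7 {P : Fin 7 → Prop} (h0 : P 0) (h1 : P 1) (h2 : P 2) (h3 : P 3) (h4 : P 4)
    (h5 : P 5) (h6 : P 6) : ∀ j, P j := by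
  intro j; fin_cases j <;> assumption

theorem all6 {P : Fin 6 → Prop} (h0 : P 0) (h1 : P 1) (h2 : P 2) (h3 : P 3) (h4 : P 4)
    (h5 : P 5) : ∀ j, P j := by
  intro j; fin_cases j <;> assumption

theorem Orth_wok {l : List (Fin n → ℤ)} (h : Orth A l) : wok A (l.map (Prod.mk true)) := by
  intro m hm _
  obtain ⟨r, hr, rfl⟩ := List.mem_map.1 hm
  exact h.1 r hr

theorem Orth_Pc {l : List (Fin n → ℤ)} (hA : Good A) (h : Orth A l) : Pc A (z0 l) := by
  intro e he f hf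
  obtain ⟨r, hr, rfl⟩ := List.mem_map.1 he
  obtain ⟨s, hs, rfl⟩ := List.mem_map.1 hf
  show 0 ≤ ip A r s
  by_cases e : r = s
  · rw [e, h.1 s hs]; norm_num
  · have hsym : ∀ x y : Fin n → ℤ, ip A x y = 0 → ip A y x = 0 := fun x y h => by
      rw [ip_comm hA, h]
    haveI : Std.Symm (fun r s : Fin n → ℤ => ip A r s = 0) := ⟨fun x y => hsym x y⟩
    have h4 : ip A r s = 0 := List.Pairwise.forall h.2 hr hs e
    rw [h4]

theorem XT_z0_fst (hA : Good A) (u : K) (l : XC n) :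
    (XT hA u (z0 (l.map Prod.fst)) : GLM A K) = XT hA u (l.map fun e => (e.1, 0)) := by
  unfold z0
  rw [List.map_map]
  rfl

/-- the conjugacies of the certificate, apart from the third one -/
theorem cert2_conj (hA : Good A) (hK : (2 : K) = 0) {u : K}
    (hsq : ∀ k : ℕ, ∃ t : Kˣ, (t : K) ^ 2 = u ^ k)
    (hroot : ∀ r, ip A r r = 2 → ∃ w, ip A r w = 1)
    {la lc : List (Fin n → ℤ)} {lb q z : XC n} {wb wc : Wd n} (H : Cert2 A la lc lb q z wb wc) :
    (NN hA (la.map (Prod.mk true)) * NN hA (la.map (Prod.mk true)) : GLM A K) = 1 ∧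
    (NN hA (la.map (Prod.mk true)) * XT hA u lb : GLM A K) =
      XT hA u lb * NN hA (la.map (Prod.mk true)) ∧
    Cj (NN hA (la.map (Prod.mk true)) : GLM A K) (XT hA u (z0 la)) ∧
    Cj (NN hA (la.map (Prod.mk true)) : GLM A K) (XT hA u lb) ∧
    Cj (NN hA (la.map (Prod.mk true)) : GLM A K) (NN hA (lc.map (Prod.mk true))) ∧
    Cj (NN hA (la.map (Prod.mk true)) * XT hA u lb : GLM A K)
      (NN hA (la.map (Prod.mk true)) * XT hA u z) := by
  obtain ⟨oa, oc, ob, h1, h2, pb, h3, okb, hb, okc, hc⟩ := H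
  have oka := Orth_wok oa
  obtain ⟨ga, hga, ea, -⟩ := nn_to_X (K := K) hA hK u oa
  obtain ⟨gc, hgc, ec, -⟩ := nn_to_X (K := K) hA hK u oc
  obtain ⟨gb, hgb, eb, -⟩ := scale (K := K) hA hsq hroot ob
  have ca : Cj (NN hA (la.map (Prod.mk true)) : GLM A K) (XT hA u (z0 la)) := ⟨ga, hga, ea⟩
  have cc : Cj (NN hA (lc.map (Prod.mk true)) : GLM A K) (XT hA u (z0 lc)) := ⟨gc, hgc, ec⟩
  have cb : Cj (XT hA u (z0 (lb.map Prod.fst)) : GLM A K) (XT hA u lb) := by
    rw [XT_z0_fst]; exact ⟨gb, hgb, eb⟩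
  have pa := Orth_Pc hA oa
  have cb2 := Cj_word (K := K) hA hK u okb ⟨hb, pa⟩
  have cc2 := Cj_word (K := K) hA hK u okc ⟨hc, pa⟩
  refine ⟨?_, ?_, ca, (ca.trans cb2.symm).trans cb, (ca.trans cc2.symm).trans cc.symm, ?_⟩
  · rw [← NN_append]
    refine (NN_eq_two (w' := []) hA hK (wok_append oka oka) (fun _ h _ => absurd h (by simp))
      fun j => ?_).trans rfl
    have h4 : ∀ (w w' : Wd n) (v), wv A (w ++ w') v = wv A w (wv A w' v) := by
      intro w w' v
      induction w with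
      | nil => rfl
      | cons l w ih =>
        obtain ⟨b, r⟩ := l
        cases b
        · exact ih
        · show rf A r (wv A (w ++ w') v) = rf A r (wv A w (wv A w' v))
          rw [ih]
    rw [h4, h1]; rfl
  · rw [NN_XT hA hK u oka, XT_perm hA u h2 (Pc_perm h2.symm pb)]
  · have p2 := Pc_perm h3 pb
    have e1 := XT_perm (K := K) hA u h3 pb
    rw [e1, XT_append, XT_append, ← mul_assoc, ← mul_assoc]
    refine swap_conj hA hK u oka ?_ ?_
    · exact fun a ha b hb => p2 a (by simp [ha]) b (by simp [hb])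
    · have p3 : Pc A (wl A (la.map (Prod.mk true)) q ++ z) :=
        fun a ha b hb => p2 a (by rw [List.append_assoc]; exact List.mem_append_right _ ha) b
          (by rw [List.append_assoc]; exact List.mem_append_right _ hb)
      rw [← XT_append, ← XT_append]
      exact XT_perm hA u List.perm_append_comm p3

/-- the upper bound when all roots of `b` are swapped in pairs -/
theorem adm2 (hA : Good A) (hK : (2 : K) = 0) {u : K}
    (hsq : ∀ k : ℕ, ∃ t : Kˣ, (t : K) ^ 2 = u ^ k)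
    (hroot : ∀ r, ip A r r = 2 → ∃ w, ip A r w = 1) {r : Fin n → ℤ} (hr : ip A r r = 2)
    {la lc : List (Fin n → ℤ)} {lb q : XC n} {wb wc : Wd n} (H : Cert2 A la lc lb q [] wb wc)
    (gen : ∀ L : Subgroup (GLM A K), NN hA (la.map (Prod.mk true)) ∈ L → XT hA u lb ∈ L →
      NN hA (lc.map (Prod.mk true)) ∈ L → ChevalleyGroup A K ≤ L) :
    H47Inv.Admissible ↥(ChevalleyGroup A K) 5 := by
  obtain ⟨h1, h2, -, h3, h4, h5⟩ := cert2_conj (K := K) hA hK hsq hroot H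
  have e : (NN hA (la.map (Prod.mk true)) * XT hA u [] : GLM A K) = NN hA (la.map (Prod.mk true)) :=
    mul_one _
  rw [e] at h5
  exact asm hA hr (NN_mem hA _) h1 h2 h3 h5.symm h4 gen

/-- the upper bound when one root of `b` is fixed and completes the roots of `a` to a frame -/
theorem adm2' (hA : Good A) (hK : (2 : K) = 0) {u : K}
    (hsq : ∀ k : ℕ, ∃ t : Kˣ, (t : K) ^ 2 = u ^ k)
    (hroot : ∀ r, ip A r r = 2 → ∃ w, ip A r w = 1) {r1 r2 r3 r4 h : Fin n → ℤ} {k : ℕ}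
    (hF : Fr A r1 r2 r3 r4 h) {lc : List (Fin n → ℤ)} {lb q : XC n} {wb wc : Wd n}
    (H : Cert2 A [r1, r2, r3] lc lb q [(r4, k)] wb wc)
    (gen : ∀ L : Subgroup (GLM A K), NN hA ([r1, r2, r3].map (Prod.mk true)) ∈ L →
      XT hA u lb ∈ L → NN hA (lc.map (Prod.mk true)) ∈ L → ChevalleyGroup A K ≤ L) :
    H47Inv.Admissible ↥(ChevalleyGroup A K) 5 := by
  obtain ⟨h1, h2, h0, h3, h4, h5⟩ := cert2_conj (K := K) hA hK hsq hroot H
  have ho := hF.1
  have hr : ip A r1 r1 = 2 := ho.1 r1 (by simp)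
  obtain ⟨g, hg, e, hc⟩ := nn_to_X (K := K) hA hK u H.1
  have o4 : ∀ s ∈ [r1, r2, r3], ip A s r4 = 0 := by
    have hp := ho.2
    simp only [List.pairwise_cons, List.mem_cons, List.not_mem_nil, or_false, forall_eq_or_imp,
      forall_eq] at hp
    obtain ⟨⟨-, -, o1⟩, ⟨-, o2⟩, o3, -⟩ := hp
    intro s hs
    simp only [List.mem_cons, List.not_mem_nil, or_false] at hs
    rcases hs with rfl | rfl | rfl
    · exact o1
    · exact o2
    · exact o3
  have h6 : Cj (NN hA ([r1, r2, r3].map (Prod.mk true)) * XT hA u [(r4, k)] : GLM A K)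
      (XT hA u [(r1, 0), (r2, 0), (r3, 0), (r4, k)]) := by
    refine ⟨g, hg, ?_⟩
    have e2 : (XT hA u [(r4, k)] : GLM A K) = X hA r4 (u ^ k) := mul_one _
    have e3 := hc r4 o4 (u ^ k)
    have e4 : (XT hA u [(r1, 0), (r2, 0), (r3, 0), (r4, k)] : GLM A K) =
        XT hA u ([r1, r2, r3].map fun r => (r, 0)) * XT hA u [(r4, k)] :=
      XT_append hA u [(r1, 0), (r2, 0), (r3, 0)] [(r4, k)]
    rw [e4, ← e, e2]
    calc g * (NN hA ([r1, r2, r3].map (Prod.mk true)) * X hA r4 (u ^ k)) * g⁻¹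
        = g * NN hA ([r1, r2, r3].map (Prod.mk true)) * g⁻¹ * (g * X hA r4 (u ^ k)) * g⁻¹ := by
          group
      _ = _ := by rw [e3]; group
  have h7 : Cj (XT hA u [(r1, 0), (r2, 0), (r3, 0), (r4, 0)] : GLM A K)
      (XT hA u [(r1, 0), (r2, 0), (r3, 0), (r4, k)]) := by
    obtain ⟨g, hg, e, -⟩ := scale (K := K) hA hsq hroot
      (l := [(r1, 0), (r2, 0), (r3, 0), (r4, k)]) ho
    exact ⟨g, hg, e⟩
  have h8 := d4_conj (K := K) hA hK hF u
  have h9 : Cj (NN hA ([r1, r2, r3].map (Prod.mk true)) : GLM A K)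
      (XT hA u [(r1, 0), (r2, 0), (r3, 0)]) := h0
  exact asm hA hr (NN_mem hA _) h1 h2 h3
    ((h9.trans (h8.trans (h7.trans h6.symm))).trans h5.symm) h4 gen

end H41Chev
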