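import Mathlib
import Pool.Agent.H.MP_0335f8_al.helper41.Lat

/-!
# The Cartan matrices `E₆`, `E₇`, `E₈` are positive definite
-/

namespace H41Chev

theorem sq8 (v : Fin 8 → ℤ) : 60 * ip CartanMatrix.E₈ v v =
    30 * (2 * v 0 - v 2) ^ 2 + 10 * (3 * v 2 - 2 * v 3) ^ 2 + 30 * (2 * v 1 - v 3) ^ 2 +
    30 * (2 * v 7 - v 6) ^ 2 + 10 * (3 * v 6 - 2 * v 5) ^ 2 + 5 * (4 * v 5 - 3 * v 4) ^ 2 +
    3 * (5 * v 4 - 4 * v 3) ^ 2 + 2 * v 3 ^ 2 := by
  simp only [ip, CartanMatrix.E₈, Fin.sum_univ_eight, Matrix.of_apply, Matrix.cons_val]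
  ring

theorem sq7 (v : Fin 7 → ℤ) : 12 * ip CartanMatrix.E₇ v v =
    6 * (2 * v 0 - v 2) ^ 2 + 2 * (3 * v 2 - 2 * v 3) ^ 2 + 6 * (2 * v 1 - v 3) ^ 2 +
    6 * (2 * v 6 - v 5) ^ 2 + 2 * (3 * v 5 - 2 * v 4) ^ 2 + (4 * v 4 - 3 * v 3) ^ 2 +
    v 3 ^ 2 := by
  simp only [ip, CartanMatrix.E₇, Fin.sum_univ_seven, Matrix.of_apply, Matrix.cons_val]
  ring

theorem sq6 (v : Fin 6 → ℤ) : 6 * ip CartanMatrix.E₆ v v =
    3 * (2 * v 0 - v 2) ^ 2 + (3 * v 2 - 2 * v 3) ^ 2 + 3 * (2 * v 1 - v 3) ^ 2 +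
    3 * (2 * v 5 - v 4) ^ 2 + (3 * v 4 - 2 * v 3) ^ 2 + v 3 ^ 2 := by
  simp only [ip, CartanMatrix.E₆, Fin.sum_univ_six, Matrix.of_apply, Matrix.cons_val]
  ring

theorem sqz {a : ℤ} (h : a ^ 2 ≤ 0) : a = 0 := by
  have := sq_nonneg a
  exact pow_eq_zero_iff (n := 2) (by norm_num) |>.1 (le_antisymm h this)

theorem good8 : Good CartanMatrix.E₈ where
  symm := fun i j => by fin_cases i <;> fin_cases j <;> rfl
  diag := fun i => by fin_cases i <;> rfl
  pos v hv := by
    by_contra h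
    apply hv
    have e := sq8 v
    have h0 := sq_nonneg (2 * v 0 - v 2)
    have h1 := sq_nonneg (3 * v 2 - 2 * v 3)
    have h2 := sq_nonneg (2 * v 1 - v 3)
    have h3 := sq_nonneg (2 * v 7 - v 6)
    have h4 := sq_nonneg (3 * v 6 - 2 * v 5)
    have h5 := sq_nonneg (4 * v 5 - 3 * v 4)
    have h6 := sq_nonneg (5 * v 4 - 4 * v 3)
    have h7 := sq_nonneg (v 3)
    have g0 := sqz (a := 2 * v 0 - v 2) (by linarith)
    have g1 := sqz (a := 3 * v 2 - 2 * v 3) (by linarith)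
    have g2 := sqz (a := 2 * v 1 - v 3) (by linarith)
    have g3 := sqz (a := 2 * v 7 - v 6) (by linarith)
    have g4 := sqz (a := 3 * v 6 - 2 * v 5) (by linarith)
    have g5 := sqz (a := 4 * v 5 - 3 * v 4) (by linarith)
    have g6 := sqz (a := 5 * v 4 - 4 * v 3) (by linarith)
    have g7 := sqz (a := v 3) (by linarith)
    ext i
    fin_cases i
    · show v 0 = 0; omega
    · show v 1 = 0; omega
    · show v 2 = 0; omega
    · show v 3 = 0; omega
    · show v 4 = 0; omega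
    · show v 5 = 0; omega
    · show v 6 = 0; omega
    · show v 7 = 0; omega

theorem good7 : Good CartanMatrix.E₇ where
  symm := fun i j => by fin_cases i <;> fin_cases j <;> rfl
  diag := fun i => by fin_cases i <;> rfl
  pos v hv := by
    by_contra h
    apply hv
    have e := sq7 v
    have h0 := sq_nonneg (2 * v 0 - v 2)
    have h1 := sq_nonneg (3 * v 2 - 2 * v 3)
    have h2 := sq_nonneg (2 * v 1 - v 3)
    have h3 := sq_nonneg (2 * v 6 - v 5)
    have h4 := sq_nonneg (3 * v 5 - 2 * v 4)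
    have h5 := sq_nonneg (4 * v 4 - 3 * v 3)
    have h7 := sq_nonneg (v 3)
    have g0 := sqz (a := 2 * v 0 - v 2) (by linarith)
    have g1 := sqz (a := 3 * v 2 - 2 * v 3) (by linarith)
    have g2 := sqz (a := 2 * v 1 - v 3) (by linarith)
    have g3 := sqz (a := 2 * v 6 - v 5) (by linarith)
    have g4 := sqz (a := 3 * v 5 - 2 * v 4) (by linarith)
    have g5 := sqz (a := 4 * v 4 - 3 * v 3) (by linarith)
    have g7 := sqz (a := v 3) (by linarith)
    ext i
    fin_cases i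
    · show v 0 = 0; omega
    · show v 1 = 0; omega
    · show v 2 = 0; omega
    · show v 3 = 0; omega
    · show v 4 = 0; omega
    · show v 5 = 0; omega
    · show v 6 = 0; omega

theorem good6 : Good CartanMatrix.E₆ where
  symm := fun i j => by fin_cases i <;> fin_cases j <;> rfl
  diag := fun i => by fin_cases i <;> rfl
  pos v hv := by
    by_contra h
    apply hv
    have e := sq6 v
    have h0 := sq_nonneg (2 * v 0 - v 2)
    have h1 := sq_nonneg (3 * v 2 - 2 * v 3)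
    have h2 := sq_nonneg (2 * v 1 - v 3)
    have h3 := sq_nonneg (2 * v 5 - v 4)
    have h4 := sq_nonneg (3 * v 4 - 2 * v 3)
    have h7 := sq_nonneg (v 3)
    have g0 := sqz (a := 2 * v 0 - v 2) (by linarith)
    have g1 := sqz (a := 3 * v 2 - 2 * v 3) (by linarith)
    have g2 := sqz (a := 2 * v 1 - v 3) (by linarith)
    have g3 := sqz (a := 2 * v 5 - v 4) (by linarith)
    have g4 := sqz (a := 3 * v 4 - 2 * v 3) (by linarith)
    have g7 := sqz (a := v 3) (by linarith)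
    ext i
    fin_cases i
    · show v 0 = 0; omega
    · show v 1 = 0; omega
    · show v 2 = 0; omega
    · show v 3 = 0; omega
    · show v 4 = 0; omega
    · show v 5 = 0; omega

end H41Chev
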