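import Mathlib
import Pool.Agent.H.MP_0335f8_al.helper41.Conj2

/-!
# The upper bound in odd characteristic from a certificate
-/

namespace H41Chev

variable {n : ℕ} {A : Matrix (Fin n) (Fin n) ℤ} {K : Type*} [Field K]

/-- Weyl elements of the roots in `l`, followed by the torus involution of `v` -/
def mw (l : List (Fin n → ℤ)) (v : Fin n → ℤ) : Wd n := l.map (Prod.mk true) ++ [(false, v)]

/-- orthogonal roots on which `v` is odd -/
def Mo (A : Matrix (Fin n) (Fin n) ℤ) (l : List (Fin n → ℤ)) (v : Fin n → ℤ) : Prop :=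
  Orth A l ∧ ∀ r ∈ l, ip A v r % 2 = 1

instance (l : List (Fin n → ℤ)) (v : Fin n → ℤ) : Decidable (Mo A l v) := by
  unfold Mo; infer_instance

theorem Mo_wok {l : List (Fin n → ℤ)} {v : Fin n → ℤ} (h : Mo A l v) : wok A (mw l v) := by
  refine wok_append (Orth_wok h.1) ?_
  intro m hm hb
  rw [List.mem_singleton.1 hm] at hb
  exact absurd hb (by simp)

theorem mw_X (hA : Good A) {l : List (Fin n → ℤ)} {v s : Fin n → ℤ} (hl : ∀ r ∈ l, ip A r r = 2)
    (h : ∀ r ∈ l, ip A r s = 0) (t : K) :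
    NN hA (mw l v) * X hA s t = X hA s ((sg (ip A v s) : K) * t) * NN hA (mw l v) := by
  induction l with
  | nil =>
    show hh A K v * 1 * X hA s t = X hA s ((sg (ip A v s) : K) * t) * (hh A K v * 1)
    rw [mul_one, hh_X hA]
  | cons r l ih =>
    have ih := ih (fun r hr => hl r (by simp [hr])) (fun r hr => h r (by simp [hr]))
    show nn hA r * NN hA (mw l v) * X hA s t =
      X hA s ((sg (ip A v s) : K) * t) * (nn hA r * NN hA (mw l v))
    have h0 := h r (by simp)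
    have h1 : rf A r s = s := by unfold rf; rw [h0, zero_smul, sub_zero]
    have h2 : eta A r s = 1 := by unfold eta; rw [h0, zero_mul]; rfl
    rw [mul_assoc, ih, ← mul_assoc, nn_X hA (hl r (by simp)), h1, h2, Int.cast_one, one_mul,
      mul_assoc]

theorem mo_conj (hA : Good A) (hK : (2 : K) ≠ 0) {l : List (Fin n → ℤ)} {v : Fin n → ℤ}
    (h : Mo A l v) : Cj (hh A K v) (NN hA (mw l v) : GLM A K) := by
  induction l with
  | nil =>
    have : (NN hA (mw [] v) : GLM A K) = hh A K v := mul_one _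
    rw [this]; exact Cj.refl _
  | cons r l ih =>
    obtain ⟨hr, h1, h2⟩ := Orth_cons h.1
    have ih := ih ⟨h2, fun r hr => h.2 r (by simp [hr])⟩
    refine ih.trans ?_
    have ho := h.2 r (by simp)
    have e1 : ∀ t : K, NN hA (mw l v) * X hA r t = X hA r (-t) * NN hA (mw l v) := by
      intro t
      rw [mw_X hA h2.1 (fun s hs => by rw [ip_comm hA, h1 s hs]), sg_odd ho]
      push_cast; rw [neg_one_mul]
    have e2 : ∀ t : K, NN hA (mw l v) * X hA (-r) t = X hA (-r) (-t) * NN hA (mw l v) := by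
      intro t
      rw [mw_X hA h2.1 (fun s hs => by rw [ip_neg_right, ip_comm hA, h1 s hs, neg_zero]),
        ip_neg_right, sg_neg, sg_odd ho]
      push_cast; rw [neg_one_mul]
    refine ⟨X hA r 1 * X hA (-r) (1 / 2 : K), Subgroup.mul_mem _ (X_mem hA _ _) (X_mem hA _ _), ?_⟩
    have e3 : (X hA r 1 * X hA (-r) (1 / 2 : K) : GLM A K)⁻¹ = X hA (-r) (-(1 / 2) : K) * X hA r (-1) := by
      rw [mul_inv_rev, X_inv, X_inv]
    have e4 : (NN hA (mw (r :: l) v) : GLM A K) = nn hA r * NN hA (mw l v) := rfl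
    rw [e3, e4]
    unfold nn
    calc X hA r (1 : K) * X hA (-r) (1 / 2 : K) * NN hA (mw l v) *
          (X hA (-r) (-(1 / 2) : K) * X hA r (-1 : K))
        = X hA r 1 * X hA (-r) (1 / 2 : K) * (NN hA (mw l v) * X hA (-r) (-(1 / 2) : K)) * X hA r (-1) := by
          group
      _ = X hA r 1 * (X hA (-r) (1 / 2 : K) * X hA (-r) (1 / 2 : K)) * (NN hA (mw l v) * X hA r (-1)) := by
          rw [e2, neg_neg]; group
      _ = X hA r 1 * X hA (-r) (1 / 2 + 1 / 2 : K) * X hA r 1 * NN hA (mw l v) := by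
          rw [e1, neg_neg, X_add]; group
      _ = _ := by rw [show (1 / 2 + 1 / 2 : K) = 1 by field_simp; norm_num]

theorem NN_hh (hA : Good A) {w : Wd n} (hw : wok A w) (v : Fin n → ℤ) :
    (NN hA w * hh A K v : GLM A K) = hh A K (wv A w v) * NN hA w := by
  induction w with
  | nil => show (1 : GLM A K) * hh A K v = hh A K v * 1; rw [one_mul, mul_one]
  | cons l w ih =>
    have ih := ih (wok_cons hw)
    obtain ⟨b, r⟩ := l
    cases b
    · show hh A K r * NN hA w * hh A K v = hh A K (wv A w v) * (hh A K r * NN hA w)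
      rw [mul_assoc, ih, ← mul_assoc, hh_comm, mul_assoc]
    · have hr : ip A r r = 2 := hw (true, r) (by simp) rfl
      show nn hA r * NN hA w * hh A K v = hh A K (rf A r (wv A w v)) * (nn hA r * NN hA w)
      rw [mul_assoc, ih, ← mul_assoc, nn_hh hA hr, mul_assoc]

/-- the element of a Weyl word with torus part is conjugate to the standard involution -/
def Std (A : Matrix (Fin n) (Fin n) ℤ) (v0 : Fin n → ℤ) (l : List (Fin n → ℤ)) (v : Fin n → ℤ)
    (w : Wd n) : Prop :=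
  Mo A l v ∧ wok A w ∧ ∀ j, ip A (wv A w v - v0) (Pi.single j 1) % 2 = 0

instance (v0 : Fin n → ℤ) (l : List (Fin n → ℤ)) (v : Fin n → ℤ) (w : Wd n) :
    Decidable (Std A v0 l v w) := by unfold Std; infer_instance

theorem std_conj (hA : Good A) (hK : (2 : K) ≠ 0) {v0 : Fin n → ℤ} {l : List (Fin n → ℤ)}
    {v : Fin n → ℤ} {w : Wd n} (h : Std A v0 l v w) :
    Cj (hh A K v0) (NN hA (mw l v) : GLM A K) := by
  obtain ⟨h1, h2, h3⟩ := h
  have h4 : Cj (hh A K v) (hh A K v0) := by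
    refine ⟨NN hA w, NN_mem hA w, ?_⟩
    rw [NN_hh hA h2, mul_assoc, mul_inv_cancel, mul_one]
    exact hh_congr h3
  exact h4.symm.trans (mo_conj hA hK h1)

theorem engine {G : Type*} [Group G] {a c C : G} {m : ℕ} (h1 : a * C = C⁻¹ * a)
    (h2 : c * C = C⁻¹ * c) (h4 : (c * a) ^ 4 = 1) (hm : C ^ m = 1) (ho : m % 2 = 1)
    {L : Subgroup G} (ha : a ∈ L) (hc : C * c ∈ L) : C ∈ L ∧ c ∈ L := by
  have e1 : c * C⁻¹ = C * c := by
    calc c * C⁻¹ = C * (C⁻¹ * c) * C⁻¹ := by group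
      _ = C * (c * C) * C⁻¹ := by rw [h2]
      _ = _ := by group
  have hcom : Commute C (c * a) := by
    show C * (c * a) = c * a * C
    calc C * (c * a) = (C * c) * a := by group
      _ = c * (C⁻¹ * a) := by rw [← e1]; group
      _ = _ := by rw [← h1]; group
  have e2 : (C * c * a) ^ 4 = C ^ 4 := by
    rw [mul_assoc, hcom.mul_pow, h4, mul_one]
  have h5 : C ^ 4 ∈ L := by rw [← e2]; exact L.pow_mem (L.mul_mem hc ha) 4
  have h6 : C ∈ L := by
    obtain ⟨k, hk⟩ : ∃ k, m * m = 4 * k + 1 := by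
      obtain ⟨j, hj⟩ : ∃ j, m = 2 * j + 1 := ⟨m / 2, by omega⟩
      exact ⟨j * j + j, by rw [hj]; ring⟩
    have h7 : C ^ (m * m) = 1 := by rw [pow_mul, hm, one_pow]
    rw [hk, pow_succ, pow_mul] at h7
    have h8 : C = ((C ^ 4) ^ k)⁻¹ := (inv_eq_of_mul_eq_one_right h7).symm
    rw [h8]; exact L.inv_mem (L.pow_mem h5 k)
  refine ⟨h6, ?_⟩
  have := L.mul_mem (L.inv_mem h6) hc
  rwa [← mul_assoc, inv_mul_cancel, one_mul] at this

theorem X_pow (hA : Good A) (v : Fin n → ℤ) (t : K) (m : ℕ) :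
    (X hA v t ^ m : GLM A K) = X hA v (m * t) := by
  induction m with
  | zero => rw [pow_zero, Nat.cast_zero, zero_mul, X_zero]
  | succ m ih => rw [pow_succ, ih, X_add]; congr 1; push_cast; ring

theorem odd_char {K : Type*} [Field K] [Finite K] (h2 : (2 : K) ≠ 0) :
    ∃ m : ℕ, m % 2 = 1 ∧ (m : K) = 0 := by
  haveI := Fintype.ofFinite K
  refine ⟨ringChar K, ?_, CharP.cast_eq_zero K (ringChar K)⟩
  have hp : (ringChar K).Prime := CharP.char_is_prime K (ringChar K)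
  rcases hp.eq_two_or_odd with h | h
  · exfalso; apply h2
    have := CharP.cast_eq_zero K (ringChar K)
    rw [h] at this; exact_mod_cast this
  · exact h

/-- the relations among the words of the certificate in odd characteristic -/
def Cert0 (A : Matrix (Fin n) (Fin n) ℤ)
    (la : List (Fin n → ℤ)) (va : Fin n → ℤ) (lb : List (Fin n → ℤ)) (vb : Fin n → ℤ)
    (lc : List (Fin n → ℤ)) (vc : Fin n → ℤ) (ld : List (Fin n → ℤ)) (vd : Fin n → ℤ)
    (d2 : Wd n) : Prop :=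
  (wok A (mw la va) ∧ wok A (mw lb vb) ∧ wok A (mw lc vc) ∧ wok A (mw ld vd)) ∧
  (∀ j, wv A (mw la va ++ mw lb vb) (Pi.single j 1) = wv A (mw ld vd) (Pi.single j 1)) ∧
  (∀ j, ws A (mw la va ++ mw lb vb) (Pi.single j 1) = ws A (mw ld vd) (Pi.single j 1)) ∧
  wok A d2 ∧
  (∀ j, wv A (mw lc vc ++ mw la va ++ (mw lc vc ++ mw la va)) (Pi.single j 1) =
    wv A d2 (Pi.single j 1)) ∧
  (∀ j, ws A (mw lc vc ++ mw la va ++ (mw lc vc ++ mw la va)) (Pi.single j 1) =
    ws A d2 (Pi.single j 1)) ∧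
  (∀ j, wv A (d2 ++ d2) (Pi.single j 1) = Pi.single j 1) ∧
  (∀ j, ws A (d2 ++ d2) (Pi.single j 1) = 1)

instance (la : List (Fin n → ℤ)) (va : Fin n → ℤ) (lb : List (Fin n → ℤ))
    (vb : Fin n → ℤ) (lc : List (Fin n → ℤ)) (vc : Fin n → ℤ) (ld : List (Fin n → ℤ))
    (vd : Fin n → ℤ) (d2 : Wd n) :
    Decidable (Cert0 A la va lb vb lc vc ld vd d2) := by
  unfold Cert0; infer_instance

/-- the upper bound in odd characteristic -/
theorem adm0 (hA : Good A) {r : Fin n → ℤ} (hr : ip A r r = 2)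
    {v0 va vb vc vd : Fin n → ℤ} {la lb lc ld : List (Fin n → ℤ)} {d2 : Wd n}
    (H : Cert0 A la va lb vb lc vc ld vd d2)
    (ca : Cj (hh A K v0) (NN hA (mw la va))) (cb : Cj (hh A K v0) (NN hA (mw lb vb)))
    (cc : Cj (hh A K v0) (NN hA (mw lc vc))) (cd : Cj (hh A K v0) (NN hA (mw ld vd)))
    {C D : GLM A K} (hD : D ∈ ChevalleyGroup A K) (hDC : D * D = C)
    (hcD : NN hA (mw lc vc) * D = D⁻¹ * NN hA (mw lc vc))
    (haC : NN hA (mw la va) * C = C⁻¹ * NN hA (mw la va)) {m : ℕ} (hm : m % 2 = 1)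
    (hCm : C ^ m = 1)
    (gen : ∀ L : Subgroup (GLM A K), NN hA (mw la va) ∈ L → NN hA (mw lb vb) ∈ L →
      NN hA (mw lc vc) ∈ L → C ∈ L → ChevalleyGroup A K ≤ L) :
    H47Inv.Admissible ↥(ChevalleyGroup A K) 5 := by
  obtain ⟨⟨oka, okb, okc, okd'⟩, e1, e2, okd, e3, e4, e5, e6⟩ := H
  have hab : (NN hA (mw la va) * NN hA (mw lb vb) : GLM A K) = NN hA (mw ld vd) := by
    rw [← NN_append]
    exact NN_eq_int hA (wok_append oka okb) okd' e1 e2
  have hsq : ∀ {x : GLM A K}, Cj (hh A K v0) x → x * x = 1 := by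
    rintro x ⟨g, -, rfl⟩
    calc g * hh A K v0 * g⁻¹ * (g * hh A K v0 * g⁻¹) = g * (hh A K v0 * hh A K v0) * g⁻¹ := by group
      _ = 1 := by rw [hh_sq]; group
  have a2 := hsq ca
  have b2 := hsq cb
  have d2' := hsq cd
  have hcomm : (NN hA (mw la va) * NN hA (mw lb vb) : GLM A K) =
      NN hA (mw lb vb) * NN hA (mw la va) := by
    rw [← hab] at d2'
    calc (NN hA (mw la va) * NN hA (mw lb vb) : GLM A K)
        = (NN hA (mw la va) * NN hA (mw lb vb) * (NN hA (mw la va) * NN hA (mw lb vb))) *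
          (NN hA (mw la va) * NN hA (mw lb vb))⁻¹ := by group
      _ = (NN hA (mw lb vb))⁻¹ * (NN hA (mw la va))⁻¹ := by rw [d2']; group
      _ = _ := by rw [inv_eq_of_mul_eq_one_left a2, inv_eq_of_mul_eq_one_left b2]
  have h4 : (NN hA (mw lc vc) * NN hA (mw la va) : GLM A K) ^ 4 = 1 := by
    have f1 : (NN hA (mw lc vc) * NN hA (mw la va) *
        (NN hA (mw lc vc) * NN hA (mw la va)) : GLM A K) = NN hA d2 := by
      rw [← NN_append, ← NN_append]
      exact NN_eq_int hA (wok_append (wok_append okc oka) (wok_append okc oka)) okd e3 e4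
    have f2 : (NN hA d2 * NN hA d2 : GLM A K) = 1 := by
      rw [← NN_append]
      exact (NN_eq_int (w' := []) hA (wok_append okd okd) (fun _ h _ => absurd h (by simp))
        e5 e6).trans rfl
    calc (NN hA (mw lc vc) * NN hA (mw la va) : GLM A K) ^ 4
        = (NN hA (mw lc vc) * NN hA (mw la va) * (NN hA (mw lc vc) * NN hA (mw la va))) *
          (NN hA (mw lc vc) * NN hA (mw la va) * (NN hA (mw lc vc) * NN hA (mw la va))) := by
          rw [pow_succ, pow_succ, pow_succ, pow_one]; group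
      _ = 1 := by rw [f1, f2]
  have hcC : NN hA (mw lc vc) * C = C⁻¹ * NN hA (mw lc vc) := by
    rw [← hDC, ← mul_assoc, hcD, mul_assoc, hcD]; group
  have cC : Cj (NN hA (mw lc vc) : GLM A K) (C * NN hA (mw lc vc)) := by
    refine ⟨D, hD, ?_⟩
    have e7 : NN hA (mw lc vc) * D⁻¹ = D * NN hA (mw lc vc) := by
      calc NN hA (mw lc vc) * D⁻¹ = D * (D⁻¹ * NN hA (mw lc vc)) * D⁻¹ := by group
        _ = D * (NN hA (mw lc vc) * D) * D⁻¹ := by rw [hcD]
        _ = _ := by group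
    rw [mul_assoc, e7, ← mul_assoc, hDC]
  refine asm hA hr (NN_mem hA _) a2 hcomm (ca.symm.trans cb) ?_ ((ca.symm.trans cc).trans cC) ?_
  · rw [hab]; exact ca.symm.trans cd
  · intro L ha hb hc
    obtain ⟨g1, g2⟩ := engine haC hcC h4 hCm hm ha hc
    exact gen L ha hb g2 g1


/-- the certificate data of the monomial part in odd characteristic -/
def Cert1 (A : Matrix (Fin n) (Fin n) ℤ) (v0 : Fin n → ℤ)
    (la : List (Fin n → ℤ)) (va : Fin n → ℤ) (lb : List (Fin n → ℤ)) (vb : Fin n → ℤ)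
    (lc : List (Fin n → ℤ)) (vc : Fin n → ℤ) (ld : List (Fin n → ℤ)) (vd : Fin n → ℤ)
    (ua ub uc ud : Wd n) (d2 : Wd n) : Prop :=
  (Std A v0 la va ua ∧ Std A v0 lb vb ub ∧ Std A v0 lc vc uc ∧ Std A v0 ld vd ud) ∧
  Cert0 A la va lb vb lc vc ld vd d2

instance (v0 : Fin n → ℤ) (la : List (Fin n → ℤ)) (va : Fin n → ℤ) (lb : List (Fin n → ℤ))
    (vb : Fin n → ℤ) (lc : List (Fin n → ℤ)) (vc : Fin n → ℤ) (ld : List (Fin n → ℤ))
    (vd : Fin n → ℤ) (ua ub uc ud : Wd n) (d2 : Wd n) :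
    Decidable (Cert1 A v0 la va lb vb lc vc ld vd ua ub uc ud d2) := by
  unfold Cert1; infer_instance

/-- the upper bound in odd characteristic -/
theorem adm1 (hA : Good A) (hK : (2 : K) ≠ 0) {r : Fin n → ℤ} (hr : ip A r r = 2)
    {v0 va vb vc vd : Fin n → ℤ} {la lb lc ld : List (Fin n → ℤ)} {ua ub uc ud d2 : Wd n}
    (H : Cert1 A v0 la va lb vb lc vc ld vd ua ub uc ud d2)
    {C D : GLM A K} (hD : D ∈ ChevalleyGroup A K) (hDC : D * D = C)
    (hcD : NN hA (mw lc vc) * D = D⁻¹ * NN hA (mw lc vc))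
    (haC : NN hA (mw la va) * C = C⁻¹ * NN hA (mw la va)) {m : ℕ} (hm : m % 2 = 1)
    (hCm : C ^ m = 1)
    (gen : ∀ L : Subgroup (GLM A K), NN hA (mw la va) ∈ L → NN hA (mw lb vb) ∈ L →
      NN hA (mw lc vc) ∈ L → C ∈ L → ChevalleyGroup A K ≤ L) :
    H47Inv.Admissible ↥(ChevalleyGroup A K) 5 :=
  adm0 hA hr H.2 (std_conj hA hK H.1.1) (std_conj hA hK H.1.2.1) (std_conj hA hK H.1.2.2.1)
    (std_conj hA hK H.1.2.2.2) hD hDC hcD haC hm hCm gen

theorem inv_of_sign (hA : Good A) {w : Wd n} (hw : wok A w) {r : Fin n → ℤ}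
    (h : wv A w r = r ∧ ws A w r = -1) (t : K) :
    (NN hA w * X hA r t : GLM A K) = X hA r (-t) * NN hA w := by
  rw [NN_X hA hw, h.1, h.2]; push_cast; rw [neg_one_mul]

theorem inv_pair_fix (hA : Good A) {w : Wd n} (hw : wok A w) {r r' : Fin n → ℤ}
    (h : wv A w r = r ∧ ws A w r = -1) (h' : wv A w r' = r' ∧ ws A w r' = -1) (s t : K) :
    (NN hA w * (X hA r s * X hA r' t) : GLM A K) = X hA r (-s) * X hA r' (-t) * NN hA w := by
  rw [← mul_assoc, inv_of_sign hA hw h, mul_assoc, inv_of_sign hA hw h', mul_assoc]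

theorem inv_pair_swap (hA : Good A) {w : Wd n} (hw : wok A w) {r r' : Fin n → ℤ}
    (h : wv A w r = r' ∧ ws A w r = -1) (h' : wv A w r' = r ∧ ws A w r' = -1) (s t : K) :
    (NN hA w * (X hA r s * X hA r' t) : GLM A K) = X hA r' (-s) * X hA r (-t) * NN hA w := by
  rw [← mul_assoc, NN_X hA hw, h.1, h.2, mul_assoc, NN_X hA hw, h'.1, h'.2, mul_assoc]
  push_cast; rw [neg_one_mul, neg_one_mul]

/-- a product of two root elements with signs lies in `L` -/
def Pr (hA : Good A) (L : Subgroup (GLM A K)) (s : K) (v1 : Fin n → ℤ) (c1 : ℤ)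
    (v2 : Fin n → ℤ) (c2 : ℤ) : Prop := X hA v1 ((c1 : K) * s) * X hA v2 ((c2 : K) * s) ∈ L

theorem Pr_base (hA : Good A) {L : Subgroup (GLM A K)} {s : K} {v1 v2 : Fin n → ℤ}
    (h : X hA v1 s * X hA v2 s ∈ L) : Pr hA L s v1 1 v2 1 := by
  unfold Pr; rw [Int.cast_one, one_mul]; exact h

theorem Pr_conj (hA : Good A) {L : Subgroup (GLM A K)} {s : K} {w : Wd n} (hw : wok A w)
    (hL : NN hA w ∈ L) {v1 v2 v1' v2' : Fin n → ℤ} {c1 c2 c1' c2' : ℤ}
    (h : Pr hA L s v1 c1 v2 c2)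
    (e : wv A w v1 = v1' ∧ ws A w v1 * c1 = c1' ∧ wv A w v2 = v2' ∧ ws A w v2 * c2 = c2') :
    Pr hA L s v1' c1' v2' c2' := by
  obtain ⟨rfl, rfl, rfl, rfl⟩ := e
  have h2 := L.mul_mem (L.mul_mem hL h) (L.inv_mem hL)
  unfold Pr
  have e3 : NN hA w * (X hA v1 ((c1 : K) * s) * X hA v2 ((c2 : K) * s)) * (NN hA w)⁻¹ =
      X hA (wv A w v1) (((ws A w v1 * c1 : ℤ) : K) * s) *
        X hA (wv A w v2) (((ws A w v2 * c2 : ℤ) : K) * s) := by
    rw [← mul_assoc, NN_X hA hw, mul_assoc (X hA (wv A w v1) _), NN_X hA hw, Int.cast_mul,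
      Int.cast_mul, mul_assoc (ws A w v1 : K), mul_assoc (ws A w v2 : K)]
    group
  rw [← e3]; exact h2

theorem Pr_single (hA : Good A) {L : Subgroup (GLM A K)} {u : K} (h2 : (2 : K) ≠ 0)
    {v1 v2 : Fin n → ℤ} {c1 c1' : ℤ} (h : Pr hA L (u / 2) v1 c1 v2 1)
    (h' : Pr hA L (u / 2) v1 c1' v2 1) (e : 0 ≤ ip A v1 v2 ∧ c1' = -c1) :
    Lv hA L u v2 1 := by
  obtain ⟨e1, rfl⟩ := e
  have h3 := L.mul_mem h h'
  unfold Lv
  have e2 : X hA v1 ((c1 : K) * (u / 2)) * X hA v2 (((1 : ℤ) : K) * (u / 2)) *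
      (X hA v1 (((-c1 : ℤ) : K) * (u / 2)) * X hA v2 (((1 : ℤ) : K) * (u / 2))) =
      (X hA v2 (u ^ 1) : GLM A K) := by
    have c := X_comm (K := K) hA e1 (((-c1 : ℤ) : K) * (u / 2)) (((1 : ℤ) : K) * (u / 2))
    calc X hA v1 ((c1 : K) * (u / 2)) * X hA v2 (((1 : ℤ) : K) * (u / 2)) *
        (X hA v1 (((-c1 : ℤ) : K) * (u / 2)) * X hA v2 (((1 : ℤ) : K) * (u / 2)))
        = X hA v1 ((c1 : K) * (u / 2)) * (X hA v2 (((1 : ℤ) : K) * (u / 2)) *
          X hA v1 (((-c1 : ℤ) : K) * (u / 2))) * X hA v2 (((1 : ℤ) : K) * (u / 2)) := by group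
      _ = X hA v1 ((c1 : K) * (u / 2)) * X hA v1 (((-c1 : ℤ) : K) * (u / 2)) *
          (X hA v2 (((1 : ℤ) : K) * (u / 2)) * X hA v2 (((1 : ℤ) : K) * (u / 2))) := by
          rw [← c]; group
      _ = X hA v1 0 * X hA v2 u := by
          rw [X_add, X_add]
          congr 2
          · push_cast; ring
          · push_cast; field_simp; norm_num
      _ = _ := by rw [X_zero, one_mul, pow_one]
  rw [← e2]; exact h3

/-! ### an element inverting the Weyl element of a root -/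

theorem HH_rel (hA : Good A) {r w : Fin n → ℤ} (hr : ip A r r = 2) (hw : ip A r w = 1)
    (t : Kˣ) : (X hA r (t : K) * X hA (-r) ((t⁻¹ : Kˣ) : K) * X hA r (t : K) : GLM A K) =
      HH A r t * nn hA r := by
  have h1 : HH A w t * nn hA r * (HH A w t)⁻¹ = HH A r t * nn hA r := by
    rw [HH_inv, mul_assoc, nn_HH hA hr, ← mul_assoc, ← HH_add]
    congr 2
    unfold rf
    rw [ip_neg_right, hw, neg_smul, one_smul]
    abel
  have hw' : ip A w r = 1 := by rw [ip_comm hA, hw]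
  rw [← h1]
  have e1 := HH_X hA w r t (1 : K)
  have e2 := HH_X hA w (-r) t (1 : K)
  rw [hw', zpow_one, mul_one] at e1
  rw [ip_neg_right, hw', zpow_neg, zpow_one, mul_one] at e2
  unfold nn
  symm
  calc HH A w t * (X hA r 1 * X hA (-r) 1 * X hA r 1) * (HH A w t)⁻¹
      = (HH A w t * X hA r 1) * X hA (-r) 1 * X hA r 1 * (HH A w t)⁻¹ := by group
    _ = X hA r (t : K) * (HH A w t * X hA (-r) 1) * X hA r 1 * (HH A w t)⁻¹ := by rw [e1]; group
    _ = X hA r (t : K) * X hA (-r) ((t⁻¹ : Kˣ) : K) *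
        (HH A w t * X hA r 1) * (HH A w t)⁻¹ := by rw [e2]; group
    _ = _ := by rw [e1]; group

theorem nn_x (hA : Good A) {r : Fin n → ℤ} (hr : ip A r r = 2) (t : K) :
    (nn hA r * X hA r t : GLM A K) = X hA (-r) t * nn hA r ∧
    (nn hA r * X hA (-r) t : GLM A K) = X hA r t * nn hA r := by
  have h1 : rf A r r = -r := by unfold rf; rw [hr]; ext i; simp; ring
  have h2 : eta A r r = 1 := by
    unfold eta; rw [hr]; exact sg_even (by omega)
  have h3 : rf A r (-r) = r := by rw [rf_neg, h1, neg_neg]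
  have h4 : eta A r (-r) = 1 := by rw [eta_neg, h2]
  constructor
  · rw [nn_X hA hr, h1, h2]; push_cast; rw [one_mul]
  · rw [nn_X hA hr, h3, h4]; push_cast; rw [one_mul]

end H41Chev
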