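import Mathlib
import Pool.Agent.H.MP_0335f8_al.helper41.Odd
import Pool.Agent.H.MP_0335f8_al.helper41.Ex

/-!
# The certificate for `E₆`, odd characteristic
-/

namespace H41Chev.E6odd

variable {K : Type*} [Field K]

/-- the roots of the first element -/
def la : List (Fin 6 → ℤ) :=
  [![0, 0, 0, -1, -1, -1]]

/-- the torus part of the first element -/
def va : Fin 6 → ℤ := ![0, 1, 1, 0, 1, 1]

/-- the roots of the second element -/
def lb : List (Fin 6 → ℤ) :=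
  [![-1, -1, -2, -2, -2, -1], ![0, 1, 0, 1, 1, 0]]

/-- the torus part of the second element -/
def vb : Fin 6 → ℤ := ![1, 1, 0, 0, 1, 1]

/-- the roots of the third element -/
def lc : List (Fin 6 → ℤ) :=
  [![-1, -1, -2, -2, -1, 0], ![0, 0, -1, -1, -1, -1], ![1, 1, 1, 1, 1, 1]]

/-- the torus part of the third element -/
def vc : Fin 6 → ℤ := ![0, 0, 1, 1, 0, 0]

theorem oka : wok CartanMatrix.E₆ (mw la va) := by decide +kernel

theorem okb : wok CartanMatrix.E₆ (mw lb vb) := by decide +kernel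

theorem okc : wok CartanMatrix.E₆ (mw lc vc) := by decide +kernel

/-- the three elements and one root element generate -/
theorem gen {u : K} (hu : u ≠ 0) (hs : Sp u 2)
    (L : Subgroup (GLM CartanMatrix.E₆ K)) (ha : NN good6 (mw la va) ∈ L) (hb : NN good6 (mw lb vb) ∈ L)
    (hc : NN good6 (mw lc vc) ∈ L) (h0 : X good6 ![0, 0, 0, 0, 1, 0] u ∈ L) : ChevalleyGroup CartanMatrix.E₆ K ≤ L := by
  have z0 : Lv good6 L u ![0, 0, 0, 0, 1, 0] 1 := by unfold Lv; rw [pow_one]; exact h0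
  have f1 : Lv good6 L u ![-1, -2, -2, -3, -2, -1] 1 :=
    Lv_conj good6 okb hb z0 (by decide +kernel)
  have f2 : Lv good6 L u ![1, 0, 1, 0, 0, 0] 1 :=
    Lv_conj good6 okc hc f1 (by decide +kernel)
  have f3 : Lv good6 L u ![1, 0, 1, 1, 1, 1] 1 :=
    Lv_conj good6 oka ha f2 (by decide +kernel)
  have f4 : Lv good6 L u ![0, 0, -1, -1, -1, -1] 1 :=
    Lv_conj good6 okb hb f2 (by decide +kernel)
  have f5 : Lv good6 L u ![1, 0, 0, 0, 0, 0] 2 :=
    Lv_sum' good6 f3 f4 (by decide +kernel)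
  have f6 : Lv good6 L u ![0, 0, 1, 1, 1, 1] 1 :=
    Lv_conj good6 okc hc f4 (by decide +kernel)
  have f7 : Fl good6 L ![1, 0, 0, 0, 0, 0] :=
    Fl_loop' good6 hu hs f5 f6 f4 (by decide +kernel)
  have f8 : Lv good6 L u ![0, 0, -1, 0, 0, 0] 1 :=
    Lv_conj good6 oka ha f4 (by decide +kernel)
  have f9 : Lv good6 L u ![1, 1, 2, 3, 2, 1] 1 :=
    Lv_conj good6 okc hc f8 (by decide +kernel)
  have f10 : Lv good6 L u ![0, 0, 0, 1, 0, 0] 1 :=
    Lv_conj good6 okb hb f9 (by decide +kernel)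
  have f11 : Lv good6 L u ![0, 0, 0, 0, -1, -1] 1 :=
    Lv_conj good6 oka ha f10 (by decide +kernel)
  have f12 : Lv good6 L u ![0, 0, 0, 0, 0, 1] 1 :=
    Lv_conj good6 okc hc f11 (by decide +kernel)
  have f13 : Lv good6 L u ![0, 1, 0, 1, 1, 1] 1 :=
    Lv_conj good6 okb hb f12 (by decide +kernel)
  have f14 : Lv good6 L u ![0, 1, 0, 0, 0, 0] 1 :=
    Lv_conj good6 oka ha f13 (by decide +kernel)
  have f15 : Lv good6 L u ![-1, 0, 0, 0, 0, 0] 1 :=
    Lv_conj good6 okc hc f14 (by decide +kernel)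
  have f16 : Lv good6 L u ![-1, 0, -1, 0, 0, 0] 1 :=
    Lv_conj good6 okb hb f6 (by decide +kernel)
  have f17 : Fl good6 L ![-1, 0, 0, 0, 0, 0] :=
    Fl_loop' good6 hu hs f15 f2 f16 (by decide +kernel)
  have f18 : Lv good6 L u ![1, 2, 2, 3, 2, 1] 1 :=
    Lv_conj good6 okc hc f16 (by decide +kernel)
  have f19 : Fl good6 L ![0, 1, 0, 0, 0, 0] :=
    Fl_loop' good6 hu hs f14 f1 f18 (by decide +kernel)
  have f20 : Lv good6 L u ![0, -1, 0, 0, 0, 0] 2 :=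
    Lv_sum' good6 f9 f1 (by decide +kernel)
  have f21 : Fl good6 L ![0, -1, 0, 0, 0, 0] :=
    Fl_loop' good6 hu hs f20 f4 f6 (by decide +kernel)
  have f22 : Lv good6 L u ![0, 0, 1, 0, 0, 0] 1 :=
    Lv_conj good6 oka ha f6 (by decide +kernel)
  have f23 : Fl good6 L ![0, 0, 1, 0, 0, 0] :=
    Fl_loop' good6 hu hs f22 f4 f6 (by decide +kernel)
  have f24 : Fl good6 L ![0, 0, -1, 0, 0, 0] :=
    Fl_loop' good6 hu hs f8 f6 f4 (by decide +kernel)
  have f25 : Fl good6 L ![0, 0, 0, 1, 0, 0] :=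
    Fl_loop' good6 hu hs f10 f2 f16 (by decide +kernel)
  have f26 : Lv good6 L u ![-1, -1, -2, -3, -2, -1] 1 :=
    Lv_conj good6 okc hc f22 (by decide +kernel)
  have f27 : Lv good6 L u ![0, 0, 0, -1, 0, 0] 1 :=
    Lv_conj good6 okb hb f26 (by decide +kernel)
  have f28 : Fl good6 L ![0, 0, 0, -1, 0, 0] :=
    Fl_loop' good6 hu hs f27 f16 f2 (by decide +kernel)
  have f29 : Fl good6 L ![0, 0, 0, 0, 1, 0] :=
    Fl_loop' good6 hu hs z0 f10 f27 (by decide +kernel)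
  have f30 : Fl good6 L ![-1, 0, -1, 0, 0, 0] :=
    Fl_loop' good6 hu hs f16 f22 f8 (by decide +kernel)
  have f31 : Fl good6 L ![1, 2, 2, 3, 2, 1] :=
    Fl_conj good6 okc hc f30 (by decide +kernel)
  have f32 : Fl good6 L ![0, 0, 0, 0, -1, 0] :=
    Fl_conj good6 okb hb f31 (by decide +kernel)
  have f33 : Lv good6 L u ![0, 0, 0, 0, -1, 0] 1 :=
    Lv_conj good6 okb hb f18 (by decide +kernel)
  have f34 : Fl good6 L ![0, 0, 0, 0, 0, 1] :=
    Fl_loop' good6 hu hs f12 z0 f33 (by decide +kernel)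
  have f35 : Lv good6 L u ![0, 0, 0, 0, 0, -1] 2 :=
    Lv_sum' good6 f11 z0 (by decide +kernel)
  have f36 : Fl good6 L ![0, 0, 0, 0, 0, -1] :=
    Fl_loop' good6 hu hs f35 f6 f4 (by decide +kernel)
  refine gen_simple good6 (all6 ?_ ?_ ?_ ?_ ?_ ?_) (all6 ?_ ?_ ?_ ?_ ?_ ?_)
  · exact Fl_eq good6 f7 (by decide +kernel)
  · exact Fl_eq good6 f19 (by decide +kernel)
  · exact Fl_eq good6 f23 (by decide +kernel)
  · exact Fl_eq good6 f25 (by decide +kernel)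
  · exact Fl_eq good6 f29 (by decide +kernel)
  · exact Fl_eq good6 f34 (by decide +kernel)
  · exact Fl_eq good6 f17 (by decide +kernel)
  · exact Fl_eq good6 f21 (by decide +kernel)
  · exact Fl_eq good6 f24 (by decide +kernel)
  · exact Fl_eq good6 f28 (by decide +kernel)
  · exact Fl_eq good6 f32 (by decide +kernel)
  · exact Fl_eq good6 f36 (by decide +kernel)

/-- the certificate of the monomial part -/
theorem cert : Cert1 CartanMatrix.E₆ ![0, 1, 1, 0, 1, 1] la va lb vb lc vc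
    [![0, 0, 0, 1, 1, 1], ![0, 1, 0, 1, 1, 0], ![1, 1, 2, 2, 2, 1]] ![1, 0, 1, 0, 0, 0]
    []
    [(true, ![1, 0, 1, 0, 0, 0])]
    [(true, ![0, 1, 0, 1, 1, 1])]
    [(true, ![1, 1, 2, 2, 1, 1])]
    (mw [![0, 0, 0, 1, 1, 1], ![1, 1, 1, 2, 1, 0]] ![1, 1, 0, 1, 0, 1]) := by
  decide +kernel

theorem sa : wv CartanMatrix.E₆ (mw la va) ![0, 0, 0, 0, 1, 0] = ![0, 0, 0, 0, 1, 0] ∧ ws CartanMatrix.E₆ (mw la va) ![0, 0, 0, 0, 1, 0] = -1 := by decide +kernel

theorem sc : wv CartanMatrix.E₆ (mw lc vc) ![0, 0, 0, 0, 1, 0] = ![0, 0, 0, 0, 1, 0] ∧ ws CartanMatrix.E₆ (mw lc vc) ![0, 0, 0, 0, 1, 0] = -1 := by decide +kernel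

/-- the upper bound -/
theorem adm [Finite K] (hK : (2 : K) ≠ 0) :
    H47Inv.Admissible ↥(ChevalleyGroup CartanMatrix.E₆ K) 5 := by
  obtain ⟨u, hu, hg⟩ := exists_gen K
  obtain ⟨m, hm, hm0⟩ := odd_char hK
  refine adm1 good6 hK (r := ![0, 0, 0, 0, 1, 0]) (by decide +kernel) cert (C := X good6 ![0, 0, 0, 0, 1, 0] u)
    (D := X good6 ![0, 0, 0, 0, 1, 0] (u / 2)) (X_mem _ _ _) ?_ ?_ ?_ hm ?_ (fun L ha hb hc h0 =>
      gen hu (sp_odd hK hg) L ha hb hc h0)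
  · rw [X_add]; congr 1; field_simp; norm_num
  · rw [X_inv]; exact inv_of_sign good6 okc sc _
  · rw [X_inv]; exact inv_of_sign good6 oka sa _
  · rw [X_pow, hm0, zero_mul, X_zero]

end H41Chev.E6odd
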