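import Mathlib
import Pool.Agent.H.MP_0335f8_al.helper41.Conj2
import Pool.Agent.H.MP_0335f8_al.helper41.Ex

/-!
# The certificate for `E₆`, characteristic two
-/

namespace H41Chev.E6two

variable {K : Type*} [Field K]

/-- the roots of the first involution -/
def la : List (Fin 6 → ℤ) :=
  [![1, 0, 1, 1, 1, 0],
   ![1, 1, 1, 1, 1, 1],
   ![0, 1, 1, 2, 2, 1]]

/-- the roots of the third involution -/
def lc : List (Fin 6 → ℤ) :=
  [![0, 0, 0, 0, 1, 0],
   ![1, 0, 1, 0, 0, 0],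
   ![1, 2, 2, 3, 2, 1]]

/-- the second involution -/
def lb : XC 6 :=
  [(![0, -1, -1, -2, -1, -1], 1), (![-1, 0, -1, -1, 0, 0], 1), (![0, 0, -1, 0, 0, 0], 1)]

/-- the word of the first involution -/
def wa : Wd 6 := la.map (Prod.mk true)

/-- the word of the third involution -/
def wc : Wd 6 := lc.map (Prod.mk true)

theorem oka : wok CartanMatrix.E₆ wa := by decide +kernel

theorem okc : wok CartanMatrix.E₆ wc := by decide +kernel

/-- the three elements generate -/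
theorem gen (hK : (2 : K) = 0) {u : K} (hu : u ≠ 0) (hs : ∀ j, Sp u (2 ^ j))
    (L : Subgroup (GLM CartanMatrix.E₆ K)) (ha : NN good6 wa ∈ L) (hb : XT good6 u lb ∈ L)
    (hc : NN good6 wc ∈ L) : ChevalleyGroup CartanMatrix.E₆ K ≤ L := by
  have s3 : Sp u 8 := by have := hs 3; norm_num at this; exact this
  have t0 : Tm good6 L u [(![0, -1, -1, -2, -1, -1], 1), (![-1, 0, -1, -1, 0, 0], 1), (![0, 0, -1, 0, 0, 0], 1)] := hb
  have t1 : Tm good6 L u [(![0, 1, 0, 1, 0, 0], 1), (![0, 0, 0, -1, -1, 0], 1), (![1, 0, 0, 0, 0, 0], 1)] :=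
    Tm_conj_eq good6 hK okc hc t0 (by decide +kernel)
  have t2 : Tm good6 L u [(![0, 0, -1, -1, 0, 0], 2), (![0, 0, -1, -1, -1, 0], 2), (![0, 0, -1, -1, -1, -1], 2)] :=
    Tm_com_eq good6 hK t1 t0 (by decide +kernel)
  have t3 : Tm good6 L u [(![-1, -1, -2, -2, -1, -1], 2), (![0, 0, 0, 1, 1, 0], 2), (![0, 1, 0, 1, 1, 0], 2)] :=
    Tm_conj_eq good6 hK oka ha t2 (by decide +kernel)
  have t4 : Tm good6 L u [(![0, 0, -1, 0, 0, 0], 4)] :=
    Tm_com_eq good6 hK t3 t2 (by decide +kernel)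
  have t5 : Tm good6 L u [(![0, 0, -1, -1, -1, 0], 5)] :=
    Tm_com_eq good6 hK t4 t1 (by decide +kernel)
  have f0 : Lv good6 L u ![0, 0, -1, 0, 0, 0] 4 := Lv_of_Tm good6 t4
  have f1 : Lv good6 L u ![1, 0, 0, 0, 0, 0] 4 :=
    Lv_conj good6 okc hc f0 (by decide +kernel)
  have f2 : Lv good6 L u ![-1, 0, -1, 0, 0, 0] 4 :=
    Lv_conj good6 oka ha f1 (by decide +kernel)
  have f3 : Lv good6 L u ![1, 0, 1, 0, 0, 0] 4 :=
    Lv_conj good6 okc hc f2 (by decide +kernel)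
  have f4 : Fl good6 L ![1, 0, 0, 0, 0, 0] :=
    Fl_loop' good6 hu s3 f1 f2 f3 (by decide +kernel)
  have f5 : Lv good6 L u ![-1, 0, 0, 0, 0, 0] 4 :=
    Lv_conj good6 oka ha f3 (by decide +kernel)
  have f6 : Fl good6 L ![-1, 0, 0, 0, 0, 0] :=
    Fl_loop' good6 hu s3 f5 f3 f2 (by decide +kernel)
  have f7 : Lv good6 L u ![0, 0, -1, -1, -1, 0] 5 := Lv_of_Tm good6 t5
  have f8 : Fl good6 L ![0, 0, -1, -1, -1, 0] :=
    Fl_loop' good6 hu s3 f7 f5 f1 (by decide +kernel)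
  have f9 : Fl good6 L ![-1, 0, -1, -1, -1, 0] :=
    Fl_sum good6 hu f8 f5 (by decide +kernel)
  have f10 : Fl good6 L ![0, 0, 0, -1, 0, 0] :=
    Fl_conj good6 okc hc f9 (by decide +kernel)
  have f11 : Fl good6 L ![-1, -1, -1, -2, -1, -1] :=
    Fl_conj good6 oka ha f10 (by decide +kernel)
  have f12 : Fl good6 L ![-1, -1, -2, -3, -2, -1] :=
    Fl_sum good6 hu f11 f7 (by decide +kernel)
  have f13 : Fl good6 L ![0, 1, 0, 0, 0, 0] :=
    Fl_conj good6 okc hc f12 (by decide +kernel)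
  have f14 : Lv good6 L u ![0, 0, 0, 1, 1, 0] 5 :=
    Lv_conj good6 oka ha f7 (by decide +kernel)
  have f15 : Lv good6 L u ![1, 0, 1, 1, 0, 0] 5 :=
    Lv_conj good6 okc hc f14 (by decide +kernel)
  have f16 : Lv good6 L u ![0, 1, 1, 2, 1, 1] 5 :=
    Lv_conj good6 oka ha f15 (by decide +kernel)
  have f17 : Lv good6 L u ![0, -1, 0, -1, 0, 0] 5 :=
    Lv_conj good6 okc hc f16 (by decide +kernel)
  have f18 : Fl good6 L ![0, -1, -1, -2, -1, 0] :=
    Fl_sum good6 hu f8 f17 (by decide +kernel)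
  have f19 : Fl good6 L ![-1, -1, -1, -1, 0, 0] :=
    Fl_conj good6 oka ha f18 (by decide +kernel)
  have f20 : Fl good6 L ![0, -1, 0, 0, 0, 0] :=
    Fl_sum good6 hu f19 f15 (by decide +kernel)
  have f21 : Lv good6 L u ![0, 0, 1, 0, 0, 0] 4 :=
    Lv_conj good6 okc hc f5 (by decide +kernel)
  have f22 : Fl good6 L ![0, 0, 1, 0, 0, 0] :=
    Fl_loop' good6 hu s3 f21 f1 f5 (by decide +kernel)
  have f23 : Fl good6 L ![0, 0, -1, 0, 0, 0] :=
    Fl_loop' good6 hu s3 f0 f3 f2 (by decide +kernel)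
  have f24 : Fl good6 L ![1, 0, 1, 1, 0, 0] :=
    Fl_loop' good6 hu s3 f15 f2 f3 (by decide +kernel)
  have f25 : Fl good6 L ![0, 0, 0, 1, 0, 0] :=
    Fl_sum good6 hu f24 f2 (by decide +kernel)
  have f26 : Fl good6 L ![0, 0, 0, 0, 1, 0] :=
    Fl_sum good6 hu f10 f14 (by decide +kernel)
  have f27 : Fl good6 L ![0, 0, 0, 0, -1, 0] :=
    Fl_sum good6 hu f9 f15 (by decide +kernel)
  have f28 : Fl good6 L ![0, 0, 0, 0, 0, 1] :=
    Fl_sum good6 hu f18 f16 (by decide +kernel)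
  have f29 : Fl good6 L ![0, 0, 0, 0, 0, -1] :=
    Fl_conj good6 oka ha f13 (by decide +kernel)
  refine gen_simple good6 (all6 ?_ ?_ ?_ ?_ ?_ ?_) (all6 ?_ ?_ ?_ ?_ ?_ ?_)
  · exact Fl_eq good6 f4 (by decide +kernel)
  · exact Fl_eq good6 f13 (by decide +kernel)
  · exact Fl_eq good6 f22 (by decide +kernel)
  · exact Fl_eq good6 f25 (by decide +kernel)
  · exact Fl_eq good6 f26 (by decide +kernel)
  · exact Fl_eq good6 f28 (by decide +kernel)
  · exact Fl_eq good6 f6 (by decide +kernel)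
  · exact Fl_eq good6 f20 (by decide +kernel)
  · exact Fl_eq good6 f23 (by decide +kernel)
  · exact Fl_eq good6 f10 (by decide +kernel)
  · exact Fl_eq good6 f27 (by decide +kernel)
  · exact Fl_eq good6 f29 (by decide +kernel)

/-- the certificate of the conjugacies -/
theorem cert : Cert2 CartanMatrix.E₆ la lc lb
    [(![0, -1, -1, -2, -1, -1], 1)]
    [(![0, 0, -1, 0, 0, 0], 1)]
    [(true, ![1, 1, 2, 2, 1, 1]), (true, ![0, 0, 0, 1, 0, 0]), (true, ![1, 1, 2, 3, 2, 1])]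
    [(true, ![0, 0, 0, 1, 1, 1]), (true, ![1, 1, 1, 2, 1, 1]), (true, ![1, 0, 1, 1, 0, 0])] := by
  decide +kernel

theorem nbr : ∀ i, ∃ j, ip CartanMatrix.E₆ (Pi.single i 1) (Pi.single j 1) = -1 := by decide +kernel

/-- the upper bound -/
theorem adm [Finite K] (hK : (2 : K) = 0) :
    H47Inv.Admissible ↥(ChevalleyGroup CartanMatrix.E₆ K) 5 := by
  obtain ⟨u, hu, hg⟩ := exists_gen K
  exact adm2' good6 hK (sq_unit hK hu) (hroot_of good6 nbr) (h := ![1, 1, 1, 2, 2, 1]) (by decide +kernel) cert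
    (gen hK hu (sp_two hK hg))

end H41Chev.E6two
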