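import Mathlib
import Pool.Agent.H.MP_0335f8_al.helper41.Odd

/-!
# The Weyl element of a root is conjugate to its inverse over a finite field
-/

namespace H41Chev

variable {n : ℕ} {A : Matrix (Fin n) (Fin n) ℤ} {K : Type*} [Field K]

theorem HH_mul (w : Fin n → ℤ) (s t : Kˣ) : HH A w (s * t) = HH A w s * HH A w t := by
  refine gl_ext fun x => lm_ext (fun v hv => ?_) rfl
  show ev A (HH A w (s * t) x).1 v = ev A (HH A w s (HH A w t x)).1 v
  rw [HH_fst _ _ _ hv, HH_fst _ _ _ hv, HH_fst _ _ _ hv, mul_zpow, Units.val_mul, mul_assoc]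

theorem HH_neg_one (w : Fin n → ℤ) : HH A w (-1 : Kˣ) = hh A K w := by
  refine gl_ext fun x => lm_ext (fun v hv => ?_) rfl
  rw [HH_fst _ _ _ hv, hh_fst _ _ hv]
  congr 1
  rcases Int.even_or_odd (ip A w v) with h | h
  · rw [h.neg_one_zpow, sg_even (by obtain ⟨k, hk⟩ := h; omega)]; simp
  · rw [h.neg_one_zpow, sg_odd (by obtain ⟨k, hk⟩ := h; omega)]; simp

theorem HH_comm (w w' : Fin n → ℤ) (s t : Kˣ) :
    HH A w s * HH A w' t = HH A w' t * HH A w s := by
  refine gl_ext fun x => lm_ext (fun v hv => ?_) rfl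
  show ev A (HH A w s (HH A w' t x)).1 v = ev A (HH A w' t (HH A w s x)).1 v
  rw [HH_fst _ _ _ hv, HH_fst _ _ _ hv, HH_fst _ _ _ hv, HH_fst _ _ _ hv]
  ring

theorem X_HH (hA : Good A) (w b : Fin n → ℤ) (t : Kˣ) (s : K) :
    X hA b s * HH A w t = HH A w t * X hA b (((t ^ (-ip A w b) : Kˣ) : K) * s) := by
  rw [HH_X hA, ← mul_assoc, ← Units.val_mul, ← zpow_add, add_neg_cancel, zpow_zero,
    Units.val_one, one_mul]

theorem flip_group {G : Type*} [Group G] {N H H' Ha Z xa xma ya yma yia x2 : G}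
    (f1 : xa * yia * xa = Ha * N) (f2 : xma * yia⁻¹ * xma = Ha * Z * N)
    (hx : xa * xma = 1) (hy : ya * yma = 1)
    (k1 : yia⁻¹ * (H * Z) * yma = H * Z * yia) (k2 : xma * (H * Z) = H * Z * x2)
    (NH : N * (H * Z) = H' * Z * N)
    (k3 : ya * (H' * (Ha * Z)) * N * xa = H' * (Ha * Z) * N * x2)
    (hc : Ha * (H' * Z) = H' * (Ha * Z)) :
    xa * (H * Z) * yma = ya * H' * xma := by
  have h1 : xa = Ha * N * xma * yia⁻¹ := by
    have : xma = xa⁻¹ := (inv_eq_of_mul_eq_one_right hx).symm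
    rw [← f1, this]; group
  have h2 : xma = Ha * Z * N * xa * yia := by
    have : xa = xma⁻¹ := (inv_eq_of_mul_eq_one_left hx).symm
    rw [← f2, this]; group
  calc xa * (H * Z) * yma = Ha * N * xma * (yia⁻¹ * (H * Z) * yma) := by
        conv_lhs => rw [h1]
        group
    _ = Ha * N * (xma * (H * Z)) * yia := by rw [k1]; group
    _ = Ha * (N * (H * Z)) * x2 * yia := by rw [k2]; group
    _ = (Ha * (H' * Z)) * N * x2 * yia := by rw [NH]; group
    _ = (H' * (Ha * Z) * N * x2) * yia := by rw [hc]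
    _ = ya * H' * (Ha * Z * N * xa * yia) := by rw [← k3]; group
    _ = _ := by rw [← h2]

/-- over a field with `τ ^ 2 + α ^ 2 = -1`, `τ ≠ 0`, the Weyl element of a root is conjugate to
its inverse by a product of root elements of the root and its negative -/
theorem flip (hA : Good A) {r w : Fin n → ℤ} (hr : ip A r r = 2) (hw : ip A r w = 1)
    {τ : Kˣ} {α : K} (h : (τ : K) ^ 2 + α ^ 2 = -1) :
    ∃ k ∈ ChevalleyGroup A K, k * nn hA r = (nn hA r)⁻¹ * k ∧
      ∀ z : GLM A K, (∀ t : K, z * X hA r t = X hA r t * z) →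
        (∀ t : K, z * X hA (-r) t = X hA (-r) t * z) → z * k = k * z := by
  have hr' := root_neg hr
  have nx := fun t : K => (nn_x hA hr t).1
  have ny := fun t : K => (nn_x hA hr t).2
  have hrm : ip A r (-r) = -2 := by rw [ip_neg_right, hr]
  have hmr : ip A (-r) r = -2 := by rw [ip_neg_left, hr]
  have hmm : ip A (-r) (-r) = 2 := hr'
  have nsq := nn_sq (K := K) hA hr
  have nH : (nn hA r * HH A r τ : GLM A K) = HH A (-r) τ * nn hA r := by
    rw [nn_HH hA hr]
    congr 2
    unfold rf; rw [hr]; ext i; simp; ring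
  have Zx : ∀ t : K, hh A K r * X hA r t = X hA r t * hh A K r := by
    intro t; rw [hh_X hA, hr, sg_even (by norm_num), Int.cast_one, one_mul]
  have Zy : ∀ t : K, hh A K r * X hA (-r) t = X hA (-r) t * hh A K r := by
    intro t; rw [hh_X hA, hrm, sg_even (by norm_num), Int.cast_one, one_mul]
  have ZH : ∀ (v : Fin n → ℤ) (t : Kˣ), hh A K r * HH A v t = HH A v t * hh A K r := by
    intro v t; rw [← HH_neg_one, HH_comm]
  -- the key identity
  have key : X hA r α * (HH A r τ * hh A K r) * X hA (-r) (-α) =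
      X hA (-r) α * HH A (-r) τ * X hA r (-α) := by
    by_cases ha : α = 0
    · rw [ha, neg_zero]
      simp only [X_zero, one_mul, mul_one]
      rw [← HH_neg_one, ← HH_mul, ← HH_inv, inv_eq_of_mul_eq_one_left]
      have e1 : τ * -1 * τ = 1 := by
        apply Units.ext
        push_cast
        rw [ha] at h
        linear_combination -h
      rw [← HH_mul, e1]
      refine gl_ext fun x => lm_ext (fun v hv => ?_) rfl
      rw [HH_fst _ _ _ hv, one_zpow, Units.val_one, one_mul]; rfl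
    · set a : Kˣ := Units.mk0 α ha with hadef
      have hav : (a : K) = α := rfl
      have haiv : ((a⁻¹ : Kˣ) : K) = α⁻¹ := by rw [Units.val_inv_eq_inv_val, hav]
      have f1 := HH_rel (K := K) hA hr hw a
      rw [hav, haiv] at f1
      have f2 := HH_rel (K := K) hA hr hw (a * -1)
      have e2 : ((a * -1 : Kˣ) : K) = -α := by push_cast; rw [hav]; ring
      have e3 : (((a * -1)⁻¹ : Kˣ) : K) = -α⁻¹ := by
        rw [Units.val_inv_eq_inv_val, e2, inv_neg]
      rw [e2, e3, HH_mul, HH_neg_one] at f2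
      have e4 : (X hA (-r) (α⁻¹) : GLM A K)⁻¹ = X hA (-r) (-α⁻¹) := X_inv hA _ _
      have hz2 : ((τ ^ (2 : ℤ) : Kˣ) : K) = (τ : K) ^ 2 := by
        rw [show (τ ^ (2 : ℤ) : Kˣ) = τ ^ 2 from rfl, Units.val_pow_eq_pow_val]
      have hzm2 : ((τ ^ (-2 : ℤ) : Kˣ) : K) = ((τ : K) ^ 2)⁻¹ := by
        rw [zpow_neg, Units.val_inv_eq_inv_val, hz2]
      have hza2 : ((a ^ (2 : ℤ) : Kˣ) : K) = α ^ 2 := by
        rw [show (a ^ (2 : ℤ) : Kˣ) = a ^ 2 from rfl, Units.val_pow_eq_pow_val, hav]
      have ht : (τ : K) ≠ 0 := τ.ne_zero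
      refine flip_group (N := nn hA r) (Ha := HH A r a) (yia := X hA (-r) α⁻¹)
        (x2 := X hA r (-(α * ((τ : K) ^ 2)⁻¹))) f1 ?_ ?_ ?_ ?_ ?_ ?_ ?_ ?_
      · rw [e4]; exact f2
      · rw [X_add, add_neg_cancel, X_zero]
      · rw [X_add, add_neg_cancel, X_zero]
      · rw [e4]
        have g1 : X hA (-r) (-α⁻¹) * HH A r τ = HH A r τ * X hA (-r) ((τ : K) ^ 2 * -α⁻¹) := by
          rw [X_HH hA, hrm, neg_neg, hz2]
        calc X hA (-r) (-α⁻¹) * (HH A r τ * hh A K r) * X hA (-r) (-α)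
            = (X hA (-r) (-α⁻¹) * HH A r τ) * (hh A K r * X hA (-r) (-α)) := by group
          _ = HH A r τ * X hA (-r) ((τ : K) ^ 2 * -α⁻¹) * (X hA (-r) (-α) * hh A K r) := by
              rw [g1, Zy]
          _ = HH A r τ * (X hA (-r) ((τ : K) ^ 2 * -α⁻¹) * X hA (-r) (-α)) * hh A K r := by group
          _ = HH A r τ * (X hA (-r) α⁻¹ * hh A K r) := by
              rw [X_add, mul_assoc]
              congr 3
              field_simp
              linear_combination -h
          _ = _ := by rw [← Zy, mul_assoc]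
      · have g1 : X hA r (-α) * HH A r τ = HH A r τ * X hA r (((τ : K) ^ 2)⁻¹ * -α) := by
          rw [X_HH hA, hr, hzm2]
        rw [← mul_assoc, g1, mul_assoc, ← Zx, mul_assoc]
        congr 3
        ring
      · rw [← mul_assoc, nH, mul_assoc, mul_assoc]
        congr 1
        rw [← nsq, mul_assoc]
      · have g1 : X hA (-r) α * HH A (-r) τ = HH A (-r) τ * X hA (-r) (((τ : K) ^ 2)⁻¹ * α) := by
          rw [X_HH hA, hmm, hzm2]
        have g2 : ∀ s : K, X hA (-r) s * HH A r a = HH A r a * X hA (-r) (α ^ 2 * s) := by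
          intro s; rw [X_HH hA, hrm, neg_neg, hza2]
        calc X hA (-r) α * (HH A (-r) τ * (HH A r a * hh A K r)) * nn hA r * X hA r α
            = (X hA (-r) α * HH A (-r) τ) * HH A r a * hh A K r * nn hA r * X hA r α := by group
          _ = HH A (-r) τ * (X hA (-r) (((τ : K) ^ 2)⁻¹ * α) * HH A r a) * hh A K r * nn hA r *
              X hA r α := by rw [g1]; group
          _ = HH A (-r) τ * HH A r a * (X hA (-r) (α ^ 2 * (((τ : K) ^ 2)⁻¹ * α)) * hh A K r) *
              nn hA r * X hA r α := by rw [g2]; group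
          _ = HH A (-r) τ * HH A r a * hh A K r *
              (X hA (-r) (α ^ 2 * (((τ : K) ^ 2)⁻¹ * α)) * nn hA r) * X hA r α := by
              rw [← Zy]; group
          _ = HH A (-r) τ * HH A r a * hh A K r * nn hA r *
              (X hA r (α ^ 2 * (((τ : K) ^ 2)⁻¹ * α)) * X hA r α) := by rw [← nx]; group
          _ = _ := by
              rw [X_add]
              have e5 : α ^ 2 * (((τ : K) ^ 2)⁻¹ * α) + α = -(α * ((τ : K) ^ 2)⁻¹) := by
                have e6 : α ^ 2 * (((τ : K) ^ 2)⁻¹ * α) + α =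
                    α * ((τ : K) ^ 2)⁻¹ * (α ^ 2 + (τ : K) ^ 2) := by field_simp
                rw [e6, show α ^ 2 + (τ : K) ^ 2 = -1 by linear_combination h]; ring
              rw [e5]; group
      · rw [← mul_assoc, HH_comm, mul_assoc]
  refine ⟨X hA r α * HH A r τ * nn hA r * X hA r (-α), ?_, ?_, ?_⟩
  · exact Subgroup.mul_mem _ (Subgroup.mul_mem _ (Subgroup.mul_mem _ (X_mem hA _ _)
      (HH_root_mem hA hr hw τ)) (nn_mem hA r)) (X_mem hA _ _)
  · have c1 : X hA r (-α) * nn hA r = nn hA r * X hA (-r) (-α) := (ny _).symm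
    have c2 : (nn hA r)⁻¹ * X hA r α = X hA (-r) α * (nn hA r)⁻¹ := by
      have := ny α
      calc (nn hA r)⁻¹ * X hA r α = (nn hA r)⁻¹ * (X hA r α * nn hA r) * (nn hA r)⁻¹ := by group
        _ = _ := by rw [← this]; group
    have c3 : (nn hA r)⁻¹ * HH A r τ * nn hA r = HH A (-r) τ := by
      have h5 : (nn hA r * HH A (-r) τ : GLM A K) = HH A r τ * nn hA r := by
        rw [nn_HH hA hr]
        congr 2
        unfold rf; rw [hrm]; ext i; simp; ring
      rw [mul_assoc, ← h5]; group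
    calc X hA r α * HH A r τ * nn hA r * X hA r (-α) * nn hA r
        = X hA r α * HH A r τ * nn hA r * (X hA r (-α) * nn hA r) := by group
      _ = X hA r α * HH A r τ * (nn hA r * nn hA r) * X hA (-r) (-α) := by rw [c1]; group
      _ = X hA r α * (HH A r τ * hh A K r) * X hA (-r) (-α) := by rw [nsq]; group
      _ = X hA (-r) α * HH A (-r) τ * X hA r (-α) := key
      _ = X hA (-r) α * ((nn hA r)⁻¹ * HH A r τ * nn hA r) * X hA r (-α) := by rw [c3]
      _ = (X hA (-r) α * (nn hA r)⁻¹) * HH A r τ * nn hA r * X hA r (-α) := by group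
      _ = _ := by rw [← c2]; group
  · intro z z1 z2
    have z3 : z * nn hA r = nn hA r * z := by
      unfold nn
      calc z * (X hA r 1 * X hA (-r) 1 * X hA r 1)
          = (z * X hA r 1) * X hA (-r) 1 * X hA r 1 := by group
        _ = X hA r 1 * (z * X hA (-r) 1) * X hA r 1 := by rw [z1]; group
        _ = X hA r 1 * X hA (-r) 1 * (z * X hA r 1) := by rw [z2]; group
        _ = _ := by rw [z1]; group
    have z4 : z * HH A r τ = HH A r τ * z := by
      have f := HH_rel (K := K) hA hr hw τ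
      have e : HH A r τ = X hA r (τ : K) * X hA (-r) ((τ⁻¹ : Kˣ) : K) * X hA r (τ : K) *
          (nn hA r)⁻¹ := by rw [f]; group
      have z5 : z * (nn hA r)⁻¹ = (nn hA r)⁻¹ * z := by
        calc z * (nn hA r)⁻¹ = (nn hA r)⁻¹ * (nn hA r * z) * (nn hA r)⁻¹ := by group
          _ = _ := by rw [← z3]; group
      rw [e]
      calc z * (X hA r (τ : K) * X hA (-r) ((τ⁻¹ : Kˣ) : K) * X hA r (τ : K) * (nn hA r)⁻¹)
          = (z * X hA r (τ : K)) * X hA (-r) ((τ⁻¹ : Kˣ) : K) * X hA r (τ : K) *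
            (nn hA r)⁻¹ := by group
        _ = X hA r (τ : K) * (z * X hA (-r) ((τ⁻¹ : Kˣ) : K)) * X hA r (τ : K) *
            (nn hA r)⁻¹ := by rw [z1]; group
        _ = X hA r (τ : K) * X hA (-r) ((τ⁻¹ : Kˣ) : K) * (z * X hA r (τ : K)) *
            (nn hA r)⁻¹ := by rw [z2]; group
        _ = X hA r (τ : K) * X hA (-r) ((τ⁻¹ : Kˣ) : K) * X hA r (τ : K) *
            (z * (nn hA r)⁻¹) := by rw [z1]; group
        _ = _ := by rw [z5]; group
    calc z * (X hA r α * HH A r τ * nn hA r * X hA r (-α))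
        = (z * X hA r α) * HH A r τ * nn hA r * X hA r (-α) := by group
      _ = X hA r α * (z * HH A r τ) * nn hA r * X hA r (-α) := by rw [z1]; group
      _ = X hA r α * HH A r τ * (z * nn hA r) * X hA r (-α) := by rw [z4]; group
      _ = X hA r α * HH A r τ * nn hA r * (z * X hA r (-α)) := by rw [z3]; group
      _ = _ := by rw [z1]; group

/-- minus one is a sum of two squares, the first one not zero -/
theorem two_sq {K : Type*} [Field K] [Finite K] (h2 : (2 : K) ≠ 0) :
    ∃ (τ : Kˣ) (α : K), (τ : K) ^ 2 + α ^ 2 = -1 := by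
  haveI := Fintype.ofFinite K
  have hc : Fintype.card K % 2 = 1 := by
    refine (FiniteField.odd_card_of_char_ne_two ?_)
    intro h
    apply h2
    have := CharP.cast_eq_zero K (ringChar K)
    rw [h] at this
    exact_mod_cast this
  obtain ⟨a, b, hab⟩ := FiniteField.exists_root_sum_quadratic
    (f := Polynomial.X ^ 2 - Polynomial.C (-1 : K))
    (g := (Polynomial.X ^ 2 : Polynomial K)) (Polynomial.degree_X_pow_sub_C (by norm_num) _)
    (Polynomial.degree_X_pow 2) hc
  simp only [Polynomial.eval_sub, Polynomial.eval_pow, Polynomial.eval_X, Polynomial.eval_C] at hab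
  by_cases ha : a = 0
  · by_cases hb : b = 0
    · rw [ha, hb] at hab; norm_num at hab
    · exact ⟨Units.mk0 b hb, a, by show b ^ 2 + a ^ 2 = -1; linear_combination hab⟩
  · exact ⟨Units.mk0 a ha, b, by show a ^ 2 + b ^ 2 = -1; linear_combination hab⟩

/-- changing the torus part by a root on which it is even -/
theorem flip_conj (hA : Good A) [Finite K] (hK : (2 : K) ≠ 0)
    {r w : Fin n → ℤ} (hr : ip A r r = 2) (hw : ip A r w = 1) {l : List (Fin n → ℤ)}
    {v : Fin n → ℤ} (hl : ∀ s ∈ l, ip A s s = 2) (ho : ∀ s ∈ l, ip A s r = 0)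
    (hv : ip A v r % 2 = 0) :
    Cj (NN hA ((true, r) :: mw l v) : GLM A K) (NN hA ((true, r) :: (false, r) :: mw l v)) := by
  obtain ⟨τ, α, h⟩ := two_sq (K := K) hK
  obtain ⟨k, hk, h1, h2⟩ := flip hA hr hw h
  have z1 : ∀ t : K, NN hA (mw l v) * X hA r t = X hA r t * NN hA (mw l v) := by
    intro t
    rw [mw_X hA hl ho, sg_even hv, Int.cast_one, one_mul]
  have z2 : ∀ t : K, NN hA (mw l v) * X hA (-r) t = X hA (-r) t * NN hA (mw l v) := by
    intro t
    rw [mw_X hA hl (fun s hs => by rw [ip_neg_right, ho s hs, neg_zero]), ip_neg_right, sg_neg,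
      sg_even hv, Int.cast_one, one_mul]
  have z3 := h2 _ z1 z2
  have hn : (nn hA r : GLM A K)⁻¹ = nn hA r * hh A K r := by
    rw [inv_eq_iff_mul_eq_one, ← mul_assoc, nn_sq hA hr, hh_sq]
  refine ⟨k, hk, ?_⟩
  show k * (nn hA r * NN hA (mw l v)) * k⁻¹ = nn hA r * (hh A K r * NN hA (mw l v))
  calc k * (nn hA r * NN hA (mw l v)) * k⁻¹ = (k * nn hA r) * NN hA (mw l v) * k⁻¹ := by group
    _ = (nn hA r)⁻¹ * (k * NN hA (mw l v)) * k⁻¹ := by rw [h1]; group
    _ = (nn hA r)⁻¹ * NN hA (mw l v) := by rw [← z3]; group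
    _ = _ := by rw [hn, mul_assoc]

end H41Chev
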