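import Mathlib
import Pool.Agent.H.MP_0335f8_al.helper41.Flip
import Pool.Agent.H.MP_0335f8_al.helper41.Ex

/-!
# The certificate for `E₇`, odd characteristic
-/

namespace H41Chev.E7odd

variable {K : Type*} [Field K]

/-- the roots of the first element -/
def la : List (Fin 7 → ℤ) :=
  [![0, 1, 0, 0, 0, 0, 0], ![0, 0, 0, 0, 1, 1, 0], ![1, 1, 2, 2, 1, 1, 0]]

/-- the torus part of the first element -/
def va : Fin 7 → ℤ := ![0, 1, 1, 1, 1, 1, 0]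

/-- the roots of the second element -/
def lb : List (Fin 7 → ℤ) :=
  [![0, 0, 0, 0, 1, 0, 0], ![0, 1, 0, 0, 0, 0, 0], ![1, 0, 0, 0, 0, 0, 0], ![1, 1, 2, 2, 1, 0, 0]]

/-- the torus part of the second element -/
def vb : Fin 7 → ℤ := ![0, 1, 0, 0, 0, 0, 0]

/-- the roots of the third element -/
def lc : List (Fin 7 → ℤ) :=
  [![0, 0, 0, 1, 0, 0, 0], ![0, 0, 0, 0, 0, 1, 1]]

/-- the torus part of the third element -/
def vc : Fin 7 → ℤ := ![1, 0, 1, 1, 0, 1, 0]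

theorem oka : wok CartanMatrix.E₇ (mw la va) := by decide +kernel

theorem okb : wok CartanMatrix.E₇ (mw lb vb) := by decide +kernel

theorem okc : wok CartanMatrix.E₇ (mw lc vc) := by decide +kernel

/-- the three elements and a product of two root elements generate -/
theorem gen {u : K} (hu : u ≠ 0) (hs : Sp u 2) (h2 : (2 : K) ≠ 0)
    (L : Subgroup (GLM CartanMatrix.E₇ K)) (ha : NN good7 (mw la va) ∈ L) (hb : NN good7 (mw lb vb) ∈ L)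
    (hc : NN good7 (mw lc vc) ∈ L) (h0 : X good7 ![1, 1, 1, 2, 2, 1, 1] (u / 2) * X good7 ![2, 2, 3, 4, 3, 2, 1] (u / 2) ∈ L) :
    ChevalleyGroup CartanMatrix.E₇ K ≤ L := by
  have p0 : Pr good7 L (u / 2) ![1, 1, 1, 2, 2, 1, 1] 1 ![2, 2, 3, 4, 3, 2, 1] 1 := Pr_base good7 h0
  have p1 : Pr good7 L (u / 2) ![0, 1, 1, 2, 1, 1, 1] (-1) ![0, 1, 1, 2, 2, 2, 1] 1 :=
    Pr_conj good7 okb hb p0 (by decide +kernel)
  have p2 : Pr good7 L (u / 2) ![0, 1, 1, 1, 1, 0, 0] (-1) ![0, 1, 1, 2, 2, 1, 0] 1 :=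
    Pr_conj good7 okc hc p1 (by decide +kernel)
  have p3 : Pr good7 L (u / 2) ![0, -1, -1, -1, -1, 0, 0] (-1) ![1, 1, 1, 2, 1, 1, 0] 1 :=
    Pr_conj good7 okb hb p2 (by decide +kernel)
  have p4 : Pr good7 L (u / 2) ![0, -1, -1, -2, -1, -1, -1] (-1) ![1, 1, 1, 1, 1, 1, 0] (-1) :=
    Pr_conj good7 okc hc p3 (by decide +kernel)
  have p5 : Pr good7 L (u / 2) ![0, -1, -1, -2, -2, -2, -1] (-1) ![0, -1, -1, -1, -1, -1, 0] 1 :=
    Pr_conj good7 oka ha p4 (by decide +kernel)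
  have p6 : Pr good7 L (u / 2) ![-2, -2, -3, -4, -3, -2, -1] (-1) ![-1, 0, -1, -1, -1, -1, 0] 1 :=
    Pr_conj good7 okb hb p5 (by decide +kernel)
  have p7 : Pr good7 L (u / 2) ![-2, -2, -3, -4, -3, -2, -1] 1 ![-1, 0, -1, -1, -1, -1, 0] 1 :=
    Pr_conj good7 okc hc p6 (by decide +kernel)
  have z0 : Lv good7 L u ![-1, 0, -1, -1, -1, -1, 0] 1 := Pr_single good7 h2 p6 p7 (by decide +kernel)
  have f1 : Lv good7 L u ![0, 0, 1, 1, 1, 1, 0] 1 :=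
    Lv_conj good7 oka ha z0 (by decide +kernel)
  have f2 : Lv good7 L u ![-1, 0, 0, 0, 0, 0, 0] 2 :=
    Lv_sum' good7 f1 z0 (by decide +kernel)
  have f3 : Lv good7 L u ![1, 0, 0, 0, 0, 0, 0] 2 :=
    Lv_conj good7 okb hb f2 (by decide +kernel)
  have f4 : Lv good7 L u ![0, -1, -1, -1, -1, -1, 0] 1 :=
    Lv_conj good7 okb hb z0 (by decide +kernel)
  have f5 : Lv good7 L u ![0, -1, -1, -2, -1, -1, 0] 1 :=
    Lv_conj good7 okc hc f4 (by decide +kernel)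
  have f6 : Lv good7 L u ![1, 0, 1, 0, 0, 0, 0] 1 :=
    Lv_conj good7 oka ha f5 (by decide +kernel)
  have f7 : Lv good7 L u ![1, 0, 1, 1, 0, 0, 0] 1 :=
    Lv_conj good7 okc hc f6 (by decide +kernel)
  have f8 : Lv good7 L u ![-1, 0, -1, -1, 0, 0, 0] 1 :=
    Lv_conj good7 okb hb f7 (by decide +kernel)
  have f9 : Fl good7 L ![1, 0, 0, 0, 0, 0, 0] :=
    Fl_loop' good7 hu hs f3 f8 f7 (by decide +kernel)
  have f10 : Fl good7 L ![-1, 0, 0, 0, 0, 0, 0] :=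
    Fl_loop' good7 hu hs f2 f7 f8 (by decide +kernel)
  have f11 : Lv good7 L u ![1, 1, 1, 1, 1, 1, 0] 1 :=
    Lv_conj good7 oka ha f4 (by decide +kernel)
  have f12 : Lv good7 L u ![0, 1, 0, 0, 0, 0, 0] 2 :=
    Lv_sum' good7 f11 z0 (by decide +kernel)
  have f13 : Fl good7 L ![0, 1, 0, 0, 0, 0, 0] :=
    Fl_loop' good7 hu hs f12 f7 f8 (by decide +kernel)
  have f14 : Lv good7 L u ![0, -1, 0, 0, 0, 0, 0] 2 :=
    Lv_sum' good7 f1 f4 (by decide +kernel)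
  have f15 : Fl good7 L ![0, -1, 0, 0, 0, 0, 0] :=
    Fl_loop' good7 hu hs f14 f8 f7 (by decide +kernel)
  have f16 : Lv good7 L u ![0, 0, 1, 0, 0, 0, 0] 3 :=
    Lv_sum' good7 f6 f2 (by decide +kernel)
  have f17 : Lv good7 L u ![-1, 0, -1, 0, 0, 0, 0] 1 :=
    Lv_conj good7 okc hc f8 (by decide +kernel)
  have f18 : Fl good7 L ![0, 0, 1, 0, 0, 0, 0] :=
    Fl_loop' good7 hu hs f16 f17 f6 (by decide +kernel)
  have f19 : Lv good7 L u ![1, 1, 1, 2, 1, 1, 0] 1 :=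
    Lv_conj good7 okc hc f11 (by decide +kernel)
  have f20 : Lv good7 L u ![0, 0, -1, 0, 0, 0, 0] 1 :=
    Lv_conj good7 oka ha f19 (by decide +kernel)
  have f21 : Fl good7 L ![0, 0, -1, 0, 0, 0, 0] :=
    Fl_loop' good7 hu hs f20 f6 f17 (by decide +kernel)
  have f22 : Lv good7 L u ![-1, -1, -1, -1, -1, -1, 0] 3 :=
    Lv_sum' good7 f2 f4 (by decide +kernel)
  have f23 : Lv good7 L u ![0, 0, 0, 1, 0, 0, 0] 4 :=
    Lv_sum' good7 f22 f19 (by decide +kernel)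
  have f24 : Lv good7 L u ![0, 1, 1, 2, 1, 1, 0] 1 :=
    Lv_conj good7 oka ha f17 (by decide +kernel)
  have f25 : Fl good7 L ![0, 0, 0, 1, 0, 0, 0] :=
    Fl_loop' good7 hu hs f23 f5 f24 (by decide +kernel)
  have f26 : Lv good7 L u ![0, -1, 0, -1, 0, 0, 0] 2 :=
    Lv_sum' good7 f5 f1 (by decide +kernel)
  have f27 : Lv good7 L u ![0, 0, 0, -1, 0, 0, 0] 4 :=
    Lv_sum' good7 f26 f12 (by decide +kernel)
  have f28 : Fl good7 L ![0, 0, 0, -1, 0, 0, 0] :=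
    Fl_loop' good7 hu hs f27 f7 f8 (by decide +kernel)
  have f29 : Lv good7 L u ![0, 1, 1, 2, 2, 1, 0] 1 :=
    Lv_conj good7 okb hb f19 (by decide +kernel)
  have f30 : Lv good7 L u ![0, 0, 0, 0, 1, 0, 0] 2 :=
    Lv_sum' good7 f29 f5 (by decide +kernel)
  have f31 : Fl good7 L ![0, 0, 0, 0, 1, 0, 0] :=
    Fl_loop' good7 hu hs f30 f7 f8 (by decide +kernel)
  have f32 : Lv good7 L u ![-1, -1, -1, -2, -2, -1, 0] 1 :=
    Lv_conj good7 okb hb f5 (by decide +kernel)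
  have f33 : Lv good7 L u ![0, 0, 0, 0, -1, 0, 0] 2 :=
    Lv_sum' good7 f32 f19 (by decide +kernel)
  have f34 : Fl good7 L ![0, 0, 0, 0, -1, 0, 0] :=
    Fl_loop' good7 hu hs f33 f8 f7 (by decide +kernel)
  have f35 : Lv good7 L u ![-1, -1, -1, -2, -1, 0, 0] 1 :=
    Lv_conj good7 okb hb f6 (by decide +kernel)
  have f36 : Lv good7 L u ![0, 0, 0, 0, 0, 1, 0] 2 :=
    Lv_sum' good7 f35 f19 (by decide +kernel)
  have f37 : Fl good7 L ![0, 0, 0, 0, 0, 1, 0] :=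
    Fl_loop' good7 hu hs f36 f5 f24 (by decide +kernel)
  have f38 : Lv good7 L u ![0, 1, 1, 2, 1, 0, 0] 1 :=
    Lv_conj good7 okb hb f20 (by decide +kernel)
  have f39 : Lv good7 L u ![0, 0, 0, 0, 0, -1, 0] 2 :=
    Lv_sum' good7 f38 f5 (by decide +kernel)
  have f40 : Fl good7 L ![0, 0, 0, 0, 0, -1, 0] :=
    Fl_loop' good7 hu hs f39 f24 f5 (by decide +kernel)
  have f41 : Lv good7 L u ![0, 1, 1, 1, 1, 1, 1] 1 :=
    Lv_conj good7 okc hc f38 (by decide +kernel)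
  have f42 : Lv good7 L u ![0, 0, 0, 0, 0, 0, 1] 2 :=
    Lv_sum' good7 f41 f4 (by decide +kernel)
  have f43 : Fl good7 L ![0, 0, 0, 0, 0, 0, 1] :=
    Fl_loop' good7 hu hs f42 f24 f5 (by decide +kernel)
  have f44 : Lv good7 L u ![-1, -1, -1, -1, -1, -1, -1] 1 :=
    Lv_conj good7 okc hc f35 (by decide +kernel)
  have f45 : Lv good7 L u ![0, 0, 0, 0, 0, 0, -1] 2 :=
    Lv_sum' good7 f44 f11 (by decide +kernel)
  have f46 : Fl good7 L ![0, 0, 0, 0, 0, 0, -1] :=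
    Fl_loop' good7 hu hs f45 f5 f24 (by decide +kernel)
  refine gen_simple good7 (all7 ?_ ?_ ?_ ?_ ?_ ?_ ?_) (all7 ?_ ?_ ?_ ?_ ?_ ?_ ?_)
  · exact Fl_eq good7 f9 (by decide +kernel)
  · exact Fl_eq good7 f13 (by decide +kernel)
  · exact Fl_eq good7 f18 (by decide +kernel)
  · exact Fl_eq good7 f25 (by decide +kernel)
  · exact Fl_eq good7 f31 (by decide +kernel)
  · exact Fl_eq good7 f37 (by decide +kernel)
  · exact Fl_eq good7 f43 (by decide +kernel)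
  · exact Fl_eq good7 f10 (by decide +kernel)
  · exact Fl_eq good7 f15 (by decide +kernel)
  · exact Fl_eq good7 f21 (by decide +kernel)
  · exact Fl_eq good7 f28 (by decide +kernel)
  · exact Fl_eq good7 f34 (by decide +kernel)
  · exact Fl_eq good7 f40 (by decide +kernel)
  · exact Fl_eq good7 f46 (by decide +kernel)

/-- the certificate of the relations -/
theorem cert : Cert0 CartanMatrix.E₇ la va lb vb lc vc
    [![0, 0, 0, 0, 0, 1, 0], ![1, 0, 0, 0, 0, 0, 0], ![1, 1, 2, 2, 2, 1, 0]]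
    ![0, 1, 1, 1, 1, 1, 0]
    (mw [![0, 0, 0, 1, 0, 0, 0], ![0, 1, 0, 1, 1, 1, 0]] ![0, 1, 0, 0, 0, 0, 0]) := by
  decide +kernel

theorem stda : Std CartanMatrix.E₇ ![0, 1, 1, 1, 1, 1, 0] la va
    [] := by decide +kernel

theorem stdb : Std CartanMatrix.E₇ ![0, 1, 1, 1, 1, 1, 0]
    [![0, 0, 1, 1, 0, 0, 0], ![0, 1, 1, 1, 1, 0, 0], ![1, 0, 1, 1, 1, 0, 0], ![1, 1, 1, 1, 0, 0, 0]]
    ![0, 1, 1, 1, 0, 0, 0]
    [(true, ![0, 0, 0, 0, 1, 1, 0])] := by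
  decide +kernel

theorem stdc : Std CartanMatrix.E₇ ![0, 1, 1, 1, 1, 1, 0] lc vc
    [(true, ![1, 0, 0, 0, 0, 0, 0]), (true, ![0, 0, 0, 0, 0, 0, 1])] := by decide +kernel

theorem stdd : Std CartanMatrix.E₇ ![0, 1, 1, 1, 1, 1, 0]
    [![0, 0, 0, 0, 0, 1, 0], ![1, 0, 0, 0, 0, 0, 0], ![1, 1, 2, 2, 2, 1, 0]]
    ![0, 1, 1, 1, 1, 1, 0]
    [] := by
  decide +kernel

theorem fw1 : wok CartanMatrix.E₇ ((true, ![0, 0, 0, 0, 1, 0, 0]) :: (false, ![0, 0, 0, 0, 1, 0, 0]) :: mw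
    [![0, 1, 0, 0, 0, 0, 0], ![1, 0, 0, 0, 0, 0, 0], ![1, 1, 2, 2, 1, 0, 0]] vb) := by decide +kernel

theorem fw2 : ∀ j, wv CartanMatrix.E₇ ((true, ![0, 0, 0, 0, 1, 0, 0]) :: (false, ![0, 0, 0, 0, 1, 0, 0]) :: mw
    [![0, 1, 0, 0, 0, 0, 0], ![1, 0, 0, 0, 0, 0, 0], ![1, 1, 2, 2, 1, 0, 0]] vb) (Pi.single j 1) =
    wv CartanMatrix.E₇ (mw [![0, 0, 1, 1, 0, 0, 0], ![0, 1, 1, 1, 1, 0, 0], ![1, 0, 1, 1, 1, 0, 0], ![1, 1, 1, 1, 0, 0, 0]] ![0, 1, 1, 1, 0, 0, 0]) (Pi.single j 1) := by decide +kernel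

theorem fw3 : ∀ j, ws CartanMatrix.E₇ ((true, ![0, 0, 0, 0, 1, 0, 0]) :: (false, ![0, 0, 0, 0, 1, 0, 0]) :: mw
    [![0, 1, 0, 0, 0, 0, 0], ![1, 0, 0, 0, 0, 0, 0], ![1, 1, 2, 2, 1, 0, 0]] vb) (Pi.single j 1) =
    ws CartanMatrix.E₇ (mw [![0, 0, 1, 1, 0, 0, 0], ![0, 1, 1, 1, 1, 0, 0], ![1, 0, 1, 1, 1, 0, 0], ![1, 1, 1, 1, 0, 0, 0]] ![0, 1, 1, 1, 0, 0, 0]) (Pi.single j 1) := by decide +kernel

theorem conjb [Finite K] (hK : (2 : K) ≠ 0) :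
    Cj (hh CartanMatrix.E₇ K ![0, 1, 1, 1, 1, 1, 0]) (NN good7 (mw lb vb)) := by
  have h1 := std_conj (K := K) good7 hK stdb
  have h2 := flip_conj (K := K) good7 hK (r := ![0, 0, 0, 0, 1, 0, 0])
    (w := ![-1, -2, -2, -3, -2, -2, -1]) (l := [![0, 1, 0, 0, 0, 0, 0], ![1, 0, 0, 0, 0, 0, 0], ![1, 1, 2, 2, 1, 0, 0]])
    (v := vb) (by decide +kernel) (by decide +kernel) (by decide +kernel) (by decide +kernel)
    (by decide +kernel)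
  have h3 := NN_eq_int (K := K) good7 fw1 (Mo_wok stdb.1) fw2 fw3
  rw [h3] at h2
  exact h1.trans h2.symm

theorem sa1 : wv CartanMatrix.E₇ (mw la va) ![1, 1, 1, 2, 2, 1, 1] = ![2, 2, 3, 4, 3, 2, 1] ∧ ws CartanMatrix.E₇ (mw la va) ![1, 1, 1, 2, 2, 1, 1] = -1 := by decide +kernel

theorem sa2 : wv CartanMatrix.E₇ (mw la va) ![2, 2, 3, 4, 3, 2, 1] = ![1, 1, 1, 2, 2, 1, 1] ∧ ws CartanMatrix.E₇ (mw la va) ![2, 2, 3, 4, 3, 2, 1] = -1 := by decide +kernel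

theorem sc1 : wv CartanMatrix.E₇ (mw lc vc) ![1, 1, 1, 2, 2, 1, 1] = ![1, 1, 1, 2, 2, 1, 1] ∧ ws CartanMatrix.E₇ (mw lc vc) ![1, 1, 1, 2, 2, 1, 1] = -1 := by decide +kernel

theorem sc2 : wv CartanMatrix.E₇ (mw lc vc) ![2, 2, 3, 4, 3, 2, 1] = ![2, 2, 3, 4, 3, 2, 1] ∧ ws CartanMatrix.E₇ (mw lc vc) ![2, 2, 3, 4, 3, 2, 1] = -1 := by decide +kernel

/-- the upper bound -/
theorem adm [Finite K] (hK : (2 : K) ≠ 0) :
    H47Inv.Admissible ↥(ChevalleyGroup CartanMatrix.E₇ K) 5 := by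
  obtain ⟨u, hu, hg⟩ := exists_gen K
  obtain ⟨m, hm, hm0⟩ := odd_char hK
  have hc : ∀ s t : K, X good7 ![1, 1, 1, 2, 2, 1, 1] s * X good7 ![2, 2, 3, 4, 3, 2, 1] t = X good7 ![2, 2, 3, 4, 3, 2, 1] t * X good7 ![1, 1, 1, 2, 2, 1, 1] s := fun s t =>
    X_comm good7 (by decide +kernel) s t
  refine adm0 good7 (r := ![1, 1, 1, 2, 2, 1, 1]) (by decide +kernel) cert (std_conj good7 hK stda) (conjb hK)
    (std_conj good7 hK stdc) (std_conj good7 hK stdd)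
    (C := X good7 ![1, 1, 1, 2, 2, 1, 1] (u / 2) * X good7 ![2, 2, 3, 4, 3, 2, 1] (u / 2))
    (D := X good7 ![1, 1, 1, 2, 2, 1, 1] (u / 4) * X good7 ![2, 2, 3, 4, 3, 2, 1] (u / 4))
    (Subgroup.mul_mem _ (X_mem _ _ _) (X_mem _ _ _)) ?_ ?_ ?_ hm ?_ (fun L ha hb hc h0 =>
      gen hu (sp_odd hK hg) hK L ha hb hc h0)
  · have e : (u / 4 + u / 4 : K) = u / 2 := by
      rw [show (4 : K) = 2 * 2 by norm_num]; field_simp; norm_num
    rw [mul_assoc, ← mul_assoc (X good7 ![2, 2, 3, 4, 3, 2, 1] (u / 4)), ← hc, mul_assoc, X_add, ← mul_assoc, X_add, e]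
  · rw [mul_inv_rev, X_inv, X_inv, ← hc]
    exact inv_pair_fix good7 okc sc1 sc2 _ _
  · rw [mul_inv_rev, X_inv, X_inv]
    exact inv_pair_swap good7 oka sa1 sa2 _ _
  · rw [(show Commute (X good7 ![1, 1, 1, 2, 2, 1, 1] (u / 2)) (X good7 ![2, 2, 3, 4, 3, 2, 1] (u / 2)) from hc _ _).mul_pow, X_pow, X_pow, hm0,
      zero_mul, X_zero, X_zero, one_mul]

end H41Chev.E7odd
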