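import Mathlib
import Pool.Agent.H.MP_0335f8_al.helper41.Conj2
import Pool.Agent.H.MP_0335f8_al.helper41.Ex

/-!
# The certificate for `E₇`, characteristic two
-/

namespace H41Chev.E7two

variable {K : Type*} [Field K]

/-- the roots of the first involution -/
def la : List (Fin 7 → ℤ) :=
  [![0, 0, 0, 0, 1, 0, 0],
   ![1, 0, 1, 0, 0, 0, 0],
   ![1, 1, 2, 3, 2, 1, 0]]

/-- the roots of the third involution -/
def lc : List (Fin 7 → ℤ) :=
  [![0, 0, 1, 1, 1, 0, 0],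
   ![1, 0, 1, 1, 1, 1, 1],
   ![1, 2, 2, 3, 2, 1, 1]]

/-- the second involution -/
def lb : XC 7 :=
  [(![-1, 0, -1, -1, -1, -1, 0], 0), (![0, 1, 1, 1, 1, 1, 0], 1), (![1, 1, 2, 2, 1, 0, 0], 0)]

/-- the word of the first involution -/
def wa : Wd 7 := la.map (Prod.mk true)

/-- the word of the third involution -/
def wc : Wd 7 := lc.map (Prod.mk true)

theorem oka : wok CartanMatrix.E₇ wa := by decide +kernel

theorem okc : wok CartanMatrix.E₇ wc := by decide +kernel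

/-- the three elements generate -/
theorem gen (hK : (2 : K) = 0) {u : K} (hu : u ≠ 0) (hs : ∀ j, Sp u (2 ^ j))
    (L : Subgroup (GLM CartanMatrix.E₇ K)) (ha : NN good7 wa ∈ L) (hb : XT good7 u lb ∈ L)
    (hc : NN good7 wc ∈ L) : ChevalleyGroup CartanMatrix.E₇ K ≤ L := by
  have s0 : Sp u 1 := by have := hs 0; norm_num at this; exact this
  have t0 : Tm good7 L u [(![-1, 0, -1, -1, -1, -1, 0], 0), (![0, 1, 1, 1, 1, 1, 0], 1), (![1, 1, 2, 2, 1, 0, 0], 0)] := hb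
  have t1 : Tm good7 L u [(![-1, -2, -2, -3, -2, -1, 0], 0), (![1, 1, 2, 2, 2, 2, 1], 1), (![0, -1, -1, -2, -2, -1, -1], 0)] :=
    Tm_conj_eq good7 hK okc hc t0 (by decide +kernel)
  have t2 : Tm good7 L u [(![0, -1, 0, 0, 0, 0, 0], 0), (![0, 1, 1, 2, 2, 2, 1], 1), (![-1, -1, -2, -2, -1, -1, -1], 0)] :=
    Tm_conj_eq good7 hK oka ha t1 (by decide +kernel)
  have t3 : Tm good7 L u [(![0, 1, 0, 1, 0, 0, 0], 0), (![0, 1, 1, 2, 2, 2, 1], 1), (![1, 1, 1, 2, 2, 1, 1], 0)] :=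
    Tm_conj_eq good7 hK okc hc t2 (by decide +kernel)
  have t4 : Tm good7 L u [(![0, 0, 0, 1, 0, 0, 0], 0)] :=
    Tm_com_eq good7 hK t3 t2 (by decide +kernel)
  have t5 : Tm good7 L u [(![0, 1, 1, 2, 1, 1, 0], 1)] :=
    Tm_com_eq good7 hK t4 t0 (by decide +kernel)
  have t6 : Tm good7 L u [(![0, 0, 0, 0, 1, 1, 0], 1), (![0, 0, 0, 0, 0, 1, 0], 1)] :=
    Tm_com_eq good7 hK t2 t1 (by decide +kernel)
  have t7 : Tm good7 L u [(![0, 0, 0, 1, 1, 1, 0], 1)] :=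
    Tm_com_eq good7 hK t4 t6 (by decide +kernel)
  have f0 : Lv good7 L u ![0, 0, 0, 1, 0, 0, 0] 0 := Lv_of_Tm good7 t4
  have f1 : Lv good7 L u ![0, -1, -1, -2, -1, -1, 0] 0 :=
    Lv_conj good7 oka ha f0 (by decide +kernel)
  have f2 : Lv good7 L u ![0, 0, 0, 1, 1, 1, 0] 1 := Lv_of_Tm good7 t7
  have f3 : Lv good7 L u ![0, -1, -1, -1, 0, 0, 0] 1 :=
    Lv_sum' good7 f1 f2 (by decide +kernel)
  have f4 : Lv good7 L u ![0, 1, 1, 2, 1, 1, 0] 1 := Lv_of_Tm good7 t5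
  have f5 : Fl good7 L ![0, -1, -1, -1, 0, 0, 0] :=
    Fl_loop' good7 hu s0 f3 f4 f1 (by decide +kernel)
  have f6 : Lv good7 L u ![0, 1, 0, 1, 1, 0, 0] 1 :=
    Lv_conj good7 okc hc f3 (by decide +kernel)
  have f7 : Lv good7 L u ![1, 1, 1, 1, 0, 0, 0] 1 :=
    Lv_conj good7 oka ha f6 (by decide +kernel)
  have f8 : Fl good7 L ![1, 0, 0, 0, 0, 0, 0] :=
    Fl_sum good7 hu f5 f7 (by decide +kernel)
  have f9 : Lv good7 L u ![0, -1, -1, -2, -1, 0, 0] 1 :=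
    Lv_conj good7 oka ha f2 (by decide +kernel)
  have f10 : Lv good7 L u ![0, 1, 1, 1, 1, 0, 0] 1 :=
    Lv_conj good7 okc hc f9 (by decide +kernel)
  have f11 : Lv good7 L u ![0, 1, 1, 2, 2, 1, 0] 2 :=
    Lv_sum' good7 f10 f2 (by decide +kernel)
  have f12 : Lv good7 L u ![0, 0, 0, -1, -1, 0, 0] 2 :=
    Lv_conj good7 oka ha f11 (by decide +kernel)
  have f13 : Lv good7 L u ![0, 0, 1, 0, 0, 0, 0] 2 :=
    Lv_conj good7 okc hc f12 (by decide +kernel)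
  have f14 : Lv good7 L u ![-1, 0, 0, 0, 0, 0, 0] 2 :=
    Lv_conj good7 oka ha f13 (by decide +kernel)
  have f15 : Fl good7 L ![-1, 0, 0, 0, 0, 0, 0] :=
    Fl_loop' good7 hu s0 f14 f1 f4 (by decide +kernel)
  have f16 : Lv good7 L u ![1, 2, 2, 4, 3, 2, 1] 1 :=
    Lv_conj good7 okc hc f2 (by decide +kernel)
  have f17 : Lv good7 L u ![1, 1, 1, 1, 1, 1, 1] 1 :=
    Lv_conj good7 oka ha f16 (by decide +kernel)
  have f18 : Fl good7 L ![1, 1, 1, 1, 1, 1, 1] :=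
    Fl_loop' good7 hu s0 f17 f4 f1 (by decide +kernel)
  have f19 : Lv good7 L u ![-1, -1, -2, -3, -2, -2, -1] 0 :=
    Lv_conj good7 okc hc f1 (by decide +kernel)
  have f20 : Lv good7 L u ![-1, 0, -1, -1, -1, -1, -1] 1 :=
    Lv_sum' good7 f19 f4 (by decide +kernel)
  have f21 : Fl good7 L ![0, 1, 0, 0, 0, 0, 0] :=
    Fl_sum good7 hu f18 f20 (by decide +kernel)
  have f22 : Fl good7 L ![0, 0, 0, 1, 0, 0, 0] :=
    Fl_loop' good7 hu s0 f0 f1 f4 (by decide +kernel)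
  have f23 : Fl good7 L ![0, -1, -1, -1, -1, -1, 0] :=
    Fl_sum good7 hu f22 f1 (by decide +kernel)
  have f24 : Lv good7 L u ![1, 2, 2, 3, 2, 2, 1] 2 :=
    Lv_sum' good7 f17 f4 (by decide +kernel)
  have f25 : Lv good7 L u ![0, 0, 1, 1, 1, 1, 0] 2 :=
    Lv_conj good7 okc hc f24 (by decide +kernel)
  have f26 : Fl good7 L ![0, -1, 0, 0, 0, 0, 0] :=
    Fl_sum good7 hu f23 f25 (by decide +kernel)
  have f27 : Lv good7 L u ![0, 0, 0, -1, 0, 0, 0] 1 :=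
    Lv_conj good7 oka ha f4 (by decide +kernel)
  have f28 : Fl good7 L ![0, 0, 1, 0, 0, 0, 0] :=
    Fl_loop' good7 hu s0 f13 f0 f27 (by decide +kernel)
  have f29 : Fl good7 L ![0, -1, -1, -1, -1, 0, 0] :=
    Fl_sum good7 hu f22 f9 (by decide +kernel)
  have f30 : Fl good7 L ![0, 0, -1, 0, 0, 0, 0] :=
    Fl_sum good7 hu f29 f6 (by decide +kernel)
  have f31 : Fl good7 L ![0, 0, 0, -1, 0, 0, 0] :=
    Fl_loop' good7 hu s0 f27 f4 f1 (by decide +kernel)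
  have f32 : Fl good7 L ![0, -1, -1, -2, -1, -1, 0] :=
    Fl_loop' good7 hu s0 f1 f0 f27 (by decide +kernel)
  have f33 : Fl good7 L ![0, 0, 0, 0, 1, 0, 0] :=
    Fl_sum good7 hu f32 f11 (by decide +kernel)
  have f34 : Fl good7 L ![0, 0, 0, 0, -1, 0, 0] :=
    Fl_sum good7 hu f22 f12 (by decide +kernel)
  have f35 : Lv good7 L u ![0, 0, 0, 0, 0, 1, 0] 2 :=
    Lv_sum' good7 f9 f4 (by decide +kernel)
  have f36 : Fl good7 L ![0, 0, 0, 0, 0, 1, 0] :=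
    Fl_loop' good7 hu s0 f35 f1 f4 (by decide +kernel)
  have f37 : Lv good7 L u ![0, 1, 1, 2, 1, 0, 0] 1 :=
    Lv_sum' good7 f10 f0 (by decide +kernel)
  have f38 : Fl good7 L ![0, 0, 0, 0, 0, -1, 0] :=
    Fl_sum good7 hu f32 f37 (by decide +kernel)
  have f39 : Lv good7 L u ![1, 2, 3, 4, 3, 2, 1] 2 :=
    Lv_conj good7 okc hc f35 (by decide +kernel)
  have f40 : Lv good7 L u ![0, 1, 1, 1, 1, 1, 1] 2 :=
    Lv_conj good7 oka ha f39 (by decide +kernel)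
  have f41 : Fl good7 L ![0, 0, 0, 0, 0, 0, 1] :=
    Fl_sum good7 hu f23 f40 (by decide +kernel)
  have f42 : Fl good7 L ![0, 0, 0, 1, 1, 1, 0] :=
    Fl_loop' good7 hu s0 f2 f1 f4 (by decide +kernel)
  have f43 : Lv good7 L u ![0, 0, 0, -1, -1, -1, -1] 1 :=
    Lv_conj good7 oka ha f20 (by decide +kernel)
  have f44 : Fl good7 L ![0, 0, 0, 0, 0, 0, -1] :=
    Fl_sum good7 hu f42 f43 (by decide +kernel)
  refine gen_simple good7 (all7 ?_ ?_ ?_ ?_ ?_ ?_ ?_) (all7 ?_ ?_ ?_ ?_ ?_ ?_ ?_)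
  · exact Fl_eq good7 f8 (by decide +kernel)
  · exact Fl_eq good7 f21 (by decide +kernel)
  · exact Fl_eq good7 f28 (by decide +kernel)
  · exact Fl_eq good7 f22 (by decide +kernel)
  · exact Fl_eq good7 f33 (by decide +kernel)
  · exact Fl_eq good7 f36 (by decide +kernel)
  · exact Fl_eq good7 f41 (by decide +kernel)
  · exact Fl_eq good7 f15 (by decide +kernel)
  · exact Fl_eq good7 f26 (by decide +kernel)
  · exact Fl_eq good7 f30 (by decide +kernel)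
  · exact Fl_eq good7 f31 (by decide +kernel)
  · exact Fl_eq good7 f34 (by decide +kernel)
  · exact Fl_eq good7 f38 (by decide +kernel)
  · exact Fl_eq good7 f44 (by decide +kernel)

/-- the certificate of the conjugacies -/
theorem cert : Cert2 CartanMatrix.E₇ la lc lb
    [(![-1, 0, -1, -1, -1, -1, 0], 0)]
    [(![0, 1, 1, 1, 1, 1, 0], 1)]
    [(true, ![0, 1, 1, 1, 0, 0, 0]), (true, ![0, 0, 0, 0, 0, 1, 0]), (true, ![1, 0, 1, 1, 1, 1, 0]), (true, ![1, 0, 1, 0, 0, 0, 0])]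
    [(true, ![0, 1, 0, 0, 0, 0, 0]), (true, ![0, 0, 0, 0, 0, 0, 1]), (true, ![0, 0, 0, 1, 1, 1, 1]), (true, ![0, 0, 1, 1, 0, 0, 0])] := by
  decide +kernel

theorem nbr : ∀ i, ∃ j, ip CartanMatrix.E₇ (Pi.single i 1) (Pi.single j 1) = -1 := by decide +kernel

/-- the upper bound -/
theorem adm [Finite K] (hK : (2 : K) = 0) :
    H47Inv.Admissible ↥(ChevalleyGroup CartanMatrix.E₇ K) 5 := by
  obtain ⟨u, hu, hg⟩ := exists_gen K
  exact adm2' good7 hK (sq_unit hK hu) (hroot_of good7 nbr) (h := ![1, 1, 2, 2, 2, 1, 0]) (by decide +kernel) cert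
    (gen hK hu (sp_two hK hg))

end H41Chev.E7two
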