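import Mathlib
import Pool.Agent.H.MP_0335f8_al.helper41.Odd
import Pool.Agent.H.MP_0335f8_al.helper41.Ex

/-!
# The certificate for `E₈`, odd characteristic
-/

namespace H41Chev.E8odd

variable {K : Type*} [Field K]

/-- the roots of the first element -/
def la : List (Fin 8 → ℤ) :=
  []

/-- the torus part of the first element -/
def va : Fin 8 → ℤ := ![1, 1, 0, 0, 0, 0, 0, 0]

/-- the roots of the second element -/
def lb : List (Fin 8 → ℤ) :=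
  [![1, 1, 2, 2, 2, 2, 2, 1], ![-1, -2, -2, -4, -3, -2, -2, -1], ![1, 1, 1, 1, 1, 0, 0, 0], ![0, 0, -1, -1, -1, 0, 0, 0]]

/-- the torus part of the second element -/
def vb : Fin 8 → ℤ := ![1, 0, 0, 0, 0, 0, 1, 0]

/-- the roots of the third element -/
def lc : List (Fin 8 → ℤ) :=
  [![0, 0, 0, 0, 0, 0, 1, 1], ![0, 0, -1, 0, 0, 0, 0, 0], ![2, 3, 4, 6, 4, 3, 2, 1], ![-1, -1, -2, -3, -3, -3, -2, -1]]

/-- the torus part of the third element -/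
def vc : Fin 8 → ℤ := ![0, 0, 0, 1, 0, 1, 0, 0]

theorem oka : wok CartanMatrix.E₈ (mw la va) := by decide +kernel

theorem okb : wok CartanMatrix.E₈ (mw lb vb) := by decide +kernel

theorem okc : wok CartanMatrix.E₈ (mw lc vc) := by decide +kernel

/-- the three elements and one root element generate -/
theorem gen {u : K} (hu : u ≠ 0) (hs : Sp u 2)
    (L : Subgroup (GLM CartanMatrix.E₈ K)) (ha : NN good8 (mw la va) ∈ L) (hb : NN good8 (mw lb vb) ∈ L)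
    (hc : NN good8 (mw lc vc) ∈ L) (h0 : X good8 ![1, 2, 2, 3, 3, 2, 1, 1] u ∈ L) : ChevalleyGroup CartanMatrix.E₈ K ≤ L := by
  have z0 : Lv good8 L u ![1, 2, 2, 3, 3, 2, 1, 1] 1 := by unfold Lv; rw [pow_one]; exact h0
  have f1 : Lv good8 L u ![0, 1, 1, 2, 2, 2, 1, 1] 1 :=
    Lv_conj good8 okb hb z0 (by decide +kernel)
  have f2 : Lv good8 L u ![-1, 0, -1, -1, -1, -1, -1, 0] 1 :=
    Lv_conj good8 okc hc f1 (by decide +kernel)
  have f3 : Lv good8 L u ![0, 1, 1, 1, 1, 1, 1, 1] 1 :=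
    Lv_conj good8 okb hb f2 (by decide +kernel)
  have f4 : Lv good8 L u ![0, 1, 0, 1, 1, 1, 0, 0] 1 :=
    Lv_conj good8 okc hc f3 (by decide +kernel)
  have f5 : Lv good8 L u ![1, 2, 3, 4, 4, 3, 2, 1] 1 :=
    Lv_conj good8 okb hb f4 (by decide +kernel)
  have f6 : Lv good8 L u ![0, 1, 0, 1, 1, 0, 0, 0] 1 :=
    Lv_conj good8 okc hc f5 (by decide +kernel)
  have f7 : Lv good8 L u ![-1, -1, -1, -2, -1, 0, 0, 0] 1 :=
    Lv_conj good8 okb hb f6 (by decide +kernel)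
  have f8 : Lv good8 L u ![0, 1, 0, 1, 0, 0, 0, 0] 1 :=
    Lv_conj good8 okc hc f7 (by decide +kernel)
  have f9 : Lv good8 L u ![0, 0, 1, 0, 0, 0, 0, 0] 1 :=
    Lv_conj good8 okb hb f8 (by decide +kernel)
  have f10 : Lv good8 L u ![0, 0, -1, 0, 0, 0, 0, 0] 1 :=
    Lv_conj good8 okc hc f9 (by decide +kernel)
  have f11 : Lv good8 L u ![0, -1, 0, -1, 0, 0, 0, 0] 1 :=
    Lv_conj good8 okb hb f10 (by decide +kernel)
  have f12 : Lv good8 L u ![1, 1, 1, 2, 1, 0, 0, 0] 1 :=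
    Lv_conj good8 okc hc f11 (by decide +kernel)
  have f13 : Lv good8 L u ![0, -1, 0, -1, -1, 0, 0, 0] 1 :=
    Lv_conj good8 okb hb f12 (by decide +kernel)
  have f14 : Lv good8 L u ![-1, -2, -3, -4, -4, -3, -2, -1] 1 :=
    Lv_conj good8 okc hc f13 (by decide +kernel)
  have f15 : Lv good8 L u ![0, -1, 0, -1, -1, -1, 0, 0] 1 :=
    Lv_conj good8 okb hb f14 (by decide +kernel)
  have f16 : Lv good8 L u ![0, -1, -1, -1, -1, -1, -1, -1] 1 :=
    Lv_conj good8 okc hc f15 (by decide +kernel)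
  have f17 : Lv good8 L u ![1, 0, 1, 1, 1, 1, 1, 0] 1 :=
    Lv_conj good8 okb hb f16 (by decide +kernel)
  have f18 : Lv good8 L u ![0, 0, -1, -1, -1, -1, -1, 0] 2 :=
    Lv_sum' good8 f14 z0 (by decide +kernel)
  have f19 : Lv good8 L u ![1, 0, 0, 0, 0, 0, 0, 0] 3 :=
    Lv_sum' good8 f17 f18 (by decide +kernel)
  have f20 : Lv good8 L u ![0, -1, -1, -2, -2, -2, -1, -1] 1 :=
    Lv_conj good8 okc hc f17 (by decide +kernel)
  have f21 : Fl good8 L ![1, 0, 0, 0, 0, 0, 0, 0] :=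
    Fl_loop' good8 hu hs f19 f1 f20 (by decide +kernel)
  have f22 : Fl good8 L ![-1, 0, -1, -1, -1, -1, -1, 0] :=
    Fl_loop' good8 hu hs f2 f11 f8 (by decide +kernel)
  have f23 : Lv good8 L u ![0, 0, 1, 1, 1, 1, 1, 1] 2 :=
    Lv_conj good8 okb hb f18 (by decide +kernel)
  have f24 : Lv good8 L u ![-1, -1, -2, -2, -2, -2, -2, -1] 2 :=
    Lv_conj good8 okc hc f23 (by decide +kernel)
  have f25 : Lv good8 L u ![1, 1, 2, 2, 2, 2, 2, 1] 2 :=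
    Lv_conj good8 okb hb f24 (by decide +kernel)
  have f26 : Lv good8 L u ![0, 0, -1, -1, -1, -1, -1, -1] 2 :=
    Lv_conj good8 okc hc f25 (by decide +kernel)
  have f27 : Lv good8 L u ![0, 0, 1, 1, 1, 1, 1, 0] 2 :=
    Lv_conj good8 okb hb f26 (by decide +kernel)
  have f28 : Fl good8 L ![-1, 0, 0, 0, 0, 0, 0, 0] :=
    Fl_sum good8 hu f22 f27 (by decide +kernel)
  have f29 : Fl good8 L ![0, 1, 1, 1, 1, 1, 1, 1] :=
    Fl_loop' good8 hu hs f3 f10 f9 (by decide +kernel)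
  have f30 : Fl good8 L ![0, 1, 0, 0, 0, 0, 0, 0] :=
    Fl_sum good8 hu f29 f26 (by decide +kernel)
  have f31 : Lv good8 L u ![0, -1, 0, 0, 0, 0, 0, 0] 3 :=
    Lv_sum' good8 f23 f16 (by decide +kernel)
  have f32 : Lv good8 L u ![-1, -2, -2, -3, -3, -2, -1, -1] 1 :=
    Lv_conj good8 okb hb f20 (by decide +kernel)
  have f33 : Fl good8 L ![0, -1, 0, 0, 0, 0, 0, 0] :=
    Fl_loop' good8 hu hs f31 z0 f32 (by decide +kernel)
  have f34 : Fl good8 L ![0, 0, 1, 0, 0, 0, 0, 0] :=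
    Fl_loop' good8 hu hs f9 f8 f11 (by decide +kernel)
  have f35 : Fl good8 L ![0, 0, -1, 0, 0, 0, 0, 0] :=
    Fl_loop' good8 hu hs f10 f11 f8 (by decide +kernel)
  have f36 : Fl good8 L ![1, 1, 1, 2, 1, 0, 0, 0] :=
    Fl_loop' good8 hu hs f12 f9 f10 (by decide +kernel)
  have f37 : Lv good8 L u ![1, 1, 1, 1, 1, 0, 0, 0] 2 :=
    Lv_sum' good8 f20 z0 (by decide +kernel)
  have f38 : Lv good8 L u ![-1, -1, -1, -1, -1, 0, 0, 0] 2 :=
    Lv_conj good8 okb hb f37 (by decide +kernel)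
  have f39 : Fl good8 L ![0, 0, 0, 1, 0, 0, 0, 0] :=
    Fl_sum good8 hu f36 f38 (by decide +kernel)
  have f40 : Fl good8 L ![1, 2, 2, 3, 3, 2, 1, 1] :=
    Fl_loop' good8 hu hs z0 f13 f6 (by decide +kernel)
  have f41 : Lv good8 L u ![-1, -1, -2, -2, -2, -2, -1, -1] 2 :=
    Lv_conj good8 okc hc f27 (by decide +kernel)
  have f42 : Lv good8 L u ![-1, -2, -2, -4, -3, -2, -1, -1] 2 :=
    Lv_conj good8 okb hb f41 (by decide +kernel)
  have f43 : Fl good8 L ![0, 0, 0, -1, 0, 0, 0, 0] :=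
    Fl_sum good8 hu f40 f42 (by decide +kernel)
  have f44 : Lv good8 L u ![0, 0, 0, 0, 1, 0, 0, 0] 2 :=
    Lv_sum' good8 f11 f6 (by decide +kernel)
  have f45 : Fl good8 L ![0, 0, 0, 0, 1, 0, 0, 0] :=
    Fl_loop' good8 hu hs f44 f8 f11 (by decide +kernel)
  have f46 : Lv good8 L u ![0, 0, 0, 0, -1, 0, 0, 0] 2 :=
    Lv_sum' good8 f13 f8 (by decide +kernel)
  have f47 : Fl good8 L ![0, 0, 0, 0, -1, 0, 0, 0] :=
    Fl_loop' good8 hu hs f46 z0 f32 (by decide +kernel)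
  have f48 : Lv good8 L u ![0, 0, 0, 0, 0, 1, 0, 0] 2 :=
    Lv_sum' good8 f13 f4 (by decide +kernel)
  have f49 : Fl good8 L ![0, 0, 0, 0, 0, 1, 0, 0] :=
    Fl_loop' good8 hu hs f48 f6 f13 (by decide +kernel)
  have f50 : Lv good8 L u ![0, 0, 0, 0, 0, -1, 0, 0] 2 :=
    Lv_sum' good8 f15 f6 (by decide +kernel)
  have f51 : Fl good8 L ![0, 0, 0, 0, 0, -1, 0, 0] :=
    Fl_loop' good8 hu hs f50 f1 f20 (by decide +kernel)
  have f52 : Fl good8 L ![1, 1, 2, 2, 2, 2, 2, 1] :=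
    Fl_loop' good8 hu hs f25 f2 f17 (by decide +kernel)
  have f53 : Fl good8 L ![0, 0, 0, 0, 0, 0, 1, 0] :=
    Fl_sum good8 hu f52 f41 (by decide +kernel)
  have f54 : Lv good8 L u ![-1, -2, -2, -3, -3, -2, -2, -1] 3 :=
    Lv_sum' good8 f24 f13 (by decide +kernel)
  have f55 : Fl good8 L ![0, 0, 0, 0, 0, 0, -1, 0] :=
    Fl_sum good8 hu f40 f54 (by decide +kernel)
  have f56 : Lv good8 L u ![-1, -2, -2, -3, -3, -2, -1, 0] 3 :=
    Lv_sum' good8 f23 f14 (by decide +kernel)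
  have f57 : Fl good8 L ![0, 0, 0, 0, 0, 0, 0, 1] :=
    Fl_sum good8 hu f40 f56 (by decide +kernel)
  have f58 : Fl good8 L ![0, 0, -1, -1, -1, -1, -1, -1] :=
    Fl_loop' good8 hu hs f26 f1 f20 (by decide +kernel)
  have f59 : Fl good8 L ![0, 0, 0, 0, 0, 0, 0, -1] :=
    Fl_sum good8 hu f58 f27 (by decide +kernel)
  refine gen_simple good8 (all8 ?_ ?_ ?_ ?_ ?_ ?_ ?_ ?_) (all8 ?_ ?_ ?_ ?_ ?_ ?_ ?_ ?_)
  · exact Fl_eq good8 f21 (by decide +kernel)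
  · exact Fl_eq good8 f30 (by decide +kernel)
  · exact Fl_eq good8 f34 (by decide +kernel)
  · exact Fl_eq good8 f39 (by decide +kernel)
  · exact Fl_eq good8 f45 (by decide +kernel)
  · exact Fl_eq good8 f49 (by decide +kernel)
  · exact Fl_eq good8 f53 (by decide +kernel)
  · exact Fl_eq good8 f57 (by decide +kernel)
  · exact Fl_eq good8 f28 (by decide +kernel)
  · exact Fl_eq good8 f33 (by decide +kernel)
  · exact Fl_eq good8 f35 (by decide +kernel)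
  · exact Fl_eq good8 f43 (by decide +kernel)
  · exact Fl_eq good8 f47 (by decide +kernel)
  · exact Fl_eq good8 f51 (by decide +kernel)
  · exact Fl_eq good8 f55 (by decide +kernel)
  · exact Fl_eq good8 f59 (by decide +kernel)

/-- the certificate of the monomial part -/
theorem cert : Cert1 CartanMatrix.E₈ ![1, 1, 0, 0, 0, 0, 0, 0] la va lb vb lc vc
    [![0, 0, 1, 1, 1, 0, 0, 0], ![1, 1, 1, 1, 1, 0, 0, 0], ![1, 1, 2, 2, 2, 2, 2, 1], ![1, 2, 2, 4, 3, 2, 2, 1]] ![0, 1, 0, 0, 0, 0, 1, 0]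
    []
    [(true, ![0, 1, 1, 2, 2, 2, 1, 0]), (true, ![0, 0, 1, 0, 0, 0, 0, 0])]
    [(true, ![1, 1, 2, 3, 2, 1, 0, 0])]
    [(true, ![1, 2, 2, 3, 2, 2, 1, 0]), (true, ![0, 0, 0, 1, 0, 0, 0, 0])]
    (mw [] ![1, 1, 1, 1, 1, 1, 0, 1]) := by
  decide +kernel

theorem sa : wv CartanMatrix.E₈ (mw la va) ![1, 2, 2, 3, 3, 2, 1, 1] = ![1, 2, 2, 3, 3, 2, 1, 1] ∧ ws CartanMatrix.E₈ (mw la va) ![1, 2, 2, 3, 3, 2, 1, 1] = -1 := by decide +kernel

theorem sc : wv CartanMatrix.E₈ (mw lc vc) ![1, 2, 2, 3, 3, 2, 1, 1] = ![1, 2, 2, 3, 3, 2, 1, 1] ∧ ws CartanMatrix.E₈ (mw lc vc) ![1, 2, 2, 3, 3, 2, 1, 1] = -1 := by decide +kernel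

/-- the upper bound -/
theorem adm [Finite K] (hK : (2 : K) ≠ 0) :
    H47Inv.Admissible ↥(ChevalleyGroup CartanMatrix.E₈ K) 5 := by
  obtain ⟨u, hu, hg⟩ := exists_gen K
  obtain ⟨m, hm, hm0⟩ := odd_char hK
  refine adm1 good8 hK (r := ![1, 2, 2, 3, 3, 2, 1, 1]) (by decide +kernel) cert (C := X good8 ![1, 2, 2, 3, 3, 2, 1, 1] u)
    (D := X good8 ![1, 2, 2, 3, 3, 2, 1, 1] (u / 2)) (X_mem _ _ _) ?_ ?_ ?_ hm ?_ (fun L ha hb hc h0 =>
      gen hu (sp_odd hK hg) L ha hb hc h0)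
  · rw [X_add]; congr 1; field_simp; norm_num
  · rw [X_inv]; exact inv_of_sign good8 okc sc _
  · rw [X_inv]; exact inv_of_sign good8 oka sa _
  · rw [X_pow, hm0, zero_mul, X_zero]

end H41Chev.E8odd
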