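import Mathlib
import Pool.Agent.H.MP_0335f8_al.helper41.Conj2
import Pool.Agent.H.MP_0335f8_al.helper41.Ex

/-!
# The certificate for `E₈`, characteristic two
-/

namespace H41Chev.E8two

variable {K : Type*} [Field K]

/-- the roots of the first involution -/
def la : List (Fin 8 → ℤ) :=
  [![1, 0, 0, 0, 0, 0, 0, 0],
   ![0, 0, 0, 0, 0, 1, 1, 0],
   ![0, 0, 0, 0, 1, 1, 1, 1],
   ![0, 1, 0, 1, 1, 1, 0, 0]]

/-- the roots of the third involution -/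
def lc : List (Fin 8 → ℤ) :=
  [![0, 1, 1, 1, 0, 0, 0, 0],
   ![0, 1, 0, 1, 1, 1, 1, 0],
   ![0, 1, 1, 2, 2, 1, 1, 1],
   ![1, 1, 1, 2, 1, 1, 1, 1]]

/-- the second involution -/
def lb : XC 8 :=
  [(![-1, -2, -2, -4, -3, -3, -2, -1], 1), (![-1, -1, -2, -3, -2, -1, -1, -1], 1), (![0, -1, -1, -1, -1, -1, -1, -1], 1), (![-1, -1, -1, -1, 0, 0, 0, 0], 1)]

/-- the word of the first involution -/
def wa : Wd 8 := la.map (Prod.mk true)

/-- the word of the third involution -/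
def wc : Wd 8 := lc.map (Prod.mk true)

theorem oka : wok CartanMatrix.E₈ wa := by decide +kernel

theorem okc : wok CartanMatrix.E₈ wc := by decide +kernel

/-- the three elements generate -/
theorem gen (hK : (2 : K) = 0) {u : K} (hu : u ≠ 0) (hs : ∀ j, Sp u (2 ^ j))
    (L : Subgroup (GLM CartanMatrix.E₈ K)) (ha : NN good8 wa ∈ L) (hb : XT good8 u lb ∈ L)
    (hc : NN good8 wc ∈ L) : ChevalleyGroup CartanMatrix.E₈ K ≤ L := by
  have s2 : Sp u 4 := by have := hs 2; norm_num at this; exact this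
  have t0 : Tm good8 L u [(![-1, -2, -2, -4, -3, -3, -2, -1], 1), (![-1, -1, -2, -3, -2, -1, -1, -1], 1), (![0, -1, -1, -1, -1, -1, -1, -1], 1), (![-1, -1, -1, -1, 0, 0, 0, 0], 1)] := hb
  have t1 : Tm good8 L u [(![0, 0, -1, -1, -1, -1, 0, 0], 1), (![0, 0, 0, 0, 0, 0, 0, 1], 1), (![0, 1, 1, 2, 1, 0, 0, 0], 1), (![0, 0, 0, 0, -1, 0, 0, 0], 1)] :=
    Tm_conj_eq good8 hK okc hc t0 (by decide +kernel)
  have t2 : Tm good8 L u [(![-1, 0, -1, -1, -1, -1, 0, 0], 1), (![0, 0, 0, 0, -1, 0, 0, 0], 1), (![1, 1, 1, 2, 2, 2, 2, 1], 1), (![0, 0, 0, 0, 0, 0, 0, 1], 1)] :=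
    Tm_conj_eq good8 hK oka ha t1 (by decide +kernel)
  have t3 : Tm good8 L u [(![1, 2, 2, 4, 3, 2, 2, 1], 2)] :=
    Tm_com_eq good8 hK t2 t1 (by decide +kernel)
  have f0 : Lv good8 L u ![1, 2, 2, 4, 3, 2, 2, 1] 2 := Lv_of_Tm good8 t3
  have f1 : Lv good8 L u ![0, -1, 0, -1, -1, -1, -1, -1] 2 :=
    Lv_conj good8 okc hc f0 (by decide +kernel)
  have f2 : Lv good8 L u ![0, 0, 0, 0, 1, 1, 0, 0] 2 :=
    Lv_conj good8 oka ha f1 (by decide +kernel)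
  have f3 : Lv good8 L u ![1, 2, 2, 4, 4, 3, 2, 1] 4 :=
    Lv_sum' good8 f2 f0 (by decide +kernel)
  have f4 : Lv good8 L u ![1, 1, 2, 2, 1, 1, 0, 0] 4 :=
    Lv_conj good8 okc hc f3 (by decide +kernel)
  have f5 : Lv good8 L u ![1, 1, 2, 2, 2, 2, 1, 1] 4 :=
    Lv_conj good8 oka ha f4 (by decide +kernel)
  have f6 : Lv good8 L u ![1, 2, 2, 3, 3, 3, 2, 1] 4 :=
    Lv_conj good8 okc hc f5 (by decide +kernel)
  have f7 : Lv good8 L u ![1, 1, 2, 2, 1, 0, 0, 0] 4 :=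
    Lv_conj good8 oka ha f6 (by decide +kernel)
  have f8 : Lv good8 L u ![1, 1, 1, 2, 2, 1, 1, 0] 4 :=
    Lv_conj good8 okc hc f7 (by decide +kernel)
  have f9 : Lv good8 L u ![0, 1, 1, 2, 2, 1, 1, 0] 4 :=
    Lv_conj good8 oka ha f8 (by decide +kernel)
  have f10 : Lv good8 L u ![1, 0, 1, 1, 0, 0, 0, 0] 4 :=
    Lv_conj good8 okc hc f9 (by decide +kernel)
  have f11 : Lv good8 L u ![0, 1, 1, 2, 2, 2, 1, 1] 4 :=
    Lv_conj good8 oka ha f10 (by decide +kernel)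
  have f12 : Lv good8 L u ![0, 0, 0, 0, 0, 1, 0, 0] 4 :=
    Lv_conj good8 okc hc f11 (by decide +kernel)
  have f13 : Lv good8 L u ![1, 1, 2, 3, 2, 1, 1, 0] 4 :=
    Lv_sum' good8 f1 f0 (by decide +kernel)
  have f14 : Lv good8 L u ![1, 1, 2, 3, 2, 2, 1, 0] 8 :=
    Lv_sum' good8 f12 f13 (by decide +kernel)
  have f15 : Lv good8 L u ![1, 1, 2, 3, 3, 2, 1, 1] 8 :=
    Lv_conj good8 oka ha f14 (by decide +kernel)
  have f16 : Lv good8 L u ![1, 2, 2, 3, 2, 2, 1, 0] 8 :=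
    Lv_conj good8 okc hc f15 (by decide +kernel)
  have f17 : Lv good8 L u ![1, 1, 2, 2, 2, 1, 1, 1] 8 :=
    Lv_conj good8 oka ha f16 (by decide +kernel)
  have f18 : Lv good8 L u ![1, 1, 1, 1, 1, 1, 1, 0] 8 :=
    Lv_conj good8 okc hc f17 (by decide +kernel)
  have f19 : Lv good8 L u ![0, 1, 1, 1, 1, 0, 0, 0] 8 :=
    Lv_conj good8 oka ha f18 (by decide +kernel)
  have f20 : Lv good8 L u ![1, 0, 0, 0, 0, 0, 0, 0] 8 :=
    Lv_conj good8 okc hc f19 (by decide +kernel)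
  have f21 : Lv good8 L u ![1, 2, 2, 3, 2, 2, 1, 1] 2 :=
    Lv_conj good8 okc hc f2 (by decide +kernel)
  have f22 : Lv good8 L u ![1, 1, 2, 2, 1, 1, 1, 1] 2 :=
    Lv_conj good8 oka ha f21 (by decide +kernel)
  have f23 : Lv good8 L u ![0, 0, 0, 0, 1, 1, 1, 0] 2 :=
    Lv_conj good8 okc hc f22 (by decide +kernel)
  have f24 : Lv good8 L u ![0, 0, 0, 0, 0, -1, -1, -1] 2 :=
    Lv_conj good8 oka ha f23 (by decide +kernel)
  have f25 : Lv good8 L u ![1, 1, 1, 2, 1, 0, 0, 0] 2 :=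
    Lv_conj good8 okc hc f24 (by decide +kernel)
  have f26 : Lv good8 L u ![0, 1, 1, 2, 2, 2, 2, 1] 2 :=
    Lv_conj good8 oka ha f25 (by decide +kernel)
  have f27 : Lv good8 L u ![0, -1, 0, -1, -1, 0, 0, 0] 2 :=
    Lv_conj good8 okc hc f26 (by decide +kernel)
  have f28 : Lv good8 L u ![0, 0, 0, 0, 0, 0, -1, 0] 2 :=
    Lv_conj good8 oka ha f27 (by decide +kernel)
  have f29 : Lv good8 L u ![0, 1, 0, 1, 1, 1, 0, 0] 2 :=
    Lv_conj good8 okc hc f28 (by decide +kernel)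
  have f30 : Lv good8 L u ![0, -1, 0, -1, -1, -1, 0, 0] 2 :=
    Lv_conj good8 oka ha f29 (by decide +kernel)
  have f31 : Lv good8 L u ![0, 0, 0, 0, 0, 0, 1, 0] 2 :=
    Lv_conj good8 okc hc f30 (by decide +kernel)
  have f32 : Lv good8 L u ![0, 1, 0, 1, 1, 0, 0, 0] 2 :=
    Lv_conj good8 oka ha f31 (by decide +kernel)
  have f33 : Lv good8 L u ![0, -1, -1, -2, -2, -2, -2, -1] 2 :=
    Lv_conj good8 okc hc f32 (by decide +kernel)
  have f34 : Fl good8 L ![1, 0, 0, 0, 0, 0, 0, 0] :=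
    Fl_loop' good8 hu s2 f20 f26 f33 (by decide +kernel)
  have f35 : Lv good8 L u ![-1, 0, 0, 0, 0, 0, 0, 0] 8 :=
    Lv_conj good8 oka ha f20 (by decide +kernel)
  have f36 : Lv good8 L u ![-1, -1, -1, -2, -1, 0, 0, 0] 2 :=
    Lv_conj good8 oka ha f33 (by decide +kernel)
  have f37 : Fl good8 L ![-1, 0, 0, 0, 0, 0, 0, 0] :=
    Fl_loop' good8 hu s2 f35 f25 f36 (by decide +kernel)
  have f38 : Fl good8 L ![1, 2, 2, 3, 3, 3, 2, 1] :=
    Fl_loop' good8 hu s2 f6 f30 f29 (by decide +kernel)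
  have f39 : Lv good8 L u ![0, -1, 0, -1, -1, -1, -1, 0] 4 :=
    Lv_conj good8 oka ha f12 (by decide +kernel)
  have f40 : Lv good8 L u ![1, 1, 2, 3, 2, 1, 1, 1] 6 :=
    Lv_sum' good8 f39 f0 (by decide +kernel)
  have f41 : Lv good8 L u ![0, 0, 0, 0, 0, 0, 0, -1] 6 :=
    Lv_conj good8 okc hc f40 (by decide +kernel)
  have f42 : Lv good8 L u ![0, 0, 0, 0, 1, 0, 0, 0] 6 :=
    Lv_conj good8 oka ha f41 (by decide +kernel)
  have f43 : Lv good8 L u ![1, 1, 1, 1, 0, 0, 0, 0] 6 :=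
    Lv_conj good8 okc hc f42 (by decide +kernel)
  have f44 : Lv good8 L u ![0, 1, 1, 1, 1, 1, 1, 1] 6 :=
    Lv_conj good8 oka ha f43 (by decide +kernel)
  have f45 : Lv good8 L u ![0, -1, -1, -2, -1, 0, 0, 0] 6 :=
    Lv_conj good8 okc hc f44 (by decide +kernel)
  have f46 : Lv good8 L u ![-1, -1, -1, -2, -2, -2, -2, -1] 6 :=
    Lv_conj good8 oka ha f45 (by decide +kernel)
  have f47 : Lv good8 L u ![0, 0, -1, 0, 0, 0, 0, 0] 6 :=
    Lv_conj good8 okc hc f46 (by decide +kernel)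
  have f48 : Lv good8 L u ![-1, -1, -1, -1, -1, -1, 0, 0] 6 :=
    Lv_conj good8 oka ha f47 (by decide +kernel)
  have f49 : Lv good8 L u ![-1, -2, -2, -3, -3, -2, -1, -1] 6 :=
    Lv_conj good8 okc hc f48 (by decide +kernel)
  have f50 : Lv good8 L u ![-1, -1, -2, -2, -1, -1, -1, 0] 6 :=
    Lv_conj good8 oka ha f49 (by decide +kernel)
  have f51 : Lv good8 L u ![-1, -1, -2, -3, -3, -2, -2, -1] 6 :=
    Lv_conj good8 okc hc f50 (by decide +kernel)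
  have f52 : Lv good8 L u ![-1, -2, -2, -4, -3, -2, -1, 0] 6 :=
    Lv_conj good8 oka ha f51 (by decide +kernel)
  have f53 : Lv good8 L u ![-1, -1, -2, -3, -2, -1, 0, 0] 6 :=
    Lv_conj good8 okc hc f52 (by decide +kernel)
  have f54 : Lv good8 L u ![-1, -1, -2, -3, -3, -3, -2, -1] 6 :=
    Lv_conj good8 oka ha f53 (by decide +kernel)
  have f55 : Fl good8 L ![0, 1, 0, 0, 0, 0, 0, 0] :=
    Fl_sum good8 hu f38 f54 (by decide +kernel)
  have f56 : Lv good8 L u ![1, 1, 2, 3, 2, 2, 2, 1] 4 :=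
    Lv_sum' good8 f27 f0 (by decide +kernel)
  have f57 : Lv good8 L u ![1, 2, 2, 4, 3, 2, 1, 1] 4 :=
    Lv_conj good8 oka ha f56 (by decide +kernel)
  have f58 : Lv good8 L u ![0, 0, 0, 0, 0, 0, -1, -1] 4 :=
    Lv_conj good8 okc hc f57 (by decide +kernel)
  have f59 : Lv good8 L u ![0, -1, 0, -1, 0, 0, 0, 0] 4 :=
    Lv_conj good8 oka ha f58 (by decide +kernel)
  have f60 : Lv good8 L u ![1, 2, 2, 3, 2, 2, 2, 1] 4 :=
    Lv_conj good8 okc hc f59 (by decide +kernel)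
  have f61 : Lv good8 L u ![1, 2, 2, 3, 2, 1, 1, 1] 4 :=
    Lv_conj good8 oka ha f60 (by decide +kernel)
  have f62 : Lv good8 L u ![0, -1, -1, -2, -1, -1, -1, -1] 4 :=
    Lv_conj good8 okc hc f61 (by decide +kernel)
  have f63 : Lv good8 L u ![-1, -1, -1, -2, -1, -1, -1, -1] 4 :=
    Lv_conj good8 oka ha f62 (by decide +kernel)
  have f64 : Lv good8 L u ![1, 1, 1, 2, 1, 1, 1, 1] 4 :=
    Lv_conj good8 okc hc f63 (by decide +kernel)
  have f65 : Lv good8 L u ![0, 1, 1, 2, 1, 1, 1, 1] 4 :=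
    Lv_conj good8 oka ha f64 (by decide +kernel)
  have f66 : Lv good8 L u ![-1, -2, -2, -3, -2, -1, -1, -1] 4 :=
    Lv_conj good8 okc hc f65 (by decide +kernel)
  have f67 : Lv good8 L u ![-1, -2, -2, -3, -2, -2, -2, -1] 4 :=
    Lv_conj good8 oka ha f66 (by decide +kernel)
  have f68 : Lv good8 L u ![0, -1, 0, 0, 0, 0, 0, 0] 8 :=
    Lv_sum' good8 f67 f56 (by decide +kernel)
  have f69 : Lv good8 L u ![0, 0, 0, 0, 0, 1, 1, 1] 2 :=
    Lv_conj good8 okc hc f36 (by decide +kernel)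
  have f70 : Lv good8 L u ![0, 0, 0, 0, -1, -1, -1, 0] 2 :=
    Lv_conj good8 oka ha f69 (by decide +kernel)
  have f71 : Lv good8 L u ![-1, -1, -2, -2, -1, -1, -1, -1] 2 :=
    Lv_conj good8 okc hc f70 (by decide +kernel)
  have f72 : Lv good8 L u ![-1, -2, -2, -3, -2, -2, -1, -1] 2 :=
    Lv_conj good8 oka ha f71 (by decide +kernel)
  have f73 : Fl good8 L ![0, -1, 0, 0, 0, 0, 0, 0] :=
    Fl_loop' good8 hu s2 f68 f21 f72 (by decide +kernel)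
  have f74 : Lv good8 L u ![1, 1, 2, 3, 3, 2, 2, 1] 6 :=
    Lv_sum' good8 f59 f0 (by decide +kernel)
  have f75 : Lv good8 L u ![1, 1, 2, 2, 1, 1, 1, 0] 6 :=
    Lv_conj good8 okc hc f74 (by decide +kernel)
  have f76 : Lv good8 L u ![1, 2, 2, 3, 3, 2, 1, 1] 6 :=
    Lv_conj good8 oka ha f75 (by decide +kernel)
  have f77 : Lv good8 L u ![1, 1, 1, 1, 1, 1, 0, 0] 6 :=
    Lv_conj good8 okc hc f76 (by decide +kernel)
  have f78 : Lv good8 L u ![0, 0, 1, 0, 0, 0, 0, 0] 6 :=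
    Lv_conj good8 oka ha f77 (by decide +kernel)
  have f79 : Fl good8 L ![0, 0, 1, 0, 0, 0, 0, 0] :=
    Fl_loop' good8 hu s2 f78 f25 f36 (by decide +kernel)
  have f80 : Fl good8 L ![0, 0, -1, 0, 0, 0, 0, 0] :=
    Fl_loop' good8 hu s2 f47 f22 f71 (by decide +kernel)
  have f81 : Fl good8 L ![1, 2, 2, 4, 3, 2, 2, 1] :=
    Fl_loop' good8 hu s2 f0 f28 f31 (by decide +kernel)
  have f82 : Lv good8 L u ![0, 0, 0, 1, 1, 0, 0, 0] 6 :=
    Lv_sum' good8 f67 f0 (by decide +kernel)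
  have f83 : Lv good8 L u ![0, 0, 0, 0, -1, -1, -1, -1] 6 :=
    Lv_conj good8 okc hc f82 (by decide +kernel)
  have f84 : Lv good8 L u ![0, 0, 0, 0, 1, 1, 1, 1] 6 :=
    Lv_conj good8 oka ha f83 (by decide +kernel)
  have f85 : Lv good8 L u ![0, 0, 0, -1, -1, 0, 0, 0] 6 :=
    Lv_conj good8 okc hc f84 (by decide +kernel)
  have f86 : Lv good8 L u ![0, 0, 0, -1, -1, -1, -1, 0] 6 :=
    Lv_conj good8 oka ha f85 (by decide +kernel)
  have f87 : Lv good8 L u ![0, 0, -1, -1, 0, 0, 0, 0] 6 :=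
    Lv_conj good8 okc hc f86 (by decide +kernel)
  have f88 : Lv good8 L u ![-1, -1, -1, -2, -2, -2, -1, -1] 6 :=
    Lv_conj good8 oka ha f87 (by decide +kernel)
  have f89 : Lv good8 L u ![0, -1, -1, -1, -1, -1, 0, 0] 6 :=
    Lv_conj good8 okc hc f88 (by decide +kernel)
  have f90 : Lv good8 L u ![-1, 0, -1, 0, 0, 0, 0, 0] 6 :=
    Lv_conj good8 oka ha f89 (by decide +kernel)
  have f91 : Lv good8 L u ![-1, -2, -2, -3, -3, -2, -2, -1] 6 :=
    Lv_conj good8 okc hc f90 (by decide +kernel)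
  have f92 : Fl good8 L ![0, 0, 0, 1, 0, 0, 0, 0] :=
    Fl_sum good8 hu f81 f91 (by decide +kernel)
  have f93 : Fl good8 L ![0, 0, 0, 0, 1, 1, 1, 0] :=
    Fl_loop' good8 hu s2 f23 f28 f31 (by decide +kernel)
  have f94 : Fl good8 L ![0, 0, 0, -1, 0, 0, 0, 0] :=
    Fl_sum good8 hu f93 f86 (by decide +kernel)
  have f95 : Fl good8 L ![0, 0, 0, 0, 1, 0, 0, 0] :=
    Fl_loop' good8 hu s2 f42 f27 f32 (by decide +kernel)
  have f96 : Lv good8 L u ![1, 1, 1, 2, 2, 2, 2, 1] 6 :=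
    Lv_conj good8 okc hc f78 (by decide +kernel)
  have f97 : Lv good8 L u ![0, 1, 1, 2, 1, 0, 0, 0] 6 :=
    Lv_conj good8 oka ha f96 (by decide +kernel)
  have f98 : Lv good8 L u ![0, -1, -1, -1, -1, -1, -1, -1] 6 :=
    Lv_conj good8 okc hc f97 (by decide +kernel)
  have f99 : Lv good8 L u ![-1, -1, -1, -1, 0, 0, 0, 0] 6 :=
    Lv_conj good8 oka ha f98 (by decide +kernel)
  have f100 : Lv good8 L u ![0, 0, 0, 0, -1, 0, 0, 0] 6 :=
    Lv_conj good8 okc hc f99 (by decide +kernel)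
  have f101 : Lv good8 L u ![0, 0, 0, 0, -1, -1, 0, 0] 2 :=
    Lv_conj good8 okc hc f72 (by decide +kernel)
  have f102 : Fl good8 L ![0, 0, 0, 0, -1, 0, 0, 0] :=
    Fl_loop' good8 hu s2 f100 f2 f101 (by decide +kernel)
  have f103 : Fl good8 L ![0, 0, 0, 0, 0, 1, 0, 0] :=
    Fl_loop' good8 hu s2 f12 f30 f29 (by decide +kernel)
  have f104 : Lv good8 L u ![0, 1, 0, 1, 1, 1, 1, 0] 4 :=
    Lv_conj good8 okc hc f39 (by decide +kernel)
  have f105 : Lv good8 L u ![0, 0, 0, 0, 0, -1, 0, 0] 4 :=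
    Lv_conj good8 oka ha f104 (by decide +kernel)
  have f106 : Fl good8 L ![0, 0, 0, 0, 0, -1, 0, 0] :=
    Fl_loop' good8 hu s2 f105 f27 f32 (by decide +kernel)
  have f107 : Fl good8 L ![0, 0, 0, 0, 0, 0, 1, 0] :=
    Fl_loop' good8 hu s2 f31 f29 f30 (by decide +kernel)
  have f108 : Fl good8 L ![0, 0, 0, 0, 0, 0, -1, 0] :=
    Fl_loop' good8 hu s2 f28 f30 f29 (by decide +kernel)
  have f109 : Lv good8 L u ![0, 0, 0, 0, 0, 0, 0, 1] 6 :=
    Lv_conj good8 oka ha f100 (by decide +kernel)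
  have f110 : Lv good8 L u ![0, 1, 0, 1, 1, 1, 1, 1] 2 :=
    Lv_conj good8 oka ha f101 (by decide +kernel)
  have f111 : Fl good8 L ![0, 0, 0, 0, 0, 0, 0, 1] :=
    Fl_loop' good8 hu s2 f109 f1 f110 (by decide +kernel)
  have f112 : Fl good8 L ![0, 0, 0, 0, 0, 0, 0, -1] :=
    Fl_loop' good8 hu s2 f41 f28 f31 (by decide +kernel)
  refine gen_simple good8 (all8 ?_ ?_ ?_ ?_ ?_ ?_ ?_ ?_) (all8 ?_ ?_ ?_ ?_ ?_ ?_ ?_ ?_)
  · exact Fl_eq good8 f34 (by decide +kernel)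
  · exact Fl_eq good8 f55 (by decide +kernel)
  · exact Fl_eq good8 f79 (by decide +kernel)
  · exact Fl_eq good8 f92 (by decide +kernel)
  · exact Fl_eq good8 f95 (by decide +kernel)
  · exact Fl_eq good8 f103 (by decide +kernel)
  · exact Fl_eq good8 f107 (by decide +kernel)
  · exact Fl_eq good8 f111 (by decide +kernel)
  · exact Fl_eq good8 f37 (by decide +kernel)
  · exact Fl_eq good8 f73 (by decide +kernel)
  · exact Fl_eq good8 f80 (by decide +kernel)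
  · exact Fl_eq good8 f94 (by decide +kernel)
  · exact Fl_eq good8 f102 (by decide +kernel)
  · exact Fl_eq good8 f106 (by decide +kernel)
  · exact Fl_eq good8 f108 (by decide +kernel)
  · exact Fl_eq good8 f112 (by decide +kernel)

/-- the certificate of the conjugacies -/
theorem cert : Cert2 CartanMatrix.E₈ la lc lb
    [(![-1, -2, -2, -4, -3, -3, -2, -1], 1), (![0, -1, -1, -1, -1, -1, -1, -1], 1)]
    []
    [(true, ![1, 1, 1, 1, 1, 1, 1, 1]), (true, ![1, 2, 2, 4, 3, 3, 2, 1]), (true, ![0, 0, 0, 0, 0, 1, 1, 0])]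
    [(true, ![0, 0, 0, 1, 0, 0, 0, 0]), (true, ![1, 1, 2, 2, 1, 1, 1, 1]), (true, ![0, 1, 0, 1, 1, 1, 0, 0]), (true, ![0, 1, 0, 1, 1, 0, 0, 0]), (true, ![0, 1, 1, 1, 0, 0, 0, 0]), (true, ![1, 0, 0, 0, 0, 0, 0, 0])] := by
  decide +kernel

theorem nbr : ∀ i, ∃ j, ip CartanMatrix.E₈ (Pi.single i 1) (Pi.single j 1) = -1 := by decide +kernel

/-- the upper bound -/
theorem adm [Finite K] (hK : (2 : K) = 0) :
    H47Inv.Admissible ↥(ChevalleyGroup CartanMatrix.E₈ K) 5 := by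
  obtain ⟨u, hu, hg⟩ := exists_gen K
  exact adm2 good8 hK (sq_unit hK hu) (hroot_of good8 nbr) (r := ![1, 0, 0, 0, 0, 0, 0, 0]) (by decide +kernel) cert
    (gen hK hu (sp_two hK hg))

end H41Chev.E8two
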